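import Pool.Agent.Lib.MP_b07157_ag.SK.B3

/-!
# Exchanges
-/

set_option linter.unusedSectionVars false

namespace MPb07157.SK

open Finset Module MPb07157.EX

variable {ι κ : Type} [Fintype ι] [DecidableEq ι] [DecidableEq κ]
variable {c : κ → ι → ℕ} {C : Finset κ} {A : Set (ι → ℚ)} {V V' : Submodule ℚ (ι → ℚ)}
  {T R : Finset ι} {J J' Y Z : Finset κ} {W : Finset ι} {w₀ : ι} {t : ι → ℚ}

omit [Fintype ι] [DecidableEq ι] [DecidableEq κ] in
private theorem b4_le (hJ : Fam c C T J) (e : ι) (he : e ∉ T) : ∑ k ∈ J, c k e ≤ 1 := by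
  by_cases h0 : ∀ k ∈ J, c k e = 0
  · rw [Finset.sum_eq_zero h0]
    exact Nat.zero_le _
  · push Not at h0
    obtain ⟨k, hk, hk0⟩ := h0
    rw [Finset.sum_eq_single_of_mem k hk]
    · exact hJ.zo k hk e he
    · intro k' hk' hne
      by_contra h1
      exact hne (hJ.dj k' hk' k hk e he h1 hk0)

omit [Fintype ι] [DecidableEq ι] [DecidableEq κ] in
private theorem b4_ex (J : Finset κ) (e : ι) : (∃ k ∈ J, c k e ≠ 0) ↔ ∑ k ∈ J, c k e ≠ 0 := by
  constructor
  · rintro ⟨k, hk, hk0⟩ h
    rw [Finset.sum_eq_zero_iff] at h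
    exact hk0 (h k hk)
  · intro h
    obtain ⟨k, hk, hk0⟩ := Finset.exists_ne_zero_of_sum_ne_zero h
    exact ⟨k, hk, hk0⟩

/-- Exchanging `H` for `H'`.  Proof: if `k' ∈ H' ∩ (J \ H)`, take `e ∈ sup k'`; then
`∑_{H'} c e ≥ 1`, so some `k ∈ H` has `c k e ≠ 0`, `k = k'` by `dj`, contradiction.  All sums of
the new family (outside `T`) are equal to those of `J`, hence at most one, which gives `zo` and
`dj` (columns are nonnegative). -/
theorem Pre.swap (h : Pre c C A V T) (hJ : Fam c C T J) {H H' : Finset κ} (hH : H ⊆ J)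
    (hH' : H' ⊆ C) (hc : H'.card = H.card)
    (hs : ∀ e, e ∉ T → ∑ k ∈ H', c k e = ∑ k ∈ H, c k e) :
    Disjoint (J \ H) H' ∧ Fam c C T (J \ H ∪ H') ∧ PU c T (J \ H ∪ H') = PU c T J ∧
      (J \ H ∪ H').card = J.card ∧
      ∀ e, e ∉ T → ∑ k ∈ J \ H ∪ H', c k e = ∑ k ∈ J, c k e := by
  have hdis : Disjoint (J \ H) H' := by
    rw [Finset.disjoint_left]
    intro k' hk' hk''
    rw [Finset.mem_sdiff] at hk'
    obtain ⟨e, he⟩ := h.sup_ne (hJ.sub hk'.1)
    rw [mem_sup'] at he
    have h1 : ∑ k ∈ H', c k e ≠ 0 := by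
      intro h2
      rw [Finset.sum_eq_zero_iff] at h2
      exact he.2 (h2 k' hk'')
    rw [hs e he.1] at h1
    obtain ⟨k, hk, hk0⟩ := Finset.exists_ne_zero_of_sum_ne_zero h1
    have h2 := hJ.dj k (hH hk) k' hk'.1 e he.1 hk0 he.2
    rw [h2] at hk
    exact hk'.2 hk
  have hsum : ∀ e, e ∉ T → ∑ k ∈ J \ H ∪ H', c k e = ∑ k ∈ J, c k e := by
    intro e he
    rw [Finset.sum_union hdis, hs e he, Finset.sum_sdiff hH]
  have hle := b4_le hJ
  refine ⟨hdis, ⟨?_, ?_, ?_⟩, ?_, ?_, hsum⟩
  · exact Finset.union_subset (Finset.sdiff_subset.trans hJ.sub) hH'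
  · intro k hk e he
    calc c k e ≤ ∑ k ∈ J \ H ∪ H', c k e :=
          Finset.single_le_sum (f := fun k => c k e) (fun _ _ => Nat.zero_le _) hk
      _ ≤ 1 := by
          rw [hsum e he]
          exact hle e he
  · intro k hk k' hk' e he h1 h2
    by_contra hne
    have h3 : c k e + c k' e ≤ ∑ k ∈ J \ H ∪ H', c k e := by
      rw [← Finset.sum_pair (f := fun k => c k e) hne]
      refine Finset.sum_le_sum_of_subset ?_
      intro x hx
      rw [Finset.mem_insert, Finset.mem_singleton] at hx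
      rcases hx with rfl | rfl
      · exact hk
      · exact hk'
    rw [hsum e he] at h3
    have h4 := hle e he
    omega
  · ext e
    rw [mem_PU, mem_PU]
    refine and_congr_right fun he => ?_
    rw [b4_ex, b4_ex, hsum e he]
  · rw [Finset.card_union_of_disjoint hdis, Finset.card_sdiff_of_subset hH, hc]
    have := Finset.card_le_card hH
    omega

/-- Conversely, for rigidity it is enough to consider exchanges of the whole family.  Proof: apply
`hR` to `Y = J \ H ∪ H'` (`Pre.swap`); `J \ H ∪ H' = J` and disjointness give `H' = H`. -/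
theorem Pre.rigid_of_whole (h : Pre c C A V T) (hJ : Fam c C T J)
    (hR : ∀ Y, Fam c C T Y → PU c T Y = PU c T J → Y.card = J.card →
      (∀ e, e ∉ T → ∑ k ∈ Y, c k e = ∑ k ∈ J, c k e) → Y = J) : Rigid c C T J := by
  intro H hH H' hH' hc hs
  obtain ⟨h1, h2, h3, h4, h5⟩ := h.swap hJ hH hH' hc hs
  have h6 := hR _ h2 h3 h4 h5
  refine Finset.eq_of_subset_of_card_le ?_ hc.ge
  intro k hk
  by_contra hkH
  have h7 : k ∈ J := by
    rw [← h6]
    exact Finset.mem_union_right _ hk
  exact (Finset.disjoint_left.1 h1) (Finset.mem_sdiff.2 ⟨h7, hkH⟩) hk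

/-- A single column `{k}` with `U T w = {k}` is a rigid deficit.  Proof: `PU {k} = {w}`, `num` is
clear (`1 + 1 ≤ 2`); a family `H'` of one column `k'` with the same values outside `T` is in
`U T w`; `H = ∅` is trivial. -/
theorem Pre.dfc_single (h : Pre c C A V T) {w : ι} {k : κ} (hk : Own c C C T w k) :
    Dfc c C V T {k} ∧ Rigid c C T {k} := by
  obtain ⟨hw, hU, hkC⟩ := hk
  have hkU : k ∈ U c C T w := by
    rw [hU]
    exact Finset.mem_singleton_self k
  obtain ⟨-, h1, h2⟩ := mem_U.1 hkU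
  refine ⟨⟨⟨?_, ?_, ?_⟩, Finset.singleton_nonempty k, ?_⟩, ?_⟩
  · intro x hx
    rw [Finset.mem_singleton.1 hx]
    exact hkC
  · intro x hx e he
    rw [Finset.mem_singleton.1 hx]
    by_cases h0 : c k e = 0
    · omega
    · rcases h2 e h0 with h3 | h3
      · exact absurd h3 he
      · rw [h3, h1]
  · intro x hx y hy _ _ _ _
    rw [Finset.mem_singleton.1 hx, Finset.mem_singleton.1 hy]
  · have h3 : (PU c T {k}).card ≤ 1 := by
      rw [← Finset.card_singleton w]
      refine Finset.card_le_card fun e he => ?_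
      obtain ⟨h4, x, hx, h5⟩ := mem_PU.1 he
      rw [Finset.mem_singleton.1 hx] at h5
      rw [Finset.mem_singleton]
      rcases h2 e h5 with h6 | h6
      · exact absurd h6 h4
      · exact h6
    rw [Finset.card_singleton]
    omega
  · intro H hH H' hH' hc hs
    rcases Finset.subset_singleton_iff.1 hH with h3 | h3
    · subst h3
      rw [Finset.card_empty, Finset.card_eq_zero] at hc
      exact hc
    · subst h3
      rw [Finset.card_singleton, Finset.card_eq_one] at hc
      obtain ⟨k', rfl⟩ := hc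
      simp only [Finset.sum_singleton] at hs
      have h4 : k' ∈ U c C T w := by
        refine mem_U.2 ⟨hH' (Finset.mem_singleton_self k'), by rw [hs w hw, h1], ?_⟩
        intro e he
        by_cases heT : e ∈ T
        · exact Or.inl heT
        · rw [hs e heT] at he
          exact h2 e he
      rw [hU, Finset.mem_singleton] at h4
      rw [h4]

end MPb07157.SK
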