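import Pool.Agent.Lib.MP_b07157_ag.SK.Br
import Pool.Agent.Lib.MP_b07157_ag.SK.B4

/-!
# Lemma C: a rigid minimal deficit is compatible with all minimal deficits
-/

set_option linter.unusedSectionVars false

namespace MPb07157.SK

open Finset Module MPb07157.EX

variable {ι κ : Type} [Fintype ι] [DecidableEq ι] [DecidableEq κ]
variable {c : κ → ι → ℕ} {C : Finset κ} {A : Set (ι → ℚ)} {V V' : Submodule ℚ (ι → ℚ)}
  {T R : Finset ι} {J J' Y Z : Finset κ} {W : Finset ι} {w₀ : ι} {t : ι → ℚ}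

/-- LEMMA C for rigid minimal deficits (`EX.lemC` for the columns that are made zero on `T`). -/
theorem lemC (hP : Pre c C A V T) (hJ : MinD c C V T J) (hR : Rigid c C T J)
    (hZ : MinD c C V T Z) : ∀ k ∈ J, ∀ z ∈ Z, ∀ e, e ∉ T → c k e ≠ 0 → c z e ≠ 0 → k = z := by
  intro k hk z hz e he h1 h2
  exact EX.lemC (c := cz c T) (N := C) (V := V) (J := J) (J' := Z)
    (fun k hk ξ hξ => by rw [cz_sum (fun f hf => hP.vT hξ hf)]; exact hP.colV hk hξ)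
    hJ.dfc.fam.sub hZ.dfc.fam.sub (cz_zo hJ.dfc.fam) (cz_dj hJ.dfc.fam) (cz_zo hZ.dfc.fam)
    (cz_dj hZ.dfc.fam) (by rw [cz_PU]; exact hJ.dfc.num) (cz_min hJ)
    (by rw [cz_PU]; exact hZ.dfc.num) (cz_min hZ) (cz_rig hJ.dfc.fam hR) k hk z hz e
    (cz_ne.2 ⟨he, h1⟩) (cz_ne.2 ⟨he, h2⟩)

end MPb07157.SK
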