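import Pool.Agent.Lib.MP_b07157_ag.SK.L4

/-!
# Dimension zero and one
-/

set_option linter.unusedSectionVars false

namespace MPb07157.SK

open Finset Module MPb07157.EX

variable {ι κ : Type} [Fintype ι] [DecidableEq ι] [DecidableEq κ]
variable {c : κ → ι → ℕ} {C : Finset κ} {A : Set (ι → ℚ)} {V V' : Submodule ℚ (ι → ℚ)}
  {T R : Finset ι} {J J' Y Z : Finset κ} {W : Finset ι} {w₀ : ι} {t : ι → ℚ}

/-- A system of dimension one has a rigid deficit: `Q0` fails: `Pre.dfc_single`; otherwise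
`line_mat` and `mat_rigid`. -/
theorem exists_one (hS : Sys c C C A V T) (h1 : finrank ℚ V = 1) :
    ∃ J, Dfc c C V T J ∧ Rigid c C T J := by
  by_cases hq : Q0 c C C A T
  · obtain ⟨Y, hY, hu⟩ := line_mat hS h1 hq
    obtain ⟨hm, hr⟩ := mat_rigid (Pre.of_sys hS) h1 hY hu
    exact ⟨Y, hm.dfc, hr⟩
  · unfold Q0 at hq
    push Not at hq
    obtain ⟨w, -, k, hk⟩ := hq
    exact ⟨{k}, (Pre.of_sys hS).dfc_single hk⟩

/-- A system of dimension zero has a rigid deficit: `hS.pn` with `S = ∅` and `Pre.dfc_single`. -/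
theorem exists_zero (hS : Sys c C C A V T) (h1 : finrank ℚ V = 0) :
    ∃ J, Dfc c C V T J ∧ Rigid c C T J := by
  have hV : V = ⊥ := Submodule.finrank_eq_zero.1 h1
  obtain ⟨p, hp⟩ := hS.ne
  obtain ⟨w, k, hk⟩ := hS.pn ∅
    ⟨⟨0, V.zero_mem, fun f hf => absurd hf (Finset.notMem_empty f)⟩,
      ⟨p, hp, fun f hf => absurd hf (Finset.notMem_empty f)⟩⟩
    (fun ξ hξ _ => by
      rw [hV] at hξ
      exact (Submodule.mem_bot ℚ).1 hξ)
  rw [Finset.union_empty] at hk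
  exact ⟨{k}, (Pre.of_sys hS).dfc_single hk⟩

end MPb07157.SK
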