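import Pool.Agent.Lib.MP_b07157_ag.SK.P0

/-!
# The statement of the theorem
-/

set_option linter.unusedSectionVars false

namespace MPb07157.SK

open Finset Module MPb07157.EX

/-- The statement of the theorem in dimension `n`. -/
def TT (ι : Type) [Fintype ι] [DecidableEq ι] (n : ℕ) : Prop :=
  ∀ (κ : Type) [DecidableEq κ] (c : κ → ι → ℕ) (C : Finset κ) (A : Set (ι → ℚ))
    (V : Submodule ℚ (ι → ℚ)) (T : Finset ι), Sys c C C A V T → finrank ℚ V = n →
      ∃ J, Dfc c C V T J ∧ Rigid c C T J

end MPb07157.SK
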