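import Pool.Agent.Lib.MP_b07157_ag.SK.P0

/-!
# Second active line
-/

set_option linter.unusedSectionVars false

namespace MPb07157.SK

open Finset Module MPb07157.EX

variable {ι κ : Type} [Fintype ι] [DecidableEq ι] [DecidableEq κ]
variable {c : κ → ι → ℕ} {C : Finset κ} {A : Set (ι → ℚ)} {V V' : Submodule ℚ (ι → ℚ)}
  {T R : Finset ι} {J J' Y Z : Finset κ} {W : Finset ι} {w₀ : ι} {t : ι → ℚ}

/-- 5(b), first part: if a column of the matching meets `R` there is a second active line `Q` that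
is disjoint from `R`.

Proof. `line_iso` (for `hS.cut`) gives `S'` with `T ∪ R ∪ S'` having only the single `k`.
`S = R ∪ S'` is acyclic (`Acy.union`; `S'` is positive on some direction of the flat of `R` and
vanishes at a point of it) and a state (a direction of `cutV V R` vanishing on an element of `S'`
is zero, `line_gen`).  Take `b ∈ R` with `c k b ≠ 0`, and by `edge_fact` `Q ⊆ S`, `b ∉ Q`, `η`
positive on `S \ Q`, `dim (cutV V Q) = 1`.  `Q` is disjoint from `R`: `f ∈ R ∩ Q` has `η f = 0`, so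
`η b = 0` by `R1.prop` (`R` is `R1` because `dim V = 2`), but `b ∈ S \ Q`.  `Q0` for `Q`: otherwise
`U (T ∪ Q) w = {k'}` with `x w = 1` on the flat of `Q`; by `Pre.U_eq` `U (T ∪ S) w = {k'}`, and
`w ∉ T ∪ S` (elements of `S` vanish at the point of the flat of `S`, which is in the flat of `Q`),
so `k' = k`; but `c k b ≠ 0` and `b ∉ T ∪ Q`, `b ≠ w`. -/
theorem second_active (hS : Sys c C C A V T) (h2 : finrank ℚ V = 2) (hR : Act c C A V T R)
    (hY : Mat c C (T ∪ R) (NCs (cutV V R)) Y) {k : κ} (hk : k ∈ Y) {b : ι} (hb : b ∈ R)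
    (hkb : c k b ≠ 0) :
    ∃ Q, Act c C A V T Q ∧ ∃ η ∈ cutV V Q, η b ≠ 0 := by
  have hP := Pre.of_sys hS
  obtain ⟨x, hx, ξ, hξ, S', hne, hS', hown⟩ := line_iso (hS.cut hR.acy) hR.one hR.q0 hY hk
  obtain ⟨e₀, he₀⟩ := hne
  have hSac : Acy A V (R ∪ S') :=
    hR.acy.union ⟨⟨ξ, hξ, fun f hf => (hS' f hf).2⟩, ⟨x, hx, fun f hf => (hS' f hf).1⟩⟩
  have hfull : ∀ ζ ∈ V, (∀ f ∈ R ∪ S', ζ f = 0) → ζ = 0 := by
    intro ζ hζ h0
    have hζ' : ζ ∈ cutV V R := ⟨hζ, fun f hf => h0 f (Finset.mem_union_left _ hf)⟩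
    have hξ0 : ξ ≠ 0 := by
      intro h
      have h3 := (hS' e₀ he₀).2
      rw [h, Pi.zero_apply] at h3
      exact lt_irrefl _ h3
    obtain ⟨-, h4⟩ := line_gen hR.one hξ hξ0
    obtain ⟨r, hr⟩ := h4 ζ hζ'
    have h5 := h0 e₀ (Finset.mem_union_right _ he₀)
    rw [hr, Pi.smul_apply, smul_eq_mul] at h5
    have h6 : r = 0 := (mul_eq_zero.1 h5).resolve_right (hS' e₀ he₀).2.ne'
    rw [hr, h6, zero_smul]
  have hbot : finrank ℚ (cutV V (R ∪ S')) = 0 := by
    have h3 : cutV V (R ∪ S') = ⊥ := by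
      rw [eq_bot_iff]
      intro ζ hζ
      rw [Submodule.mem_bot]
      exact hfull ζ hζ.1 hζ.2
    rw [h3, finrank_bot]
  have hbS : b ∈ R ∪ S' := Finset.mem_union_left _ hb
  obtain ⟨Q, hQS, hbQ, ⟨η, hη, hηpos⟩, hdim⟩ := edge_fact hSac hbS
  rw [hbot, zero_add] at hdim
  have hQac : Acy A V Q := hSac.mono hQS
  refine ⟨Q, ⟨hQac, hdim, ?_⟩, η, hη, (hηpos b hbS hbQ).ne'⟩
  intro w hw k' hk'
  obtain ⟨p, hpA, hp⟩ := hSac.ne
  have hU := hP.U_eq hQac.ne hQS ⟨η, hη, hηpos⟩ hw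
  have hwS : w ∉ R ∪ S' := by
    intro h
    have h3 := hw p ⟨hpA, fun f hf => hp f (hQS hf)⟩
    rw [hp w h] at h3
    exact zero_ne_one h3
  have hwT : w ∉ T := fun h => hk'.1 (Finset.mem_union_left _ h)
  have hown' : Own c C C (T ∪ R ∪ S') w k' := by
    rw [Finset.union_assoc]
    refine ⟨fun h => (Finset.mem_union.1 h).elim hwT hwS, ?_, hk'.2.2⟩
    rw [hU]
    exact hk'.2.1
  have hkk : k' = k := hown w k' hown'
  have hmem := hk'.mem
  rw [hkk, mem_U] at hmem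
  rcases hmem.2.2 b hkb with h | h
  · rcases Finset.mem_union.1 h with h | h
    · exact Finset.disjoint_left.1 (hP.acy_disj hSac) hbS h
    · exact hbQ h
  · rw [h] at hbS
    exact hwS hbS

end MPb07157.SK
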