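import Pool.Agent.Lib.MP_b07157_ag.SK.P0

/-!
# Sum of the slopes in the plane
-/

set_option linter.unusedSectionVars false

namespace MPb07157.SK

open Finset Module MPb07157.EX

variable {ι κ : Type} [Fintype ι] [DecidableEq ι] [DecidableEq κ]
variable {c : κ → ι → ℕ} {C : Finset κ} {A : Set (ι → ℚ)} {V V' : Submodule ℚ (ι → ℚ)}
  {T R : Finset ι} {J J' Y Z : Finset κ} {W : Finset ι} {w₀ : ι} {t : ι → ℚ}

/-- 5(b), second part: the sum of all coordinates is constant in the plane: it is constant along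
`cutV V R` and `cutV V Q`, and these two lines span `V` (`η b ≠ 0` for `η ∈ cutV V Q`, and
`ξ b = 0` on `cutV V R`). -/
theorem plane_sum (hS : Sys c C C A V T) (h2 : finrank ℚ V = 2) (hR : Act c C A V T R)
    {Q : Finset ι} (hQ : Act c C A V T Q) {b : ι} (hb : b ∈ R)
    (hη : ∃ η ∈ cutV V Q, η b ≠ 0) : ∀ ξ ∈ V, ∑ e, ξ e = 0 := by
  obtain ⟨η, hη, hηb⟩ := hη
  let s : (ι → ℚ) →ₗ[ℚ] ℚ :=
    { toFun := fun ξ => ∑ e, ξ e
      map_add' := fun x y => by simp only [Pi.add_apply, Finset.sum_add_distrib]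
      map_smul' := fun r x => by
        simp only [Pi.smul_apply, smul_eq_mul, RingHom.id_apply, Finset.mul_sum] }
  have hle : cutV V R ⊔ cutV V Q ≤ V := by
    refine sup_le ?_ ?_
    · exact fun ξ hξ => (mem_cutV.1 hξ).1
    · exact fun ξ hξ => (mem_cutV.1 hξ).1
  have hker : cutV V R ⊔ cutV V Q ≤ LinearMap.ker s := by
    refine sup_le ?_ ?_
    · intro ξ hξ
      exact LinearMap.mem_ker.2 (Act.sum hS hR ξ hξ)
    · intro ξ hξ
      exact LinearMap.mem_ker.2 (Act.sum hS hQ ξ hξ)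
  have hlt : cutV V R < cutV V R ⊔ cutV V Q := by
    refine lt_of_le_of_ne le_sup_left fun h => hηb ?_
    have h3 : η ∈ cutV V R := by
      rw [h]
      exact Submodule.mem_sup_right hη
    exact (mem_cutV.1 h3).2 b hb
  have hfr : finrank ℚ (cutV V R) < finrank ℚ (cutV V R ⊔ cutV V Q : Submodule ℚ (ι → ℚ)) :=
    Submodule.finrank_lt_finrank_of_lt hlt
  rw [hR.one] at hfr
  have heq : cutV V R ⊔ cutV V Q = V :=
    Submodule.eq_of_le_of_finrank_le hle (by rw [h2]; omega)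
  intro ξ hξ
  rw [← heq] at hξ
  exact LinearMap.mem_ker.1 (hker hξ)

end MPb07157.SK
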