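import Pool.Agent.Lib.MP_b07157_ag.SK.S1

/-!
# The shrunk system is a system
-/

set_option linter.unusedSectionVars false

namespace MPb07157.SK

open Finset Module MPb07157.EX

variable {ι κ : Type} [Fintype ι] [DecidableEq ι] [DecidableEq κ]
variable {c : κ → ι → ℕ} {C : Finset κ} {A : Set (ι → ℚ)} {V V' : Submodule ℚ (ι → ℚ)}
  {T R : Finset ι} {J J' Y Z : Finset κ} {W : Finset ι} {w₀ : ι} {t : ι → ℚ}

/-- The shrunk system is a system.

Proof. `aff`: `phiA y - phiA x = phiL (y - x)`.  `zero`: `T` is disjoint from `W`, `phiA_out`.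
`col` for `inl k`: `∑ e, cb (inl k) e * phiA x e = ∑_{e ∉ W} c k e x e = ∑ e, c k e x e = 1`.
`col` for `inr Y`: `phiA x w₀ + ∑_{e ∉ W} ∑_{k ∈ Y} c k e x e`, and
`∑_{k ∈ Y} ∑ e, c k e x e = |Y| = |W| / 2` (`JJ.card`), `∑_{k ∈ Y} ∑_{e ∈ W} c k e x e = ∑_W x e`
(`JJ.one`). -/
theorem Pre.shrink (hP : Pre c C A V T) (hW : Circ V t W w₀) :
    Pre (cb c W w₀) (Cb c C W) (Ab W w₀ A) (Vb W w₀ V) T := by
  have hlin : ∀ x y : ι → ℚ, phiA W w₀ y - phiA W w₀ x = phiL W w₀ (y - x) := by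
    intro x y
    funext e
    simp only [phiA, Pi.sub_apply, map_sub]
    ring
  refine ⟨hP.ne.image _, ?_, ?_, ?_⟩
  · rintro _ ⟨x, hx, rfl⟩ y
    constructor
    · rintro ⟨z, hz, rfl⟩
      rw [hlin]
      exact Submodule.mem_map_of_mem ((hP.aff x hx z).1 hz)
    · rintro ⟨ξ, hξ, hy⟩
      refine ⟨x + ξ, hP.add_mem hx hξ, ?_⟩
      have h1 := hlin x (x + ξ)
      rw [add_sub_cancel_left, hy] at h1
      exact sub_left_injective h1
  · rintro _ ⟨x, hx, rfl⟩ f hf
    have hfW : f ∉ W := fun h => Finset.disjoint_left.1 (Circ.disj hP hW) h hf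
    rw [phiA_out hW.w0 x hfW]
    exact hP.zero x hx f hf
  · rintro k hk _ ⟨x, hx, rfl⟩
    rcases k with k | Y
    · obtain ⟨hkC, hk0⟩ := mem_Cb_inl.1 hk
      rw [← hP.col k hkC x hx]
      refine Finset.sum_congr rfl fun e _ => ?_
      simp only [cb]
      split_ifs with h1
      · rw [hk0 e h1]
        simp
      · rw [phiA_out hW.w0 x h1]
    · have hY : JJ c C W Y := mem_Cb_inr.1 hk
      have hsplit : ∀ g : ι → ℚ, ∑ e, g e = ∑ e ∈ W, g e + ∑ e ∈ Wᶜ, g e := fun g =>
        (Finset.sum_add_sum_compl W g).symm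
      have hcard : (W.card : ℚ) = 2 * (Y.card : ℚ) := by
        exact_mod_cast hY.card
      have hsum : ∑ e, (∑ k ∈ Y, (c k e : ℚ)) * x e = (Y.card : ℚ) := by
        simp only [Finset.sum_mul]
        rw [Finset.sum_comm, Finset.sum_congr rfl fun k hk => hP.col k (hY.sub hk) x hx]
        simp
      rw [hsplit] at hsum ⊢
      have e1 : ∑ e ∈ W, (∑ k ∈ Y, (c k e : ℚ)) * x e = ∑ e ∈ W, x e := by
        refine Finset.sum_congr rfl fun e he => ?_
        have h1 : (∑ k ∈ Y, (c k e : ℚ)) = 1 := by exact_mod_cast hY.one e he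
        rw [h1, one_mul]
      have e2 : ∑ e ∈ W, ((cb c W w₀ (Sum.inr Y) e : ℕ) : ℚ) * phiA W w₀ x e =
          ∑ e ∈ W, x e - ((W.card : ℚ) / 2 - 1) := by
        rw [Finset.sum_eq_single w₀]
        · simp only [cb, if_true, phiA, phiL_apply]
          push_cast
          ring
        · intro b hb hne
          simp only [cb, if_neg hne, if_pos hb]
          simp
        · intro h
          exact absurd hW.w0 h
      have e3 : ∑ e ∈ Wᶜ, ((cb c W w₀ (Sum.inr Y) e : ℕ) : ℚ) * phiA W w₀ x e =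
          ∑ e ∈ Wᶜ, (∑ k ∈ Y, (c k e : ℚ)) * x e := by
        refine Finset.sum_congr rfl fun e he => ?_
        have heW := Finset.mem_compl.1 he
        have hne : e ≠ w₀ := fun h => heW (h ▸ hW.w0)
        rw [phiA_out hW.w0 x heW]
        simp only [cb, if_neg hne, if_neg heW]
        push_cast
        ring
      rw [e1] at hsum
      rw [e2, e3]
      linarith

end MPb07157.SK
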