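import Pool.Agent.Lib.MP_b07157_ag.SK.B1

/-!
# States of flats and constant owners
-/

set_option linter.unusedSectionVars false

namespace MPb07157.SK

open Finset Module MPb07157.EX

variable {ι κ : Type} [Fintype ι] [DecidableEq ι] [DecidableEq κ]
variable {c : κ → ι → ℕ} {C : Finset κ} {A : Set (ι → ℚ)} {V V' : Submodule ℚ (ι → ℚ)}
  {T R : Finset ι} {J J' Y Z : Finset κ} {W : Finset ι} {w₀ : ι} {t : ι → ℚ}

/-- A sufficient criterion for states of a flat: `Q` and `S` acyclic, `Q ⊆ S`, some direction of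
the flat of `Q` is positive on `S \ Q`, `S` a state: then `S \ Q` is a state of the flat. -/
theorem St.cut {Q S : Finset ι} (hS : St A V S) (hQ : Q ⊆ S)
    (hη : ∃ η ∈ cutV V Q, ∀ f ∈ S, f ∉ Q → 0 < η f) :
    St (cutA A Q) (cutV V Q) (S \ Q) := by
  obtain ⟨η, hηV, hηp⟩ := hη
  obtain ⟨p, hpA, hp⟩ := hS.acy.ne
  refine ⟨⟨⟨η, hηV, ?_⟩, ⟨p, ⟨hpA, fun f hf => hp f (hQ hf)⟩, ?_⟩⟩, ?_⟩
  · intro f hf
    rw [Finset.mem_sdiff] at hf
    exact hηp f hf.1 hf.2
  · intro f hf
    rw [Finset.mem_sdiff] at hf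
    exact hp f hf.1
  · intro ξ hξ h0
    apply hS.pt ξ hξ.1
    intro f hf
    by_cases hfQ : f ∈ Q
    · exact hξ.2 f hfQ
    · exact h0 f (Finset.mem_sdiff.2 ⟨hf, hfQ⟩)

/-- FACT (O).  Let `Q ⊆ S` and let `η` be a direction of the flat of `Q`, positive on `S \ Q`.
If `x w = 1` on the flat of `Q` then `U` does not change.  Proof: for `k ∈ U (T ∪ S) w` the unit
equation on the flat of `Q` gives (linear part at `η`) `∑_{f ∈ S \ Q} c k f η f + η w = 0`, and
`η w = 0` (because `w` is constant on the flat), so `c k f = 0` for `f ∈ S \ Q`.  (The flat of `Q`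
is not empty.) -/
theorem Pre.U_eq (h : Pre c C A V T) {Q S : Finset ι} (hne : ∃ p ∈ A, ∀ f ∈ Q, p f = 0)
    (hQ : Q ⊆ S) (hη : ∃ η ∈ cutV V Q, ∀ f ∈ S, f ∉ Q → 0 < η f) {w : ι}
    (hw : ∀ x ∈ cutA A Q, x w = 1) : U c C (T ∪ S) w = U c C (T ∪ Q) w := by
  obtain ⟨η, hηV, hηp⟩ := hη
  obtain ⟨p, hpA, hp⟩ := hne
  have hηw : η w = 0 := by
    have h1 := hw p ⟨hpA, hp⟩
    have h2 : p + η ∈ cutA A Q := by
      refine ⟨h.add_mem hpA hηV.1, ?_⟩
      intro f hf
      rw [Pi.add_apply, hp f hf, hηV.2 f hf, add_zero]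
    have h3 := hw _ h2
    rw [Pi.add_apply, h1] at h3
    linarith
  ext k
  unfold U
  rw [Finset.mem_filter, Finset.mem_filter]
  constructor
  · rintro ⟨hk, hkw, hke⟩
    refine ⟨hk, hkw, ?_⟩
    have hsum := h.colV hk hηV.1
    have hnn : ∀ e ∈ (Finset.univ : Finset ι), 0 ≤ (c k e : ℚ) * η e := by
      intro e _
      by_cases hce : c k e = 0
      · rw [hce, Nat.cast_zero, zero_mul]
      · rcases hke e hce with h1 | h1
        · rw [Finset.mem_union] at h1
          rcases h1 with h1 | h1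
          · rw [h.vT hηV.1 h1, mul_zero]
          · by_cases hQe : e ∈ Q
            · rw [hηV.2 e hQe, mul_zero]
            · exact mul_nonneg (Nat.cast_nonneg _) (hηp e h1 hQe).le
        · rw [h1, hηw, mul_zero]
    have hz := (Finset.sum_eq_zero_iff_of_nonneg hnn).1 hsum
    intro e hce
    rcases hke e hce with h1 | h1
    · rw [Finset.mem_union] at h1
      rcases h1 with h1 | h1
      · exact Or.inl (Finset.mem_union_left _ h1)
      · by_cases hQe : e ∈ Q
        · exact Or.inl (Finset.mem_union_right _ hQe)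
        · exfalso
          rcases mul_eq_zero.1 (hz e (Finset.mem_univ e)) with h2 | h2
          · exact hce (Nat.cast_eq_zero.1 h2)
          · exact (hηp e h1 hQe).ne' h2
    · exact Or.inr h1
  · rintro ⟨hk, hkw, hke⟩
    refine ⟨hk, hkw, ?_⟩
    intro e hce
    rcases hke e hce with h1 | h1
    · exact Or.inl (Finset.union_subset_union_right hQ h1)
    · exact Or.inr h1

/-- If some column is in `U S w` then `x w = 1` on the flat. -/
theorem Pre.U_one (h : Pre c C A V T) {S : Finset ι} {w : ι} {k : κ} (hk : k ∈ U c C (T ∪ S) w)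
    {x : ι → ℚ} (hx : x ∈ cutA A S) : x w = 1 := by
  unfold U at hk
  rw [Finset.mem_filter] at hk
  obtain ⟨hkC, hkw, hke⟩ := hk
  have h1 := h.col k hkC x hx.1
  have h2 : ∑ e, (c k e : ℚ) * x e = (c k w : ℚ) * x w := by
    apply Finset.sum_eq_single w
    · intro e _ hew
      by_cases hce : c k e = 0
      · rw [hce, Nat.cast_zero, zero_mul]
      · rcases hke e hce with h3 | h3
        · rw [Finset.mem_union] at h3
          rcases h3 with h3 | h3
          · rw [h.zero x hx.1 e h3, mul_zero]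
          · rw [hx.2 e h3, mul_zero]
        · exact absurd h3 hew
    · intro h3
      exact absurd (Finset.mem_univ w) h3
  rw [h2, hkw, Nat.cast_one, one_mul] at h1
  exact h1

end MPb07157.SK
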