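import Pool.Agent.Lib.MP_b07157_ag.SK.S1

/-!
# Owners in the shrunk system
-/

set_option linter.unusedSectionVars false

namespace MPb07157.SK

open Finset Module MPb07157.EX

variable {ι κ : Type} [Fintype ι] [DecidableEq ι] [DecidableEq κ]
variable {c : κ → ι → ℕ} {C : Finset κ} {A : Set (ι → ℚ)} {V V' : Submodule ℚ (ι → ℚ)}
  {T R : Finset ι} {J J' Y Z : Finset κ} {W : Finset ι} {w₀ : ι} {t : ι → ℚ}

/-- `U` of the shrunk system at elements outside `W`, for sets without elements of `W`. -/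
theorem U_out (hw : w₀ ∈ W) {S : Finset ι} (hSW : Disjoint S W) {w : ι} (hwW : w ∉ W)
    (k' : κ ⊕ Finset κ) :
    k' ∈ U (cb c W w₀) (Cb c C W) S w ↔ ∃ k ∈ U c C S w, k' = Sum.inl k := by
  rw [U, mem_filter]
  rcases k' with k | Y
  · rw [mem_Cb_inl]
    have h1 : ∀ e, cb c W w₀ (Sum.inl k) e = if e ∈ W then 0 else c k e := fun e => rfl
    constructor
    · rintro ⟨⟨hk, hvan⟩, h2, h3⟩
      rw [h1, if_neg hwW] at h2
      refine ⟨k, ?_, rfl⟩
      rw [U, mem_filter]
      refine ⟨hk, h2, fun e he => ?_⟩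
      by_cases heW : e ∈ W
      · exact absurd (hvan e heW) he
      · refine h3 e ?_
        rw [h1, if_neg heW]
        exact he
    · rintro ⟨k₁, hk₁, hk⟩
      obtain rfl : k = k₁ := Sum.inl.inj hk
      rw [U, mem_filter] at hk₁
      obtain ⟨hk, h2, h3⟩ := hk₁
      refine ⟨⟨hk, fun e he => ?_⟩, ?_, fun e he => ?_⟩
      · by_contra h4
        rcases h3 e h4 with h5 | h5
        · exact (Finset.disjoint_left.1 hSW h5) he
        · exact hwW (h5 ▸ he)
      · rw [h1, if_neg hwW]
        exact h2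
      · refine h3 e fun h4 => he ?_
        rw [h1, h4, ite_self]
  · constructor
    · rintro ⟨-, -, h3⟩
      have h4 : cb c W w₀ (Sum.inr Y) w₀ ≠ 0 := by
        change (if w₀ = w₀ then 1 else if w₀ ∈ W then 0 else ∑ k ∈ Y, c k w₀) ≠ 0
        rw [if_pos rfl]
        exact one_ne_zero
      rcases h3 w₀ h4 with h5 | h5
      · exact absurd hw (Finset.disjoint_left.1 hSW h5)
      · exact absurd (h5 ▸ hw) hwW
    · rintro ⟨k₁, -, hk⟩
      exact absurd hk (by simp)

/-- `U` of the shrunk system at `w₀`: perfect matchings of `W`. -/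
theorem U_w0 (hw : w₀ ∈ W) {S : Finset ι} (hSW : Disjoint S W) (k' : κ ⊕ Finset κ) :
    k' ∈ U (cb c W w₀) (Cb c C W) S w₀ ↔ ∃ Y, Mat c C S W Y ∧ k' = Sum.inr Y := by
  rw [U, mem_filter]
  rcases k' with k | Y
  · constructor
    · rintro ⟨-, h2, -⟩
      have h1 : cb c W w₀ (Sum.inl k) w₀ = 0 := by
        change (if w₀ ∈ W then 0 else c k w₀) = 0
        rw [if_pos hw]
      rw [h1] at h2
      exact absurd h2 (by norm_num)
    · rintro ⟨Y, -, hY⟩
      exact absurd hY (by simp)
  · rw [mem_Cb_inr]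
    have h1 : ∀ e, cb c W w₀ (Sum.inr Y) e =
        if e = w₀ then 1 else if e ∈ W then 0 else ∑ k ∈ Y, c k e := fun e => rfl
    constructor
    · rintro ⟨hJ, -, h3⟩
      refine ⟨Y, ⟨hJ, fun k hk e he => ?_⟩, rfl⟩
      by_cases heW : e ∈ W
      · exact Or.inr heW
      · have hew : e ≠ w₀ := fun h => heW (h ▸ hw)
        have h4 : cb c W w₀ (Sum.inr Y) e ≠ 0 := by
          rw [h1, if_neg hew, if_neg heW]
          intro h5
          exact he ((Finset.sum_eq_zero_iff.1 h5) k hk)
        rcases h3 e h4 with h5 | h5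
        · exact Or.inl h5
        · exact absurd h5 hew
    · rintro ⟨Y₁, hM, hY⟩
      obtain rfl : Y = Y₁ := Sum.inr.inj hY
      refine ⟨hM.jj, ?_, fun e he => ?_⟩
      · rw [h1, if_pos rfl]
      · by_cases hew : e = w₀
        · exact Or.inr hew
        · by_cases heW : e ∈ W
          · rw [h1, if_neg hew, if_pos heW] at he
            exact absurd rfl he
          · rw [h1, if_neg hew, if_neg heW] at he
            obtain ⟨k, hk, hke⟩ := Finset.exists_ne_zero_of_sum_ne_zero he
            rcases hM.supp k hk e hke with h5 | h5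
            · exact Or.inl h5
            · exact absurd h5 heW

end MPb07157.SK
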