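import Pool.Agent.Lib.MP_b07157_ag.SK.S3
import Pool.Agent.Lib.MP_b07157_ag.SK.S5
import Pool.Agent.Lib.MP_b07157_ag.SK.B2

section

/-!
# States of the shrunk system
-/

set_option linter.unusedSectionVars false

namespace MPb07157.SK

open Finset Module MPb07157.EX

variable {ι κ : Type} [Fintype ι] [DecidableEq ι] [DecidableEq κ]
variable {c : κ → ι → ℕ} {C : Finset κ} {A : Set (ι → ℚ)} {V V' : Submodule ℚ (ι → ℚ)}
  {T R : Finset ι} {J J' Y Z : Finset κ} {W : Finset ι} {w₀ : ι} {t : ι → ℚ}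

/-- Acyclic sets of the shrunk system that do not contain `w₀` are disjoint from `W`, acyclic in
the original system. -/
theorem acy_of_shrink (hw : w₀ ∈ W) {S : Finset ι} (hS : Acy (Ab W w₀ A) (Vb W w₀ V) S)
    (h0 : w₀ ∉ S) : Disjoint S W ∧ Acy A V S := by
  obtain ⟨ξ', ⟨ξ, hξ, rfl⟩, hpos⟩ := hS.pos
  obtain ⟨p', ⟨p, hp, rfl⟩, hz⟩ := hS.ne
  have hd : ∀ f ∈ S, f ∉ W := by
    intro f hf hfW
    have h1 := hpos f hf
    rw [phiL_apply, if_neg (fun h : f = w₀ => h0 (h ▸ hf)), if_pos hfW] at h1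
    exact lt_irrefl _ h1
  refine ⟨Finset.disjoint_left.2 hd, ⟨ξ, hξ, fun f hf => ?_⟩, ⟨p, hp, fun f hf => ?_⟩⟩
  · have h1 := hpos f hf
    rwa [phiL_out hw ξ (hd f hf)] at h1
  · have h1 := hz f hf
    rwa [phiA_out hw p (hd f hf)] at h1

/-- Conversely, acyclic sets of the original system disjoint from `W` are acyclic in the shrunk
system. -/
theorem acy_shrink (hw : w₀ ∈ W) {S : Finset ι} (hS : Acy A V S) (hSW : Disjoint S W) :
    Acy (Ab W w₀ A) (Vb W w₀ V) S := by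
  obtain ⟨ξ, hξ, hpos⟩ := hS.pos
  obtain ⟨p, hp, hz⟩ := hS.ne
  have hd : ∀ f ∈ S, f ∉ W := fun f hf => Finset.disjoint_left.1 hSW hf
  refine ⟨⟨phiL W w₀ ξ, ⟨ξ, hξ, rfl⟩, fun f hf => ?_⟩, ⟨phiA W w₀ p, ⟨p, hp, rfl⟩, fun f hf => ?_⟩⟩
  · rw [phiL_out hw ξ (hd f hf)]
    exact hpos f hf
  · rw [phiA_out hw p (hd f hf)]
    exact hz f hf

private theorem s4_t (hW : Circ V t W w₀) {S : Finset ι} (hSW : Disjoint S W) :
    t ∈ cutV V S ∧ t ≠ 0 := by
  refine ⟨⟨hW.tV, fun f hf => ?_⟩, fun h => ?_⟩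
  · by_contra h
    exact Finset.disjoint_left.1 hSW hf ((hW.tW f).1 h)
  · have h1 := (hW.tW w₀).2 hW.w0
    rw [h] at h1
    exact h1 rfl

/-- A state of the shrunk system without `w₀` is a line of direction `t` in the original system. -/
theorem st_of_shrink (hW : Circ V t W w₀) {S : Finset ι} (hS : St (Ab W w₀ A) (Vb W w₀ V) S)
    (h0 : w₀ ∉ S) : Disjoint S W ∧ Acy A V S ∧ finrank ℚ (cutV V S) = 1 ∧ NCs (cutV V S) = W := by
  obtain ⟨hSW, hA⟩ := acy_of_shrink hW.w0 hS.acy h0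
  have hd : ∀ f ∈ S, f ∉ W := fun f hf => Finset.disjoint_left.1 hSW hf
  obtain ⟨ht, ht0⟩ := s4_t hW hSW
  have hall : ∀ ξ ∈ cutV V S, ∃ r : ℚ, ξ = r • t := by
    intro ξ hξ
    refine (hW.ker hξ.1).1 (hS.pt _ ⟨ξ, hξ.1, rfl⟩ fun f hf => ?_)
    rw [phiL_out hW.w0 ξ (hd f hf)]
    exact hξ.2 f hf
  refine ⟨hSW, hA, ?_, ?_⟩
  · rw [finrank_eq_one_iff']
    refine ⟨⟨t, ht⟩, fun h => ht0 (congrArg Subtype.val h), ?_⟩
    rintro ⟨ξ, hξ⟩
    obtain ⟨r, hr⟩ := hall ξ hξ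
    exact ⟨r, Subtype.ext hr.symm⟩
  · ext e
    have hm : e ∈ NCs (cutV V S) ↔ NC (cutV V S) e := by
      unfold NCs
      simp
    rw [hm, ← hW.tW e]
    constructor
    · rintro ⟨ξ, hξ, h1⟩ h2
      obtain ⟨r, rfl⟩ := hall ξ hξ
      exact h1 (by rw [Pi.smul_apply, h2, smul_zero])
    · intro h
      exact ⟨t, ht, h⟩

/-- Conversely. -/
theorem st_shrink (hW : Circ V t W w₀) {S : Finset ι} (hS : Acy A V S) (hSW : Disjoint S W)
    (h1 : finrank ℚ (cutV V S) = 1) : St (Ab W w₀ A) (Vb W w₀ V) S := by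
  have hd : ∀ f ∈ S, f ∉ W := fun f hf => Finset.disjoint_left.1 hSW hf
  obtain ⟨ht, ht0⟩ := s4_t hW hSW
  refine ⟨acy_shrink hW.w0 hS hSW, ?_⟩
  rintro ξ' ⟨ξ, hξ, rfl⟩ hz
  have hξS : ξ ∈ cutV V S := by
    refine ⟨hξ, fun f hf => ?_⟩
    have h2 := hz f hf
    rwa [phiL_out hW.w0 ξ (hd f hf)] at h2
  have ht1 : (⟨t, ht⟩ : cutV V S) ≠ 0 := fun h => ht0 (congrArg Subtype.val h)
  obtain ⟨r, hr⟩ := exists_smul_eq_of_finrank_eq_one h1 ht1 ⟨ξ, hξS⟩
  exact (hW.ker hξ).2 ⟨r, (congrArg Subtype.val hr).symm⟩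

end MPb07157.SK
end

section

/-!
# Singles of the shrunk system
-/

set_option linter.unusedSectionVars false

namespace MPb07157.SK

open Finset Module MPb07157.EX

variable {ι κ : Type} [Fintype ι] [DecidableEq ι] [DecidableEq κ]
variable {c : κ → ι → ℕ} {C : Finset κ} {A : Set (ι → ℚ)} {V V' : Submodule ℚ (ι → ℚ)}
  {T R : Finset ι} {J J' Y Z : Finset κ} {W : Finset ι} {w₀ : ι} {t : ι → ℚ}

/-- (4d) States without `w₀` have singles.

Proof.  `R` is an acyclic set, disjoint from `W`, its flat is a line with `NCs (cutV V R) = W`.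
If `Q0` fails for this line there are `w ∉ T ∪ R`, constant one on the line (so `w ∉ W`), and `k`
with `U (T ∪ R) w = {k}`; by `U_out` `inl k` is a single of the shrunk system.  If `Q0` holds,
`line_mat` for `hS.cut` gives a unique `Y` with `Mat c C (T ∪ R) W Y`; by `U_w0` `inr Y` is a
single with owner `w₀`.  (The hypothesis `hline` is the conclusion of `line_mat`.) -/
theorem single_out (hP : Pre c C A V T) (hW : Circ V t W w₀) (hR : Acy A V R)
    (hRW : Disjoint R W) (h1 : NCs (cutV V R) = W)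
    (hline : Q0 c C C (cutA A R) (T ∪ R) →
      ∃ Y, Mat c C (T ∪ R) W Y ∧ ∀ Y', Mat c C (T ∪ R) W Y' → Y' = Y) :
    ∃ w k, Own (cb c W w₀) (Cb c C W) (Cb c C W) (T ∪ R) w k := by
  have hSW : Disjoint (T ∪ R) W :=
    Finset.disjoint_union_left.2 ⟨(hW.disj hP).symm, hRW⟩
  by_cases hq : Q0 c C C (cutA A R) (T ∪ R)
  · obtain ⟨Y, hY, huniq⟩ := hline hq
    refine ⟨w₀, Sum.inr Y, ?_, ?_, mem_Cb_inr.2 hY.jj⟩
    · exact fun h => Finset.disjoint_left.1 hSW h hW.w0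
    · ext k'
      rw [U_w0 hW.w0 hSW k', Finset.mem_singleton]
      constructor
      · rintro ⟨Y', hY', rfl⟩
        rw [huniq Y' hY']
      · rintro rfl
        exact ⟨Y, hY, rfl⟩
  · unfold Q0 at hq
    push Not at hq
    obtain ⟨w, hw1, k, hwS, hU, hkC⟩ := hq
    have hwW : w ∉ W := by
      intro hwW
      rw [← h1] at hwW
      have hwW : w ∈ NCs (cutV V R) := hwW
      obtain ⟨ξ, hξ, hξw⟩ : NC (cutV V R) w := by
        classical
        unfold NCs at hwW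
        simpa using hwW
      obtain ⟨p, hp, hpR⟩ := hR.ne
      have e1 := hw1 p ⟨hp, hpR⟩
      have e2 := hw1 (p + ξ) ⟨hP.add_mem hp hξ.1, fun f hf => by
        rw [Pi.add_apply, hpR f hf, hξ.2 f hf, add_zero]⟩
      rw [Pi.add_apply, e1] at e2
      exact hξw (by linarith)
    have hkU : k ∈ U c C (T ∪ R) w := by rw [hU]; exact Finset.mem_singleton_self k
    have hk0 : ∀ e ∈ W, c k e = 0 := by
      intro e he
      by_contra hne
      rcases (Finset.mem_filter.1 hkU).2.2 e hne with h | h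
      · exact Finset.disjoint_left.1 hSW h he
      · exact hwW (h ▸ he)
    refine ⟨w, Sum.inl k, hwS, ?_, mem_Cb_inl.2 ⟨hkC, hk0⟩⟩
    ext k'
    rw [U_out hW.w0 hSW hwW k', hU, Finset.mem_singleton]
    constructor
    · rintro ⟨k1, hk1, rfl⟩
      rw [Finset.mem_singleton.1 hk1]
    · rintro rfl
      exact ⟨k, Finset.mem_singleton_self k, rfl⟩

/-- (4d), second part.  At an active line the owner of every single of the shrunk system is `w₀`:
if `w ≠ w₀` is an owner, `w ∉ W` (the shrunk columns vanish on `W \ {w₀}`), `U_out` shows that `w`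
is an owner of `T ∪ R` in the original system, and `x w = 1` on its flat (`Pre.U_one`):
contradiction to `Q0`. -/
theorem owner_w0 (hP : Pre c C A V T) (hW : Circ V t W w₀) (hRW : Disjoint R W)
    (hq : Q0 c C C (cutA A R) (T ∪ R)) {w : ι} {k : κ ⊕ Finset κ}
    (hk : Own (cb c W w₀) (Cb c C W) (Cb c C W) (T ∪ R) w k) : w = w₀ ∧ ∃ Y, k = Sum.inr Y := by
  have hSW : Disjoint (T ∪ R) W :=
    Finset.disjoint_union_left.2 ⟨(hW.disj hP).symm, hRW⟩
  obtain ⟨hwS, hU, hkC⟩ := hk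
  have hkU : k ∈ U (cb c W w₀) (Cb c C W) (T ∪ R) w := by
    rw [hU]; exact Finset.mem_singleton_self k
  by_cases hw : w = w₀
  · refine ⟨hw, ?_⟩
    rw [hw] at hkU
    obtain ⟨Y, -, hY⟩ := (U_w0 hW.w0 hSW k).1 hkU
    exact ⟨Y, hY⟩
  · exfalso
    have hwW : w ∉ W := by
      intro hwW
      have h1 := (Finset.mem_filter.1 hkU).2.1
      cases k with
      | inl k =>
        have h2 : cb c W w₀ (Sum.inl k) w = 0 := if_pos hwW
        rw [h2] at h1
        exact zero_ne_one h1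
      | inr Y =>
        have h2 : cb c W w₀ (Sum.inr Y) w = 0 := by
          show (if w = w₀ then 1 else if w ∈ W then 0 else ∑ k ∈ Y, c k w) = 0
          rw [if_neg hw, if_pos hwW]
        rw [h2] at h1
        exact zero_ne_one h1
    obtain ⟨k0, hk0, rfl⟩ := (U_out hW.w0 hSW hwW k).1 hkU
    refine hq w (fun x hx => hP.U_one hk0 hx) k0 ⟨hwS, ?_, (Finset.mem_filter.1 hk0).1⟩
    refine Finset.eq_singleton_iff_unique_mem.2 ⟨hk0, fun k1 hk1 => ?_⟩
    have h3 : (Sum.inl k1 : κ ⊕ Finset κ) ∈ U (cb c W w₀) (Cb c C W) (T ∪ R) w :=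
      (U_out hW.w0 hSW hwW _).2 ⟨k1, hk1, rfl⟩
    rw [hU, Finset.mem_singleton] at h3
    exact Sum.inl.inj h3

end MPb07157.SK
end
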