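import Pool.Agent.Lib.MP_b07157_ag.SK.P0
import Pool.Agent.Lib.MP_b07157_ag.SK.S2
import Pool.Agent.Lib.MP_b07157_ag.SK.S6

/-!
# Singles of the shrunk plane
-/

set_option linter.unusedSectionVars false

namespace MPb07157.SK

open Finset Module MPb07157.EX

variable {ι κ : Type} [Fintype ι] [DecidableEq ι] [DecidableEq κ]
variable {c : κ → ι → ℕ} {C : Finset κ} {A : Set (ι → ℚ)} {V V' : Submodule ℚ (ι → ℚ)}
  {T R : Finset ι} {J J' Y Z : Finset κ} {W : Finset ι} {w₀ : ι} {t : ι → ℚ}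

/-- 5(b), third part, singles.  `R` an active line of the plane with circuit `W`; `ξ` a direction of
the shrunk line with `ξ w₀ ≠ 0`; `S'` a nonempty one-sided set of the shrunk line that does not
contain `w₀`.  Then `T ∪ S'` has a single in the shrunk system that meets `S'`.

Proof.  `S'` is acyclic in the shrunk system, so by `acy_of_shrink` it is disjoint from `W` and
acyclic in the original system; it is a state of the shrunk system (`dim Vb V = 1`, `ξ e ≠ 0` on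
`S'`), so `st_of_shrink`: its flat is a line with `NCs = W`.  `single_out` (`hline`: `line_mat` for
`hS.cut`) gives a single `(w, k)` of `T ∪ S'` in the shrunk system.  Suppose `k` does not meet `S'`.
Then `k` is zero outside `T ∪ {w}`, so `x w = 1` for all `x ∈ Ab A` (unit equation of the shrunk
system, `Pre.shrink`).  If `w = w₀` then `ξ w₀ = 0`: contradiction.  If `w ≠ w₀`: `w ∉ W` (shrunk
columns vanish on `W \ {w₀}`), and by `U_out` `k = inl k'`, `U c C (T ∪ S') w = {k'}`,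
`k' ∈ U c C T w ⊆ U c C (T ∪ S') w`, so `U c C T w = {k'}`, `w ∉ T`, `x w = 1` on `A`
(`Pre.U_one`): contradiction to `hq`. -/
theorem plane_opp (hS : Sys c C C A V T) (h2 : finrank ℚ V = 2) (hq : Q0 c C C A T)
    (hW : Circ V t W w₀) {ξ : ι → ℚ} (hξ : ξ ∈ Vb W w₀ V) (hξ0 : ξ w₀ ≠ 0) {x : ι → ℚ}
    (hx : x ∈ Ab W w₀ A) {S' : Finset ι} (hne : S'.Nonempty) (h0 : w₀ ∉ S')
    (hS' : ∀ e ∈ S', x e = 0 ∧ 0 < ξ e) :
    ∃ w k, Own (cb c W w₀) (Cb c C W) (Cb c C W) (T ∪ S') w k ∧ ∃ v ∈ S', cb c W w₀ k v ≠ 0 := by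
  have hP := Pre.of_sys hS
  have hPb := hP.shrink hW
  have hfr : finrank ℚ (Vb W w₀ V) = 1 := by
    have h3 := hW.finrank_Vb
    omega
  have hξne : ξ ≠ 0 := by
    rintro rfl
    exact hξ0 rfl
  obtain ⟨-, hsp⟩ := line_gen hfr hξ hξne
  obtain ⟨e0, he0⟩ := hne
  have hSt : St (Ab W w₀ A) (Vb W w₀ V) S' := by
    refine ⟨⟨⟨ξ, hξ, fun f hf => (hS' f hf).2⟩, ⟨x, hx, fun f hf => (hS' f hf).1⟩⟩, ?_⟩
    intro η hη h
    obtain ⟨r, rfl⟩ := hsp η hη
    have h4 := h e0 he0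
    rw [Pi.smul_apply, smul_eq_mul] at h4
    rcases mul_eq_zero.1 h4 with h5 | h5
    · rw [h5, zero_smul]
    · exact absurd h5 (hS' e0 he0).2.ne'
  obtain ⟨hSW, hacy, hfin1, hNCs⟩ := st_of_shrink hW hSt h0
  obtain ⟨w, k, hown⟩ := single_out hP hW hacy hSW hNCs fun hq' => by
    have h3 := line_mat (hS.cut hacy) hfin1 hq'
    rw [hNCs] at h3
    exact h3
  by_cases hmeet : ∃ v ∈ S', cb c W w₀ k v ≠ 0
  · exact ⟨w, k, hown, hmeet⟩
  exfalso
  push Not at hmeet
  have hWT : Disjoint T W := (hW.disj hP).symm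
  have hTS : Disjoint (T ∪ S') W := Finset.disjoint_union_left.2 ⟨hWT, hSW⟩
  have hkT : k ∈ U (cb c W w₀) (Cb c C W) T w := by
    have h3 := hown.mem
    rw [mem_U] at h3 ⊢
    refine ⟨h3.1, h3.2.1, fun e he => ?_⟩
    rcases h3.2.2 e he with h4 | h4
    · rcases Finset.mem_union.1 h4 with h5 | h5
      · exact Or.inl h5
      · exact absurd (hmeet e h5) he
    · exact Or.inr h4
  have hone : ∀ y ∈ Ab W w₀ A, y w = 1 := by
    intro y hy
    have h3 : k ∈ U (cb c W w₀) (Cb c C W) (T ∪ ∅) w := by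
      rw [Finset.union_empty]
      exact hkT
    exact hPb.U_one h3 (mem_cutA.2 ⟨hy, fun f hf => absurd hf (Finset.notMem_empty f)⟩)
  have hξw : ξ w = 0 := by
    have h3 := hone _ hx
    have h4 := hone _ (hPb.add_mem hx hξ)
    rw [Pi.add_apply, h3] at h4
    linarith
  have hw : w ≠ w₀ := by
    rintro rfl
    exact hξ0 hξw
  have hwW : w ∉ W := by
    intro hwW
    have h3 := (mem_U.1 hkT).2.1
    cases k with
    | inl k =>
      have h4 : cb c W w₀ (Sum.inl k) w = 0 := if_pos hwW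
      rw [h4] at h3
      exact zero_ne_one h3
    | inr Y =>
      have h4 : cb c W w₀ (Sum.inr Y) w = 0 := by
        show (if w = w₀ then 1 else if w ∈ W then 0 else ∑ k ∈ Y, c k w) = 0
        rw [if_neg hw, if_pos hwW]
      rw [h4] at h3
      exact zero_ne_one h3
  obtain ⟨k0, hk0, rfl⟩ := (U_out hW.w0 hWT hwW k).1 hkT
  refine hq w (fun y hy => ?_) k0 ⟨fun h => hown.1 (Finset.mem_union_left _ h), ?_, (mem_U.1 hk0).1⟩
  · have h3 : k0 ∈ U c C (T ∪ ∅) w := by
      rw [Finset.union_empty]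
      exact hk0
    exact hP.U_one h3 (mem_cutA.2 ⟨hy, fun f hf => absurd hf (Finset.notMem_empty f)⟩)
  · refine Finset.eq_singleton_iff_unique_mem.2 ⟨hk0, fun k1 hk1 => ?_⟩
    have h3 : (Sum.inl k1 : κ ⊕ Finset κ) ∈ U (cb c W w₀) (Cb c C W) (T ∪ S') w :=
      (U_out hW.w0 hTS hwW _).2 ⟨k1, U_mono Finset.subset_union_left w hk1, rfl⟩
    rw [hown.2.1, Finset.mem_singleton] at h3
    exact Sum.inl.inj h3

end MPb07157.SK
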