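import Pool.Agent.Lib.MP_b07157_ag.SK.Br
import Pool.Agent.Lib.MP_b07157_ag.SK.B2
import Pool.Agent.Lib.MP_b07157_ag.SK.B4

/-!
# Weak duality for rigid deficits
-/

set_option linter.unusedSectionVars false

namespace MPb07157.SK

open Finset Module MPb07157.EX

variable {ι κ : Type} [Fintype ι] [DecidableEq ι] [DecidableEq κ]
variable {c : κ → ι → ℕ} {C : Finset κ} {A : Set (ι → ℚ)} {V V' : Submodule ℚ (ι → ℚ)}
  {T R : Finset ι} {J J' Y Z : Finset κ} {W : Finset ι} {w₀ : ι} {t : ι → ℚ}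

/-- WEAK DUALITY.  A rigid deficit has a single in every state (`EX.wd` for the columns that are
made zero on `T`). -/
theorem weak_duality (hP : Pre c C A V T) (hJ : Dfc c C V T J) (hR : Rigid c C T J)
    {S : Finset ι} (hS : St A V S) : ∃ w, ∃ k ∈ J, Own c C C (T ∪ S) w k := by
  obtain ⟨ξ, hξV, hξ⟩ := hS.acy.pos
  obtain ⟨p, hpA, hp⟩ := hS.acy.ne
  obtain ⟨k, hk, w, hw⟩ := EX.wd (c := cz c T) (N := C) (V := V) (p := p) (ξ := ξ) (S := S)
    (J := J) (fun k hk => by rw [cz_sum (hP.zero p hpA)]; exact hP.col k hk p hpA)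
    (fun k hk ξ hξ => by rw [cz_sum (fun f hf => hP.vT hξ hf)]; exact hP.colV hk hξ) hp hξV hξ
    hS.pt hJ.fam.sub (cz_zo hJ.fam) (cz_dj hJ.fam) (by rw [cz_PU]; exact hJ.num)
    (cz_rig hJ.fam hR)
  exact ⟨w, k, hk, cz_own hw⟩

end MPb07157.SK
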