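import Pool.Agent.Lib.MP_b07157_ag.SK.X2

/-!
# Transfer: rigidity, first case
-/

set_option linter.unusedSectionVars false

namespace MPb07157.SK

open Finset Module MPb07157.EX

variable {ι κ : Type} [Fintype ι] [DecidableEq ι] [DecidableEq κ]
variable {c : κ → ι → ℕ} {C : Finset κ} {A : Set (ι → ℚ)} {V V' : Submodule ℚ (ι → ℚ)}
  {T R : Finset ι} {J J' Y Z : Finset κ} {W : Finset ι} {w₀ : ι} {t : ι → ℚ}

private theorem x5_sum (c : κ → ι → ℕ) {W : Finset ι} {w₀ : ι} (hw : w₀ ∈ W) (P : Finset κ)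
    (P1 : Finset (Finset κ)) (e : ι) :
    (∑ k ∈ P.disjSum P1, cb c W w₀ k e) =
      if e = w₀ then P1.card else if e ∈ W then 0 else ∑ k ∈ P, c k e + ∑ Y ∈ P1, ∑ k ∈ Y, c k e := by
  rw [Finset.sum_disjSum]
  split_ifs with h1 h2
  · subst h1
    have h3 : ∑ k ∈ P, cb c W e (Sum.inl k) e = 0 :=
      Finset.sum_eq_zero fun k _ => by simp [cb, hw]
    have h4 : ∑ Y ∈ P1, cb c W e (Sum.inr Y) e = P1.card := by
      rw [Finset.card_eq_sum_ones]
      exact Finset.sum_congr rfl fun Y _ => by simp [cb]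
    rw [h3, h4, zero_add]
  · have h3 : ∑ k ∈ P, cb c W w₀ (Sum.inl k) e = 0 :=
      Finset.sum_eq_zero fun k _ => by simp [cb, h2]
    have h4 : ∑ Y ∈ P1, cb c W w₀ (Sum.inr Y) e = 0 :=
      Finset.sum_eq_zero fun Y _ => by simp [cb, h1, h2]
    rw [h3, h4, zero_add]
  · congr 1
    · exact Finset.sum_congr rfl fun k _ => by simp [cb, h2]
    · exact Finset.sum_congr rfl fun Y _ => by simp [cb, h1, h2]

private theorem x5_JW_not {W : Finset ι} {Y : Finset κ} (h : JJ c C W Y) {k : κ} (hk : k ∈ Y) :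
    ¬ ∀ e ∈ W, c k e = 0 := by
  intro h0
  have h1 := h.two k hk
  rw [Finset.sum_eq_zero h0] at h1
  omega

/-- (4b) first case.  Rigidity is transferred.

Proof.  Let `H ⊆ Jb = J0 + {JW}`, `H' ⊆ Cb`, same number, same sums outside `T`.  If
`inr (JW J) ∉ H`, the sum of `H` at `w₀` is zero, so `H'` consists of `inl` columns, and the
corresponding families of columns of `C` are an exchange in the original system (on `W` all are
zero).  If `inr (JW J) ∈ H`, the sum at `w₀` is one and `H'` contains exactly one `inr Y'`,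
`JJ Y'`; the families `H₀ ∪ JW J` and `H₀' ∪ Y'` (disjoint unions; columns in `H₀`, `H₀'` vanish on
`W`, those in `JW J`, `Y'` do not, by `JJ.two`) are an exchange in the original system (on `W` both
sums are one; the numbers are equal because `|JW J| = |W| / 2 = |Y'|`), so they are equal, and
`Y' = JW J`, `H₀' = H₀` by looking at the values on `W`. -/
theorem trans1_rigid (hP : Pre c C A V T) (hW : Circ V t W w₀) (hJ : Fam c C T J)
    (hJW : JJ c C W (JW c W J)) (hR : Rigid c C T J) :
    Rigid (cb c W w₀) (Cb c C W) T ((J0 c W J).disjSum {JW c W J}) := by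
  have hTW := hW.disj hP
  have hwT : w₀ ∉ T := Finset.disjoint_left.1 hTW hW.w0
  intro H hH H' hH' hcard hsum
  obtain ⟨A0, A1, rfl⟩ : ∃ A0 A1, H = Finset.disjSum A0 A1 :=
    ⟨H.toLeft, H.toRight, (Finset.toLeft_disjSum_toRight).symm⟩
  obtain ⟨B0, B1, rfl⟩ : ∃ B0 B1, H' = Finset.disjSum B0 B1 :=
    ⟨H'.toLeft, H'.toRight, (Finset.toLeft_disjSum_toRight).symm⟩
  have hA0 : ∀ k ∈ A0, k ∈ J ∧ ∀ e ∈ W, c k e = 0 := by
    intro k hk
    have h1 := hH (Finset.inl_mem_disjSum.2 hk)
    rw [Finset.inl_mem_disjSum] at h1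
    exact Finset.mem_filter.1 h1
  have hA1 : ∀ Y ∈ A1, Y = JW c W J := by
    intro Y hY
    have h1 := hH (Finset.inr_mem_disjSum.2 hY)
    rw [Finset.inr_mem_disjSum] at h1
    exact Finset.mem_singleton.1 h1
  have hB0 : ∀ k ∈ B0, k ∈ C ∧ ∀ e ∈ W, c k e = 0 := by
    intro k hk
    exact mem_Cb_inl.1 (hH' (Finset.inl_mem_disjSum.2 hk))
  have hB1 : ∀ Y ∈ B1, JJ c C W Y := by
    intro Y hY
    exact mem_Cb_inr.1 (hH' (Finset.inr_mem_disjSum.2 hY))
  rw [Finset.card_disjSum, Finset.card_disjSum] at hcard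
  have hsum' : ∀ e, e ∉ T → (if e = w₀ then B1.card else if e ∈ W then 0 else
      ∑ k ∈ B0, c k e + ∑ Y ∈ B1, ∑ k ∈ Y, c k e) = (if e = w₀ then A1.card else
      if e ∈ W then 0 else ∑ k ∈ A0, c k e + ∑ Y ∈ A1, ∑ k ∈ Y, c k e) := by
    intro e he
    have h1 := hsum e he
    rwa [x5_sum c hW.w0, x5_sum c hW.w0] at h1
  have h1 : B1.card = A1.card := by
    have h2 := hsum' w₀ hwT
    rwa [if_pos rfl, if_pos rfl] at h2
  have h0 : B0.card = A0.card := by omega
  have hout : ∀ e, e ∉ T → e ∉ W → ∑ k ∈ B0, c k e + ∑ Y ∈ B1, ∑ k ∈ Y, c k e =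
      ∑ k ∈ A0, c k e + ∑ Y ∈ A1, ∑ k ∈ Y, c k e := by
    intro e he heW
    have h2 := hsum' e he
    have h3 : e ≠ w₀ := fun h => heW (h ▸ hW.w0)
    rwa [if_neg h3, if_neg h3, if_neg heW, if_neg heW] at h2
  have hA0W : ∀ e ∈ W, ∑ k ∈ A0, c k e = 0 := fun e he =>
    Finset.sum_eq_zero fun k hk => (hA0 k hk).2 e he
  have hB0W : ∀ e ∈ W, ∑ k ∈ B0, c k e = 0 := fun e he =>
    Finset.sum_eq_zero fun k hk => (hB0 k hk).2 e he
  rcases Finset.eq_empty_or_nonempty A1 with hA | ⟨Y, hY⟩
  · subst hA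
    rw [Finset.card_empty, Finset.card_eq_zero] at h1
    subst h1
    have h2 : B0 = A0 := by
      refine hR A0 (fun k hk => (hA0 k hk).1) B0 (fun k hk => (hB0 k hk).1) h0 fun e he => ?_
      by_cases heW : e ∈ W
      · rw [hA0W e heW, hB0W e heW]
      · have h3 := hout e he heW
        rwa [Finset.sum_empty, add_zero, add_zero] at h3
    rw [h2]
  · have hYJ := hA1 Y hY
    have hA : A1 = {JW c W J} := by
      ext Z
      rw [Finset.mem_singleton]
      exact ⟨fun h => hA1 Z h, fun h => by rw [h, ← hYJ]; exact hY⟩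
    subst hA
    rw [Finset.card_singleton, Finset.card_eq_one] at h1
    obtain ⟨Y', rfl⟩ := h1
    have hY' : JJ c C W Y' := hB1 Y' (Finset.mem_singleton_self _)
    have hdA : Disjoint A0 (JW c W J) := by
      rw [Finset.disjoint_left]
      intro k hk hk'
      exact (Finset.mem_filter.1 hk').2 (hA0 k hk).2
    have hdB : Disjoint B0 Y' := by
      rw [Finset.disjoint_left]
      intro k hk hk'
      exact x5_JW_not hY' hk' (hB0 k hk).2
    have hcW := hJW.card
    have hcW' := hY'.card
    have h2 : B0 ∪ Y' = A0 ∪ JW c W J := by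
      refine hR (A0 ∪ JW c W J) (Finset.union_subset (fun k hk => (hA0 k hk).1)
        (Finset.filter_subset _ _)) (B0 ∪ Y') (Finset.union_subset (fun k hk => (hB0 k hk).1)
        hY'.sub) ?_ fun e he => ?_
      · rw [Finset.card_union_of_disjoint hdA, Finset.card_union_of_disjoint hdB]
        omega
      · rw [Finset.sum_union hdA, Finset.sum_union hdB]
        by_cases heW : e ∈ W
        · rw [hA0W e heW, hB0W e heW, hJW.one e heW, hY'.one e heW]
        · have h3 := hout e he heW
          rwa [Finset.sum_singleton, Finset.sum_singleton] at h3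
    have h3 : B0 = A0 := by
      ext k
      constructor
      · intro hk
        have h4 : k ∈ A0 ∪ JW c W J := by
          rw [← h2]; exact Finset.mem_union_left _ hk
        rcases Finset.mem_union.1 h4 with h5 | h5
        · exact h5
        · exact absurd (hB0 k hk).2 (Finset.mem_filter.1 h5).2
      · intro hk
        have h4 : k ∈ B0 ∪ Y' := by
          rw [h2]; exact Finset.mem_union_left _ hk
        rcases Finset.mem_union.1 h4 with h5 | h5
        · exact h5
        · exact absurd (hA0 k hk).2 (x5_JW_not hY' h5)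
    have h4 : Y' = JW c W J := by
      ext k
      constructor
      · intro hk
        have h4 : k ∈ A0 ∪ JW c W J := by
          rw [← h2]; exact Finset.mem_union_right _ hk
        rcases Finset.mem_union.1 h4 with h5 | h5
        · exact absurd (hA0 k h5).2 (x5_JW_not hY' hk)
        · exact h5
      · intro hk
        have h4 : k ∈ B0 ∪ Y' := by
          rw [h2]; exact Finset.mem_union_right _ hk
        rcases Finset.mem_union.1 h4 with h5 | h5
        · exact absurd (hB0 k h5).2 (Finset.mem_filter.1 hk).2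
        · exact h5
    rw [h3, h4]

end MPb07157.SK
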