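import Pool.Agent.Lib.MP_b07157_ag.SK.X3
import Pool.Agent.Lib.MP_b07157_ag.SK.X5

section

/-!
# Transfer: second case
-/

set_option linter.unusedSectionVars false

namespace MPb07157.SK

open Finset Module MPb07157.EX

variable {ι κ : Type} [Fintype ι] [DecidableEq ι] [DecidableEq κ]
variable {c : κ → ι → ℕ} {C : Finset κ} {A : Set (ι → ℚ)} {V V' : Submodule ℚ (ι → ℚ)}
  {T R : Finset ι} {J J' Y Z : Finset κ} {W : Finset ι} {w₀ : ι} {t : ι → ℚ}

private theorem x4_mem {Z : Finset κ} {x : κ ⊕ Finset κ}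
    (hx : x ∈ Z.disjSum (∅ : Finset (Finset κ))) : ∃ k ∈ Z, x = Sum.inl k := by
  rw [Finset.mem_disjSum] at hx
  rcases hx with ⟨k, hk, rfl⟩ | ⟨Y, hY, rfl⟩
  · exact ⟨k, hk, rfl⟩
  · exact absurd hY (Finset.notMem_empty Y)

private theorem x4_inl {k : κ} (hk : ∀ e ∈ W, c k e = 0) (e : ι) :
    cb c W w₀ (Sum.inl k) e = c k e := by
  show (if e ∈ W then 0 else c k e) = c k e
  by_cases he : e ∈ W
  · rw [if_pos he, hk e he]
  · rw [if_neg he]

/-- Families of columns that vanish on `W`: combinatorics in the shrunk system. -/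
theorem fam_inl (hW : Circ V t W w₀) {Z : Finset κ} (hZ : ∀ k ∈ Z, ∀ e ∈ W, c k e = 0) :
    (Fam c C T Z ↔ Fam (cb c W w₀) (Cb c C W) T (Z.disjSum ∅)) ∧
      PU (cb c W w₀) T (Z.disjSum ∅) = PU c T Z ∧ (Z.disjSum (∅ : Finset (Finset κ))).card = Z.card
      := by
  refine ⟨⟨fun h => ⟨?_, ?_, ?_⟩, fun h => ⟨?_, ?_, ?_⟩⟩, ?_, ?_⟩
  · intro x hx
    obtain ⟨k, hk, rfl⟩ := x4_mem hx
    exact mem_Cb_inl.2 ⟨h.sub hk, hZ k hk⟩
  · intro x hx e he
    obtain ⟨k, hk, rfl⟩ := x4_mem hx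
    rw [x4_inl (hZ k hk)]
    exact h.zo k hk e he
  · intro x hx x' hx' e he h1 h2
    obtain ⟨k, hk, rfl⟩ := x4_mem hx
    obtain ⟨k', hk', rfl⟩ := x4_mem hx'
    rw [x4_inl (hZ k hk)] at h1
    rw [x4_inl (hZ k' hk')] at h2
    rw [h.dj k hk k' hk' e he h1 h2]
  · intro k hk
    exact (mem_Cb_inl.1 (h.sub (Finset.inl_mem_disjSum.2 hk))).1
  · intro k hk e he
    have h1 := h.zo (Sum.inl k) (Finset.inl_mem_disjSum.2 hk) e he
    rwa [x4_inl (hZ k hk)] at h1
  · intro k hk k' hk' e he h1 h2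
    have h3 := h.dj (Sum.inl k) (Finset.inl_mem_disjSum.2 hk) (Sum.inl k')
      (Finset.inl_mem_disjSum.2 hk') e he (by rwa [x4_inl (hZ k hk)]) (by rwa [x4_inl (hZ k' hk')])
    exact Sum.inl_injective h3
  · ext e
    rw [mem_PU, mem_PU]
    constructor
    · rintro ⟨he, x, hx, hxe⟩
      obtain ⟨k, hk, rfl⟩ := x4_mem hx
      rw [x4_inl (hZ k hk)] at hxe
      exact ⟨he, k, hk, hxe⟩
    · rintro ⟨he, k, hk, hke⟩
      exact ⟨he, Sum.inl k, Finset.inl_mem_disjSum.2 hk, by rwa [x4_inl (hZ k hk)]⟩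
  · rw [Finset.card_disjSum, Finset.card_empty, add_zero]

private theorem x4_J0 (k : κ) (hk : k ∈ J0 c W J) : k ∈ J ∧ ∀ e ∈ W, c k e = 0 := by
  unfold J0 at hk
  exact Finset.mem_filter.1 hk

private theorem x4_fam (h : Fam c C T J) (hZ : Z ⊆ J) : Fam c C T Z :=
  ⟨hZ.trans h.sub, fun k hk => h.zo k (hZ hk), fun k hk k' hk' => h.dj k (hZ hk) k' (hZ hk')⟩

/-- (4a), second case: if `J` is a deficit then `J0 J` is a deficit of the shrunk system.  It is not
empty: for `J0 J = ∅` the right side of `trans2_num` is `dim (cutV (Vb V) ∅ᶜ) + |PU J| = |PU J|`. -/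
theorem trans2_dfc (hP : Pre c C A V T) (hW : Circ V t W w₀) (hJ : Dfc c C V T J)
    (hJW : ¬ JJ c C W (JW c W J)) :
    Dfc (cb c W w₀) (Cb c C W) (Vb W w₀ V) T ((J0 c W J).disjSum ∅) := by
  have hnum := trans2_num hP hW hJ.fam hJW
  have hJn := hJ.num
  have hsub : J0 c W J ⊆ J := fun k hk => (x4_J0 k hk).1
  obtain ⟨h1, h2, h3⟩ := fam_inl (c := c) (C := C) (T := T) hW (Z := J0 c W J)
    (fun k hk => (x4_J0 k hk).2)
  refine ⟨h1.1 (x4_fam hJ.fam hsub), ?_, ?_⟩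
  · by_contra hne
    rw [Finset.not_nonempty_iff_eq_empty] at hne
    have he : J0 c W J = ∅ := by
      rw [← Finset.card_eq_zero, ← h3, hne, Finset.card_empty]
    rw [he] at hnum
    have hPU : PU c T (∅ : Finset κ) = ∅ := by
      unfold PU
      exact Finset.biUnion_empty
    rw [hPU] at hnum
    have hz : finrank ℚ (cutV (Vb W w₀ V) (∅ : Finset ι)ᶜ) = 0 := by
      have hb : cutV (Vb W w₀ V) (∅ : Finset ι)ᶜ = ⊥ := by
        rw [eq_bot_iff]
        intro ξ hξ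
        rw [Submodule.mem_bot]
        funext e
        exact hξ.2 e (by simp)
      rw [hb]
      exact finrank_bot ℚ (ι → ℚ)
    rw [hz] at hnum
    simp only [Finset.card_empty] at hnum
    omega
  · rw [h2, h3]
    omega

/-- (4b) second case: an exchange of `inl` columns. -/
theorem trans2_rigid (hP : Pre c C A V T) (hW : Circ V t W w₀) (hJ : Fam c C T J)
    (hR : Rigid c C T J) : Rigid (cb c W w₀) (Cb c C W) T ((J0 c W J).disjSum ∅) := by
  intro H hH H' hH' hcard hsum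
  have hw0T : w₀ ∉ T := fun h => Finset.disjoint_left.1 (hW.disj hP) hW.w0 h
  have hHl : H = H.toLeft.disjSum ∅ := by
    ext x
    constructor
    · intro hx
      obtain ⟨k, hk, rfl⟩ := x4_mem (hH hx)
      exact Finset.inl_mem_disjSum.2 (Finset.mem_toLeft.2 hx)
    · intro hx
      obtain ⟨k, hk, rfl⟩ := x4_mem hx
      exact Finset.mem_toLeft.1 hk
  have hHJ : ∀ k ∈ H.toLeft, k ∈ J ∧ ∀ e ∈ W, c k e = 0 := by
    intro k hk
    have h1 := hH (Finset.mem_toLeft.1 hk)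
    exact x4_J0 k (Finset.inl_mem_disjSum.1 h1)
  have hsw0 : ∑ k ∈ H', cb c W w₀ k w₀ = 0 := by
    rw [hsum w₀ hw0T]
    refine Finset.sum_eq_zero fun x hx => ?_
    obtain ⟨k, hk, rfl⟩ := x4_mem (hH hx)
    show (if w₀ ∈ W then 0 else c k w₀) = 0
    rw [if_pos hW.w0]
  have hH'l : H' = H'.toLeft.disjSum ∅ := by
    ext x
    constructor
    · intro hx
      rcases x with k | Y
      · exact Finset.inl_mem_disjSum.2 (Finset.mem_toLeft.2 hx)
      · exfalso
        have h1 := (Finset.sum_eq_zero_iff.1 hsw0) (Sum.inr Y) hx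
        have h2 : cb c W w₀ (Sum.inr Y) w₀ = 1 := by
          show (if w₀ = w₀ then 1 else if w₀ ∈ W then 0 else ∑ k ∈ Y, c k w₀) = 1
          rw [if_pos rfl]
        omega
    · intro hx
      obtain ⟨k, hk, rfl⟩ := x4_mem hx
      exact Finset.mem_toLeft.1 hk
  have hH'C : ∀ k ∈ H'.toLeft, k ∈ C ∧ ∀ e ∈ W, c k e = 0 := by
    intro k hk
    exact mem_Cb_inl.1 (hH' (Finset.mem_toLeft.1 hk))
  have key : H'.toLeft = H.toLeft := by
    refine hR H.toLeft (fun k hk => (hHJ k hk).1) H'.toLeft (fun k hk => (hH'C k hk).1) ?_ ?_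
    · rw [hHl, hH'l, Finset.card_disjSum, Finset.card_disjSum, Finset.card_empty] at hcard
      omega
    · intro e he
      have h1 := hsum e he
      rw [hHl, hH'l, Finset.sum_disjSum, Finset.sum_disjSum, Finset.sum_empty,
        add_zero, add_zero] at h1
      rw [Finset.sum_congr rfl fun k hk => (x4_inl (w₀ := w₀) (hH'C k hk).2 e).symm,
        Finset.sum_congr rfl fun k hk => (x4_inl (w₀ := w₀) (hHJ k hk).2 e).symm]
      exact h1
  rw [hHl, hH'l, key]

end MPb07157.SK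
end

section

/-!
# Transfer of rigid deficits
-/

set_option linter.unusedSectionVars false

namespace MPb07157.SK

open Finset Module MPb07157.EX

variable {ι κ : Type} [Fintype ι] [DecidableEq ι] [DecidableEq κ]
variable {c : κ → ι → ℕ} {C : Finset κ} {A : Set (ι → ℚ)} {V V' : Submodule ℚ (ι → ℚ)}
  {T R : Finset ι} {J J' Y Z : Finset κ} {W : Finset ι} {w₀ : ι} {t : ι → ℚ}

/-- TRANSFER: rigid deficits of a system give rigid deficits of the shrunk system. -/
theorem transfer (hP : Pre c C A V T) (hW : Circ V t W w₀) (hJ : Dfc c C V T J)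
    (hR : Rigid c C T J) :
    ∃ Jb, Dfc (cb c W w₀) (Cb c C W) (Vb W w₀ V) T Jb ∧ Rigid (cb c W w₀) (Cb c C W) T Jb := by
  by_cases hJW : JJ c C W (JW c W J)
  · refine ⟨_, ⟨(trans1_fam hP hW hJ.fam hJW).1, ?_, (trans1_num hP hW hJ.fam hJW).1 hJ.num⟩,
      trans1_rigid hP hW hJ.fam hJW hR⟩
    exact ⟨Sum.inr (JW c W J), Finset.inr_mem_disjSum.2 (Finset.mem_singleton_self _)⟩
  · exact ⟨_, trans2_dfc hP hW hJ hJW, trans2_rigid hP hW hJ.fam hR⟩

end MPb07157.SK
end
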