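import Pool.Agent.Lib.MP_b07157_ag.SK.S1
import Pool.Agent.Lib.MP_b07157_ag.SK.X6
import Pool.Agent.Lib.MP_b07157_ag.SK.M0
import Pool.Agent.Lib.MP_b07157_ag.SK.LemC
import Pool.Agent.Lib.MP_b07157_ag.SK.S2
import Pool.Agent.Lib.MP_b07157_ag.SK.S6
import Pool.Agent.Lib.MP_b07157_ag.SK.WD
import Pool.Agent.Lib.MP_b07157_ag.SK.P3
import Pool.Agent.Lib.MP_b07157_ag.SK.P1
import Pool.Agent.Lib.MP_b07157_ag.SK.P2
import Pool.Agent.Lib.MP_b07157_ag.SK.L7

section

/-!
# Circuits of active lines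
-/

set_option linter.unusedSectionVars false

namespace MPb07157.SK

open Finset Module MPb07157.EX

variable {ι κ : Type} [Fintype ι] [DecidableEq ι] [DecidableEq κ]
variable {c : κ → ι → ℕ} {C : Finset κ} {A : Set (ι → ℚ)} {V V' : Submodule ℚ (ι → ℚ)}
  {T R : Finset ι} {J J' Y Z : Finset κ} {W : Finset ι} {w₀ : ι} {t : ι → ℚ}

/-- An active line gives a circuit.

Proof. `t` a generator of `cutV V R`, `W = {e | t e ≠ 0} = NCs (cutV V R)`, not empty.  `circ`: a
direction `ξ ∈ V` vanishing outside `W` vanishes on `R` (`t = 0` on `R`), so `ξ ∈ cutV V R`.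
`sum`: `Mat.sum_zero` for the perfect matching of `cutV V R`. -/
theorem exists_circ (hP : Pre c C A V T) (hR : Acy A V R) (h1 : finrank ℚ (cutV V R) = 1)
    (hM : Mat c C (T ∪ R) (NCs (cutV V R)) Y) :
    ∃ t w₀, Circ V t (NCs (cutV V R)) w₀ ∧ Disjoint R (NCs (cutV V R)) := by
  classical
  obtain ⟨⟨t, ht⟩, ht0, hgen⟩ := finrank_eq_one_iff'.1 h1
  have hgen' : ∀ ξ ∈ cutV V R, ∃ r : ℚ, ξ = r • t := by
    intro ξ hξ
    obtain ⟨r, hr⟩ := hgen ⟨ξ, hξ⟩
    exact ⟨r, (congrArg (fun x : cutV V R => (x : ι → ℚ)) hr).symm⟩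
  have hNC : ∀ e, e ∈ NCs (cutV V R) ↔ ∃ ξ ∈ cutV V R, ξ e ≠ 0 := by
    intro e
    unfold NCs
    rw [Finset.mem_filter]
    exact ⟨fun h => h.2, fun h => ⟨Finset.mem_univ _, h⟩⟩
  have htW : ∀ e, t e ≠ 0 ↔ e ∈ NCs (cutV V R) := by
    intro e
    rw [hNC]
    constructor
    · intro h
      exact ⟨t, ht, h⟩
    · rintro ⟨ξ, hξ, h⟩ h0
      obtain ⟨r, rfl⟩ := hgen' ξ hξ
      apply h
      rw [Pi.smul_apply, h0, smul_zero]
  have htne : t ≠ 0 := fun h => ht0 (Subtype.ext h)
  obtain ⟨w₀, hw₀⟩ : ∃ e, t e ≠ 0 := by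
    by_contra hcon
    push Not at hcon
    exact htne (funext hcon)
  have hdisj : Disjoint R (NCs (cutV V R)) := by
    rw [Finset.disjoint_left]
    intro f hf hf'
    rw [hNC] at hf'
    obtain ⟨ξ, hξ, h⟩ := hf'
    exact h (hξ.2 f hf)
  refine ⟨t, w₀, ⟨ht.1, htW, (htW w₀).1 hw₀, ?_, ?_⟩, hdisj⟩
  · intro ξ hξ h
    refine hgen' ξ ⟨hξ, fun f hf => h f fun hf' => ?_⟩
    exact Finset.disjoint_left.1 hdisj hf hf'
  · have h2 := Mat.sum_zero (hP.cut hR.ne) hM t ht
    rw [← h2]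
    refine Finset.sum_subset (Finset.subset_univ _) fun e _ he => ?_
    by_contra hne
    exact he ((htW e).1 hne)

end MPb07157.SK
end

section

/-!
# Lift: families
-/

set_option linter.unusedSectionVars false

namespace MPb07157.SK

open Finset Module MPb07157.EX

variable {ι κ : Type} [Fintype ι] [DecidableEq ι] [DecidableEq κ]
variable {c : κ → ι → ℕ} {C : Finset κ} {A : Set (ι → ℚ)} {V V' : Submodule ℚ (ι → ℚ)}
  {T R : Finset ι} {J J' Y Z : Finset κ} {W : Finset ι} {w₀ : ι} {t : ι → ℚ}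

/-- The lifted family. -/
def lf (Jb : Finset (κ ⊕ Finset κ)) (Y : Finset κ) : Finset κ := Jb.toLeft ∪ Y

/-- A disjoint family of the shrunk system that contains `inr Y` contains no other `inr`
(value one at `w₀`), and its lift `J` is a disjoint family with `J0 J = Jb.toLeft`, `JW J = Y`.

Proof.  The columns `k` with `inl k ∈ Jb` vanish on `W`, those of `Y` do not (`JJ.two`).  Outside
`T ∪ W` the sum of all columns of the lift is the sum of all columns of `Jb`, hence at most one;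
on `W` it is one (`JJ.one`). -/
theorem lift_fam (hP : Pre c C A V T) (hW : Circ V t W w₀) {Jb : Finset (κ ⊕ Finset κ)}
    (hJb : Fam (cb c W w₀) (Cb c C W) T Jb) (hY : Sum.inr Y ∈ Jb) :
    JJ c C W Y ∧ Fam c C T (lf Jb Y) ∧ J0 c W (lf Jb Y) = Jb.toLeft ∧ JW c W (lf Jb Y) = Y ∧
      Jb = (J0 c W (lf Jb Y)).disjSum {JW c W (lf Jb Y)} := by
  classical
  obtain ⟨x, hx⟩ := hP.ne
  have hWT : ∀ e ∈ W, e ∉ T := by
    intro e he heT
    have h1 : t e ≠ 0 := (hW.tW e).mpr he
    have h2 : x + t ∈ A := (hP.aff x hx (x + t)).mpr (by rw [add_sub_cancel_left]; exact hW.tV)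
    have h3 := hP.zero _ h2 e heT
    rw [Pi.add_apply, hP.zero x hx e heT, zero_add] at h3
    exact h1 h3
  have hl : ∀ k, Sum.inl k ∈ Jb → k ∈ C ∧ ∀ e ∈ W, c k e = 0 := by
    intro k hk
    have h1 := hJb.sub hk
    rw [Cb, Finset.inl_mem_disjSum, Finset.mem_filter] at h1
    exact h1
  have hr : ∀ Y', Sum.inr Y' ∈ Jb → JJ c C W Y' := by
    intro Y' hk
    have h1 := hJb.sub hk
    rw [Cb, Finset.inr_mem_disjSum, Finset.mem_filter] at h1
    exact h1.2
  have hJJ := hr Y hY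
  have huniq : ∀ Y', Sum.inr Y' ∈ Jb → Y' = Y := by
    intro Y' hY'
    have h1 := hJb.dj _ hY' _ hY w₀ (hWT w₀ hW.w0) (by simp [cb]) (by simp [cb])
    exact Sum.inr.inj h1
  have hw : ∀ e, e ∉ W → e ≠ w₀ := fun e he h => he (h ▸ hW.w0)
  have hcl : ∀ k e, e ∉ W → cb c W w₀ (Sum.inl k) e = c k e := by
    intro k e he
    simp [cb, he]
  have hcr : ∀ e, e ∉ W → cb c W w₀ (Sum.inr Y) e = ∑ k ∈ Y, c k e := by
    intro e he
    simp [cb, he, hw e he]
  -- the sum over `Y` is at most one outside `T`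
  have hsum : ∀ e, e ∉ T → ∑ k ∈ Y, c k e ≤ 1 := by
    intro e he
    by_cases heW : e ∈ W
    · exact (hJJ.one e heW).le
    · rw [← hcr e heW]; exact hJb.zo _ hY e he
  have hmem : ∀ k, k ∈ lf Jb Y ↔ Sum.inl k ∈ Jb ∨ k ∈ Y := by
    intro k
    rw [lf, Finset.mem_union, Finset.mem_toLeft]
  have hle : ∀ k ∈ Y, ∀ e, c k e ≤ ∑ k ∈ Y, c k e := fun k hk e =>
    Finset.single_le_sum (f := fun k => c k e) (fun _ _ => Nat.zero_le _) hk
  have hnz : ∀ k ∈ Y, ¬ ∀ e ∈ W, c k e = 0 := by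
    intro k hk h
    have h1 := hJJ.two k hk
    rw [Finset.sum_eq_zero h] at h1
    exact absurd h1 (by norm_num)
  have hJ0 : J0 c W (lf Jb Y) = Jb.toLeft := by
    ext k
    rw [J0, Finset.mem_filter, hmem, Finset.mem_toLeft]
    constructor
    · rintro ⟨h1 | h1, h2⟩
      · exact h1
      · exact absurd h2 (hnz k h1)
    · intro h1
      exact ⟨Or.inl h1, (hl k h1).2⟩
  have hJW : JW c W (lf Jb Y) = Y := by
    ext k
    rw [JW, Finset.mem_filter, hmem]
    constructor
    · rintro ⟨h1 | h1, h2⟩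
      · exact absurd (hl k h1).2 h2
      · exact h1
    · intro h1
      exact ⟨Or.inr h1, hnz k h1⟩
  refine ⟨hJJ, ⟨?_, ?_, ?_⟩, hJ0, hJW, ?_⟩
  · intro k hk
    rcases (hmem k).mp hk with h1 | h1
    · exact (hl k h1).1
    · exact hJJ.sub h1
  · intro k hk e he
    rcases (hmem k).mp hk with h1 | h1
    · by_cases heW : e ∈ W
      · rw [(hl k h1).2 e heW]; exact Nat.zero_le _
      · rw [← hcl k e heW]; exact hJb.zo _ h1 e he
    · exact (hle k h1 e).trans (hsum e he)
  · intro k hk k' hk' e he hke hk'e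
    have hcross : ∀ k k', Sum.inl k ∈ Jb → k' ∈ Y → c k e ≠ 0 → c k' e ≠ 0 → False := by
      intro k k' h1 h2 h3 h4
      have heW : e ∉ W := fun h => h3 ((hl k h1).2 e h)
      have h5 := hJb.dj _ h1 _ hY e he (by rw [hcl k e heW]; exact h3)
        (by
          rw [hcr e heW]
          have := hle k' h2 e
          omega)
      exact absurd h5 (by simp)
    rcases (hmem k).mp hk with h1 | h1 <;> rcases (hmem k').mp hk' with h2 | h2
    · have heW : e ∉ W := fun h => hke ((hl k h1).2 e h)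
      have h5 := hJb.dj _ h1 _ h2 e he (by rw [hcl k e heW]; exact hke)
        (by rw [hcl k' e heW]; exact hk'e)
      exact Sum.inl.inj h5
    · exact (hcross k k' h1 h2 hke hk'e).elim
    · exact (hcross k' k h2 h1 hk'e hke).elim
    · by_contra hne
      have h3 : c k e + c k' e ≤ ∑ k ∈ Y, c k e := by
        rw [← Finset.sum_pair (f := fun k => c k e) hne]
        exact Finset.sum_le_sum_of_subset (by
          intro a ha
          rcases Finset.mem_insert.mp ha with h | h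
          · rw [h]; exact h1
          · rw [Finset.mem_singleton.mp h]; exact h2)
      have h4 := hsum e he
      omega
  · rw [hJ0, hJW]
    ext (k | Y')
    · rw [Finset.inl_mem_disjSum, Finset.mem_toLeft]
    · rw [Finset.inr_mem_disjSum, Finset.mem_singleton]
      constructor
      · exact huniq Y'
      · rintro rfl; exact hY

end MPb07157.SK
end

section

/-!
# Generic sections
-/

set_option linter.unusedSectionVars false

namespace MPb07157.SK

open Finset Module MPb07157.EX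

variable {ι κ : Type} [Fintype ι] [DecidableEq ι] [DecidableEq κ]
variable {c : κ → ι → ℕ} {C : Finset κ} {A : Set (ι → ℚ)} {V V' : Submodule ℚ (ι → ℚ)}
  {T R : Finset ι} {J J' Y Z : Finset κ} {W : Finset ι} {w₀ : ι} {t : ι → ℚ}

private theorem secM1_finrank {g : ι} {ξ : ι → ℚ} (hξ : ξ ∈ V) (hg : ξ g ≠ 0) :
    finrank ℚ (cutV V {g}) + 1 = finrank ℚ V := by
  let f : V →ₗ[ℚ] ℚ := (LinearMap.proj g : (ι → ℚ) →ₗ[ℚ] ℚ).domRestrict V
  have h1 : Function.Surjective f := by
    intro r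
    refine ⟨(r / ξ g) • ⟨ξ, hξ⟩, ?_⟩
    show (r / ξ g) * ξ g = r
    field_simp
  have h2 := f.finrank_range_add_finrank_ker
  rw [LinearMap.range_eq_top.2 h1, finrank_top, Module.finrank_self] at h2
  have h3 : (LinearMap.ker f).map V.subtype = cutV V {g} := by
    ext x
    rw [Submodule.mem_map, mem_cutV]
    constructor
    · rintro ⟨⟨y, hy⟩, hy', rfl⟩
      refine ⟨hy, fun e he => ?_⟩
      rw [Finset.mem_singleton] at he
      rw [he]
      exact hy'
    · rintro ⟨hx, hx'⟩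
      exact ⟨⟨x, hx⟩, hx' g (Finset.mem_singleton_self g), rfl⟩
  rw [← h3, Submodule.finrank_map_subtype_eq, ← h2, add_comm]

/-- (6)(i), the section.  `dim V ≥ 1`: some coordinate `g` is not constant.  There are finitely many
states `S` (subsets of a finite set); choose `b ∈ ℚ` different from `p g` for the points `p` of all
states.  Then `{x ∈ A | x g = b}`, with direction `cutV V {g}`, is a system of dimension one less,
if there is no active line.

Proof.  `ne`, `aff`: add a multiple of a direction with `ξ g ≠ 0`.  `pn`: let `S` be a state of the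
section.  It is acyclic in `(A, V)`, `dim (cutV V S) ≤ 1` because `cutV V S ∩ {ξ g = 0} = 0`.  If it
is zero, `S` is a state of `(A, V)` and its point `p` (also in the section) has `p g = b`:
contradiction.  So it is one, `S` is not active, `Q0` fails and gives an owner of `T ∪ S`. -/
theorem section_sys (hS : Sys c C C A V T) {n : ℕ} (hn : finrank ℚ V = n + 1)
    (hno : ∀ R, ¬ Act c C A V T R) :
    ∃ (A' : Set (ι → ℚ)) (V' : Submodule ℚ (ι → ℚ)), V' ≤ V ∧ finrank ℚ V' = n ∧
      Sys c C C A' V' T := by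
  classical
  -- a nonconstant coordinate
  obtain ⟨ξ, hξ, hξ0⟩ : ∃ ξ ∈ V, ξ ≠ 0 := by
    by_contra hcon
    push Not at hcon
    have h1 : V = ⊥ := by
      rw [eq_bot_iff]
      intro x hx
      rw [Submodule.mem_bot]
      exact hcon x hx
    rw [h1, finrank_bot] at hn
    omega
  obtain ⟨g, hg⟩ : ∃ g, ξ g ≠ 0 := by
    by_contra hcon
    push Not at hcon
    exact hξ0 (funext hcon)
  -- a generic value
  obtain ⟨b, hb⟩ := Infinite.exists_notMem_finset
    ((Finset.univ : Finset (Finset ι)).image fun S =>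
      if h : ∃ p ∈ A, ∀ f ∈ S, p f = 0 then h.choose g else 0)
  have hb' : ∀ S : Finset ι, (∀ ξ ∈ V, (∀ f ∈ S, ξ f = 0) → ξ = 0) → ∀ p ∈ A,
      (∀ f ∈ S, p f = 0) → p g ≠ b := by
    intro S h0 p hp hpS hpg
    apply hb
    rw [Finset.mem_image]
    refine ⟨S, Finset.mem_univ S, ?_⟩
    have hex : ∃ p ∈ A, ∀ f ∈ S, p f = 0 := ⟨p, hp, hpS⟩
    rw [dif_pos hex]
    obtain ⟨q1, q2⟩ := hex.choose_spec
    have h1 : p - hex.choose = 0 := by
      apply h0
      · exact (hS.aff _ q1 p).1 hp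
      · intro f hf
        rw [Pi.sub_apply, hpS f hf, q2 f hf, sub_zero]
    rw [← sub_eq_zero.1 h1]
    exact hpg
  refine ⟨{x | x ∈ A ∧ x g = b}, cutV V {g}, fun x hx => hx.1, ?_, ?_, ?_, ?_, ?_, hS.sub, ?_⟩
  · have h1 := secM1_finrank hξ hg
    omega
  · obtain ⟨x, hx⟩ := hS.ne
    refine ⟨x + ((b - x g) / ξ g) • ξ, ?_, ?_⟩
    · rw [hS.aff x hx, add_sub_cancel_left]
      exact V.smul_mem _ hξ
    · rw [Pi.add_apply, Pi.smul_apply, smul_eq_mul]
      field_simp
      ring
  · rintro x ⟨hx, hxg⟩ y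
    rw [mem_cutV, ← hS.aff x hx y]
    refine and_congr_right fun _ => ?_
    rw [← hxg]
    constructor
    · intro h f hf
      rw [Finset.mem_singleton] at hf
      rw [hf, Pi.sub_apply, h, sub_self]
    · intro h
      have h1 := h g (Finset.mem_singleton_self g)
      rw [Pi.sub_apply] at h1
      exact sub_eq_zero.1 h1
  · rintro x ⟨hx, -⟩ f hf
    exact hS.zero x hx f hf
  · rintro k hk x ⟨hx, -⟩
    exact hS.col k hk x hx
  · intro S hA h0
    have hAcy : Acy A V S := by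
      obtain ⟨η, h1, h2⟩ := hA.pos
      obtain ⟨p, h3, h4⟩ := hA.ne
      exact ⟨⟨η, h1.1, h2⟩, ⟨p, h3.1, h4⟩⟩
    by_cases hpt : ∀ ξ ∈ V, (∀ f ∈ S, ξ f = 0) → ξ = 0
    · exfalso
      obtain ⟨p, h3, h4⟩ := hA.ne
      exact hb' S hpt p h3.1 h4 h3.2
    · push Not at hpt
      obtain ⟨η, hηV, hηS, hη0⟩ := hpt
      have hηg : η g ≠ 0 := by
        intro h
        apply hη0
        apply h0 η ⟨hηV, ?_⟩ hηS
        intro f hf
        rw [Finset.mem_singleton] at hf
        rw [hf]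
        exact h
      have hone : finrank ℚ (cutV V S) = 1 := by
        rw [finrank_eq_one_iff_of_nonzero' (⟨η, hηV, hηS⟩ : cutV V S)
          (fun h => hη0 (congrArg Subtype.val h))]
        rintro ⟨ζ, hζV, hζS⟩
        refine ⟨ζ g / η g, Subtype.ext ?_⟩
        show (ζ g / η g) • η = ζ
        have h1 : ζ - (ζ g / η g) • η = 0 := by
          apply h0
          · refine ⟨V.sub_mem hζV (V.smul_mem _ hηV), ?_⟩
            intro f hf
            rw [Finset.mem_singleton] at hf
            rw [hf, Pi.sub_apply, Pi.smul_apply, smul_eq_mul, div_mul_cancel₀ _ hηg, sub_self]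
          · intro f hf
            rw [Pi.sub_apply, Pi.smul_apply, smul_eq_mul, hζS f hf, hηS f hf, mul_zero, sub_zero]
        exact (sub_eq_zero.1 h1).symm
      have hq : ¬ Q0 c C C (cutA A S) (T ∪ S) := fun hq => hno S ⟨hAcy, hone, hq⟩
      unfold Q0 at hq
      push Not at hq
      obtain ⟨w, -, k, hk⟩ := hq
      exact ⟨w, k, hk⟩

end MPb07157.SK
end

section

/-!
# Lift of minimal rigid deficits
-/

set_option linter.unusedSectionVars false

namespace MPb07157.SK

open Finset Module MPb07157.EX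

variable {ι κ : Type} [Fintype ι] [DecidableEq ι] [DecidableEq κ]
variable {c : κ → ι → ℕ} {C : Finset κ} {A : Set (ι → ℚ)} {V V' : Submodule ℚ (ι → ℚ)}
  {T R : Finset ι} {J J' Y Z : Finset κ} {W : Finset ι} {w₀ : ι} {t : ι → ℚ}

/-- LIFT (4c).

Proof.  Put `J = lf Jb Y`.  `Dfc`: `lift_fam`, `trans1_num`.  Rigid, by `Pre.rigid_of_whole`: let
`J'` be a disjoint family with `PU J' = PU J`, `|J'| = |J|` and the same sums outside `T`.
(1) `JJ (JW J')`: `J'b := (J0 J').disjSum {JW J'}` has the same sums as `Jb` and the same number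
(`trans1_fam`), so `J'b = Jb` by rigidity of `Jb` (with `H = Jb`), hence `J0 J' = J0 J`,
`JW J' = JW J`, `J' = J`.
(2) not `JJ (JW J')`: `J'` is a deficit (`num` is the same), so `(J0 J').disjSum ∅` is a deficit of
the shrunk system (`trans2_dfc`).  It contains a minimal deficit `Z`.  Every `z ∈ Z` is `inl k`,
`k ∈ J0 J'`, it has some `e ∉ T` with `c k e ≠ 0`, `e ∉ W`, `e ∈ PU J' = PU J`, so `e ∈ PU Jb`, and
by `lemC` (`Jb` is a minimal rigid deficit) `z ∈ Jb`.  So `Z ⊆ Jb.erase (inr Y) ⊂ Jb` is a deficit: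
contradiction to the minimality of `Jb`. -/
theorem lift (hP : Pre c C A V T) (hW : Circ V t W w₀) {Jb : Finset (κ ⊕ Finset κ)}
    (hJb : MinD (cb c W w₀) (Cb c C W) (Vb W w₀ V) T Jb)
    (hR : Rigid (cb c W w₀) (Cb c C W) T Jb) (hY : Sum.inr Y ∈ Jb) :
    Dfc c C V T (lf Jb Y) ∧ Rigid c C T (lf Jb Y) := by
  obtain ⟨hYJ, hfam, hJ0, hJW, hJbeq⟩ := lift_fam hP hW hJb.dfc.fam hY
  obtain ⟨J, hJdef⟩ : ∃ J, J = lf Jb Y := ⟨_, rfl⟩
  rw [← hJdef] at hfam hJ0 hJW hJbeq ⊢
  have hJJ : JJ c C W (JW c W J) := by rw [hJW]; exact hYJ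
  have hun : ∀ J' : Finset κ, J0 c W J' ∪ JW c W J' = J' := fun J' =>
    Finset.filter_union_filter_not_eq _ _
  have hsumJ : ∀ (J' : Finset κ) (e : ι), ∑ k ∈ J0 c W J', c k e + ∑ k ∈ JW c W J', c k e =
      ∑ k ∈ J', c k e := fun J' e => Finset.sum_filter_add_sum_filter_not _ _ _
  have hP' : Pre (cb c W w₀) (Cb c C W) (Ab W w₀ A) (Vb W w₀ V) T := hP.shrink hW
  have hdfc : Dfc c C V T J := by
    refine ⟨hfam, ?_, (trans1_num hP hW hfam hJJ).2 ?_⟩
    · rw [Finset.nonempty_iff_ne_empty]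
      rintro rfl
      have h1 := hJJ.one w₀ hW.w0
      unfold JW at h1
      simp at h1
    · rw [← hJbeq]
      exact hJb.dfc.num
  refine ⟨hdfc, hP.rigid_of_whole hfam fun J' hF hPU hcard hsum => ?_⟩
  by_cases hJJ' : JJ c C W (JW c W J')
  · have hf' := trans1_fam hP hW hF hJJ'
    have hf := trans1_fam hP hW hfam hJJ
    have hval : ∀ J'' : Finset κ, ∀ e, e ∉ T →
        ∑ k ∈ (J0 c W J'').disjSum {JW c W J''}, cb c W w₀ k e =
          if e = w₀ then 1 else if e ∈ W then 0 else ∑ k ∈ J'', c k e := by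
      intro J'' e _
      rw [Finset.sum_disjSum, Finset.sum_singleton]
      unfold cb
      by_cases h1 : e = w₀
      · have h2 : e ∈ W := by rw [h1]; exact hW.w0
        simp only [if_pos h1, if_pos h2, Finset.sum_const_zero, zero_add]
      · by_cases h2 : e ∈ W
        · simp only [if_neg h1, if_pos h2, Finset.sum_const_zero, add_zero]
        · simp only [if_neg h1, if_neg h2]
          exact hsumJ J'' e
    have heq : (J0 c W J').disjSum {JW c W J'} = Jb := by
      refine hR Jb (Finset.Subset.refl _) _ hf'.1.sub ?_ ?_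
      · have h1 := hf'.2.2.2
        have h2 := hf.2.2.2
        rw [← hJbeq] at h2
        omega
      · intro e he
        rw [hval J' e he]
        conv_rhs => rw [hJbeq]
        rw [hval J e he, hsum e he]
    rw [hJbeq] at heq
    have h0 : J0 c W J' = J0 c W J := by
      ext k
      have h1 : Sum.inl k ∈ (J0 c W J').disjSum {JW c W J'} ↔
          Sum.inl k ∈ (J0 c W J).disjSum {JW c W J} := by rw [heq]
      rwa [Finset.inl_mem_disjSum, Finset.inl_mem_disjSum] at h1
    have h1 : JW c W J' = JW c W J := by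
      have h2 : Sum.inr (JW c W J') ∈ (J0 c W J).disjSum {JW c W J} := by
        rw [← heq, Finset.inr_mem_disjSum]
        exact Finset.mem_singleton_self _
      rw [Finset.inr_mem_disjSum, Finset.mem_singleton] at h2
      exact h2
    rw [← hun J', ← hun J, h0, h1]
  · exfalso
    have hD : Dfc c C V T J' := by
      refine ⟨hF, ?_, ?_⟩
      · rw [← Finset.card_pos, hcard, Finset.card_pos]
        exact hdfc.ne
      · rw [hPU, hcard]
        exact hdfc.num
    obtain ⟨Z, hZs, hZ⟩ := (trans2_dfc hP hW hD hJJ').exists_min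
    have hZJ : ∀ z ∈ Z, z ∈ Jb ∧ z ≠ Sum.inr Y := by
      intro z hz
      have hz' := hZs hz
      rw [Finset.mem_disjSum] at hz'
      obtain ⟨k, hk, rfl⟩ | ⟨k, hk, -⟩ := hz'
      · refine ⟨?_, Sum.inl_ne_inr⟩
        obtain ⟨e, he⟩ := hP'.sup_ne (hZ.dfc.fam.sub hz)
        rw [mem_sup'] at he
        obtain ⟨heT, hke⟩ := he
        have heW : e ∉ W := fun h => hke (if_pos h)
        have hke' : c k e ≠ 0 := fun h => hke (by
          show (if e ∈ W then 0 else c k e) = 0
          rw [if_neg heW, h])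
        have heP : e ∈ PU c T J := by
          rw [← hPU]
          exact mem_PU.2 ⟨heT, k, (Finset.mem_filter.1 hk).1, hke'⟩
        obtain ⟨-, k2, hk2, hk2e⟩ := mem_PU.1 heP
        have hex : ∃ k' ∈ Jb, cb c W w₀ k' e ≠ 0 := by
          rw [hJbeq]
          by_cases h0 : ∀ f ∈ W, c k2 f = 0
          · refine ⟨Sum.inl k2, Finset.inl_mem_disjSum.2 (Finset.mem_filter.2 ⟨hk2, h0⟩), ?_⟩
            show (if e ∈ W then 0 else c k2 e) ≠ 0
            rw [if_neg heW]
            exact hk2e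
          · refine ⟨Sum.inr (JW c W J), Finset.inr_mem_disjSum.2 (Finset.mem_singleton_self _), ?_⟩
            show (if e = w₀ then 1 else if e ∈ W then 0 else ∑ k ∈ JW c W J, c k e) ≠ 0
            have h1 : e ≠ w₀ := fun h => heW (h ▸ hW.w0)
            rw [if_neg h1, if_neg heW]
            intro h2
            rw [Finset.sum_eq_zero_iff] at h2
            exact hk2e (h2 k2 (Finset.mem_filter.2 ⟨hk2, h0⟩))
        obtain ⟨k', hk', hke2⟩ := hex
        have := lemC hP' hJb hR hZ k' hk' _ hz e heT hke2 hke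
        rw [← this]
        exact hk'
      · exact absurd hk (Finset.notMem_empty _)
    refine hJb.min Z ?_ hZ.dfc
    refine Finset.ssubset_iff_subset_ne.2 ⟨fun z hz => (hZJ z hz).1, ?_⟩
    rintro rfl
    exact (hZJ _ hY).2 rfl

end MPb07157.SK
end

section

/-!
# The shrunk system has owners
-/

set_option linter.unusedSectionVars false

namespace MPb07157.SK

open Finset Module MPb07157.EX

variable {ι κ : Type} [Fintype ι] [DecidableEq ι] [DecidableEq κ]
variable {c : κ → ι → ℕ} {C : Finset κ} {A : Set (ι → ℚ)} {V V' : Submodule ℚ (ι → ℚ)}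
  {T R : Finset ι} {J J' Y Z : Finset κ} {W : Finset ι} {w₀ : ι} {t : ι → ℚ}

/-- (6)(iii): if `dim V = n + 3`, `R` is an active line and all planes have rigid deficits, then the
shrunk system satisfies the hypothesis on states.

Proof of `pn`.  Let `S` be a state of the shrunk system.
(1) `w₀ ∉ S`: `st_of_shrink`, `single_out` (`hline`: `line_mat` for `hS.cut`).
(2) `w₀ ∈ S`: `edge_fact` for `(Ab A, Vb V)`, `S` and `b = w₀` gives `Q ⊆ S`, `w₀ ∉ Q`, `η` positive
on `S \ Q`, `dim (cutV (Vb V) Q) = 1`.  `acy_of_shrink` (with `Acy.mono`): `Q` is disjoint from `W`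
and acyclic in the original system; `Vb_cut`, `Circ.finrank_Vb` (for `Circ.cut`): `dim (cutV V Q) =
2`.  `h2` for `hS.cut`: a rigid deficit for `T ∪ Q`; `transfer` (with `Circ.cut`): a rigid deficit
of the shrunk system of the flat, which is the flat of the shrunk system (`Ab_cut`, `Vb_cut`).
`weak_duality` for the state `S \ Q` of this flat (`St.cut`): a single of `(T ∪ Q) ∪ (S \ Q) =
T ∪ S`. -/
theorem shrink_sys (h2 : TT ι 2) (hS : Sys c C C A V T) {W : Finset ι} {w₀ : ι} {t : ι → ℚ}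
    (hW : Circ V t W w₀) : Sys (cb c W w₀) (Cb c C W) (Cb c C W) (Ab W w₀ A) (Vb W w₀ V) T := by
  classical
  have hP : Pre c C A V T := Pre.of_sys hS
  have hPs : Pre (cb c W w₀) (Cb c C W) (Ab W w₀ A) (Vb W w₀ V) T := hP.shrink hW
  refine ⟨hPs.ne, hPs.aff, hPs.zero, hPs.col, Finset.Subset.refl _, fun S hSa hSp => ?_⟩
  have hSt : St (Ab W w₀ A) (Vb W w₀ V) S := ⟨hSa, hSp⟩
  by_cases h0 : w₀ ∈ S
  · obtain ⟨Q, hQS, hwQ, hη, hfin⟩ := edge_fact hSa h0
    have hz : finrank ℚ (cutV (Vb W w₀ V) S) = 0 := by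
      have hb : cutV (Vb W w₀ V) S = ⊥ := by
        rw [Submodule.eq_bot_iff]
        rintro ξ ⟨h1, h3⟩
        exact hSp ξ h1 h3
      rw [hb]
      exact finrank_bot ℚ _
    rw [hz, zero_add] at hfin
    have hQa : Acy (Ab W w₀ A) (Vb W w₀ V) Q := hSa.mono hQS
    obtain ⟨hd, hQa'⟩ := acy_of_shrink hW.w0 hQa hwQ
    have hWc : Circ (cutV V Q) t W w₀ := hW.cut hd
    have hVb : cutV (Vb W w₀ V) Q = Vb W w₀ (cutV V Q) := Vb_cut hW.w0 hd
    have h2' : finrank ℚ (cutV V Q) = 2 := by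
      have h3 := hWc.finrank_Vb
      rw [← hVb, hfin] at h3
      exact h3.symm
    obtain ⟨J, hJ, hR⟩ := h2 κ c C (cutA A Q) (cutV V Q) (T ∪ Q) (hS.cut hQa') h2'
    obtain ⟨Jb, hJb, hRb⟩ := transfer (Pre.of_sys (hS.cut hQa')) hWc hJ hR
    rw [← hVb] at hJb
    obtain ⟨w, k, _, hk⟩ := weak_duality (hPs.cut hQa.ne) hJb hRb (hSt.cut hQS hη)
    have he : T ∪ Q ∪ S \ Q = T ∪ S := by
      rw [Finset.union_assoc, Finset.union_sdiff_of_subset hQS]
    rw [he] at hk
    exact ⟨w, k, hk⟩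
  · obtain ⟨hd, hSa', h1, hN⟩ := st_of_shrink hW hSt h0
    refine single_out hP hW hSa' hd hN fun hq => ?_
    have h3 := line_mat (hS.cut hSa') h1 hq
    rwa [hN] at h3

end MPb07157.SK
end

section

/-!
# Planes: the shrunk line
-/

set_option linter.unusedSectionVars false

namespace MPb07157.SK

open Finset Module MPb07157.EX

variable {ι κ : Type} [Fintype ι] [DecidableEq ι] [DecidableEq κ]
variable {c : κ → ι → ℕ} {C : Finset κ} {A : Set (ι → ℚ)} {V V' : Submodule ℚ (ι → ℚ)}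
  {T R : Finset ι} {J J' Y Z : Finset κ} {W : Finset ι} {w₀ : ι} {t : ι → ℚ}

/-- 5(b), last part.

Proof.  `exists_circ` gives the circuit `W = NCs (cutV V R)`, `t`, `w₀`.  The shrunk system is a
line (`Circ.finrank_Vb`), the sum of its slopes is zero (`sum_phiL`, `hsum`).  `w₀` is not constant
on it: `inr Y ∈ Cb` (`hY.jj`), its column is zero outside `T ∪ R ∪ {w₀}` (`hY.supp`), nonnegative,
one at `w₀` and not zero at `b ∈ R` (`hkb`), and for the direction `η ∈ V` positive on `R`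
(`hR.acy`), `phiL η` is positive on `R` (`R` is disjoint from `W`): the unit equation of the shrunk
system (`Pre.shrink`, `Pre.colV`) gives `phiL η w₀ < 0`.  Let `ξ = phiL η`.  `one_sided` for
`(cb, Cb, Ab, Vb, ξ)`; its hypothesis is `plane_opp` (`w₀ ∉ S'` because `ξ w₀ < 0`).  So there is a
unique perfect matching `Jb` of the shrunk line; by `mat_rigid` it is a minimal rigid deficit.
`w₀ ∈ NCs (Vb V)`, so some `k ∈ Jb` has `cb k w₀ = 1` (`JJ.one`), it is not `inl` (`w₀ ∈ W`), so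
`k = inr Y'`.  `lift`. -/
theorem plane_b (hS : Sys c C C A V T) (h2 : finrank ℚ V = 2) (hq : Q0 c C C A T)
    (hR : Act c C A V T R) (hsum : ∀ ξ ∈ V, ∑ e, ξ e = 0)
    (hY : Mat c C (T ∪ R) (NCs (cutV V R)) Y) {k : κ} (hk : k ∈ Y) {b : ι} (hb : b ∈ R)
    (hkb : c k b ≠ 0) : ∃ J, Dfc c C V T J ∧ Rigid c C T J := by
  have hP := Pre.of_sys hS
  obtain ⟨t, w₀, hW, hRW⟩ := exists_circ hP hR.acy hR.one hY
  have hPb := hP.shrink hW
  have hfr : finrank ℚ (Vb (NCs (cutV V R)) w₀ V) = 1 := by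
    have h3 := hW.finrank_Vb
    omega
  obtain ⟨η, hηV, hηR⟩ := hR.acy.pos
  obtain ⟨ξ, hξdef⟩ : ∃ ξ, ξ = phiL (NCs (cutV V R)) w₀ η := ⟨_, rfl⟩
  have hξ : ξ ∈ Vb (NCs (cutV V R)) w₀ V := ⟨η, hηV, hξdef.symm⟩
  have hξR : ∀ f ∈ R, 0 < ξ f := by
    intro f hf
    rw [hξdef, phiL_out hW.w0 η (Finset.disjoint_left.1 hRW hf)]
    exact hηR f hf
  have hbw : b ≠ w₀ := by
    rintro rfl
    exact Finset.disjoint_left.1 hRW hb hW.w0
  -- the slope of `w₀` is negative
  have hξw : ξ w₀ < 0 := by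
    have h3 := hPb.colV (mem_Cb_inr.2 hY.jj) hξ
    rw [← Finset.add_sum_erase _ _ (Finset.mem_univ w₀)] at h3
    have h4 : cb c (NCs (cutV V R)) w₀ (Sum.inr Y) w₀ = 1 := if_pos rfl
    rw [h4, Nat.cast_one, one_mul] at h3
    have h5 : 0 < ∑ e ∈ univ.erase w₀,
        (cb c (NCs (cutV V R)) w₀ (Sum.inr Y) e : ℚ) * ξ e := by
      have h6 : ∀ e, e ≠ w₀ → e ∉ NCs (cutV V R) →
          cb c (NCs (cutV V R)) w₀ (Sum.inr Y) e = ∑ k ∈ Y, c k e := by
        intro e he heW
        show (if e = w₀ then 1 else if e ∈ NCs (cutV V R) then 0 else ∑ k ∈ Y, c k e) = _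
        rw [if_neg he, if_neg heW]
      apply Finset.sum_pos'
      · intro e he
        have hew := Finset.ne_of_mem_erase he
        by_cases heR : e ∈ R
        · exact mul_nonneg (Nat.cast_nonneg _) (hξR e heR).le
        by_cases heT : e ∈ T
        · rw [hPb.vT hξ heT, mul_zero]
        have h7 : cb c (NCs (cutV V R)) w₀ (Sum.inr Y) e = 0 := by
          by_cases heW : e ∈ NCs (cutV V R)
          · show (if e = w₀ then 1 else if e ∈ NCs (cutV V R) then 0 else ∑ k ∈ Y, c k e) = _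
            rw [if_neg hew, if_pos heW]
          · rw [h6 e hew heW]
            refine Finset.sum_eq_zero fun k' hk' => ?_
            by_contra h8
            rcases hY.supp k' hk' e h8 with h9 | h9
            · rcases Finset.mem_union.1 h9 with h9 | h9
              · exact heT h9
              · exact heR h9
            · exact heW h9
        rw [h7, Nat.cast_zero, zero_mul]
      · refine ⟨b, Finset.mem_erase.2 ⟨hbw, Finset.mem_univ b⟩, ?_⟩
        rw [h6 b hbw (Finset.disjoint_left.1 hRW hb)]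
        refine mul_pos (Nat.cast_pos.2 ?_) (hξR b hb)
        have h7 : c k b ≤ ∑ k ∈ Y, c k b :=
          Finset.single_le_sum (f := fun k => c k b) (fun _ _ => Nat.zero_le _) hk
        omega
    linarith
  have hξne : ξ ≠ 0 := by
    intro h
    rw [h] at hξw
    exact lt_irrefl _ hξw
  have hsum' : ∑ e, ξ e = 0 := by
    rw [hξdef, sum_phiL hW.w0 η]
    exact hsum η hηV
  obtain ⟨Jb, hMb, hub⟩ := one_sided hPb hfr hξ hξne hsum' fun x hx S' hne hS' =>
    plane_opp hS h2 hq hW hξ hξw.ne hx hne (fun h => lt_asymm hξw (hS' w₀ h).2) hS'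
  obtain ⟨hMin, hRig⟩ := mat_rigid hPb hfr hMb hub
  obtain ⟨k', hk', h1, -⟩ := hMb.jj.pair (mem_NCs.2 ⟨ξ, hξ, hξw.ne⟩)
  cases k' with
  | inl k' =>
    have h4 : cb c (NCs (cutV V R)) w₀ (Sum.inl k') w₀ = 0 := if_pos hW.w0
    rw [h4] at h1
    exact absurd h1 zero_ne_one
  | inr Y' => exact ⟨_, lift hP hW hMin hRig hk'⟩

end MPb07157.SK
end

section

/-!
# The induction step
-/

set_option linter.unusedSectionVars false

namespace MPb07157.SK

open Finset Module MPb07157.EX

variable {ι κ : Type} [Fintype ι] [DecidableEq ι] [DecidableEq κ]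
variable {c : κ → ι → ℕ} {C : Finset κ} {A : Set (ι → ℚ)} {V V' : Submodule ℚ (ι → ℚ)}
  {T R : Finset ι} {J J' Y Z : Finset κ} {W : Finset ι} {w₀ : ι} {t : ι → ℚ}

/-- (6)(iii): the induction step with an active line.

Proof.  `Act.mat`, `exists_circ`; the shrunk system is a system by `shrink_sys`, of dimension
`n + 2`; by the induction hypothesis it has a rigid deficit, hence (`Dfc.exists_min`, `Rigid.mono`)
a minimal rigid one, `Jb`.  `R` is a state of it (`st_shrink`); `weak_duality` gives a single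
`(w, k)` of `T ∪ R` with `k ∈ Jb`; `owner_w0`: `k = inr Y`.  `lift`. -/
theorem step_active (h2 : TT ι 2) {n : ℕ} (ih : TT ι (n + 2)) (hS : Sys c C C A V T)
    (hn : finrank ℚ V = n + 3) (hR : Act c C A V T R) :
    ∃ J, Dfc c C V T J ∧ Rigid c C T J := by
  have hP := Pre.of_sys hS
  obtain ⟨Y, hY, -⟩ := hR.mat hS
  obtain ⟨t, w₀, hW, hRW⟩ := exists_circ hP hR.acy hR.one hY
  have hSb := shrink_sys h2 hS hW
  have hfin : finrank ℚ (Vb (NCs (cutV V R)) w₀ V) = n + 2 := by
    have h1 := hW.finrank_Vb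
    omega
  obtain ⟨J1, hJ1, hr1⟩ := ih (κ ⊕ Finset κ) _ _ _ _ T hSb hfin
  obtain ⟨J2, hsub, hmin⟩ := hJ1.exists_min
  have hr2 := hr1.mono hsub
  have hst := st_shrink hW hR.acy hRW hR.one
  obtain ⟨w, k, hk, hO⟩ := weak_duality (Pre.of_sys hSb) hmin.dfc hr2 hst
  obtain ⟨-, Z, rfl⟩ := owner_w0 hP hW hRW hR.q0 hO
  exact ⟨_, lift hP hW hmin hr2 hk⟩

end MPb07157.SK
end

section

/-!
# Planes with an active line
-/

set_option linter.unusedSectionVars false

namespace MPb07157.SK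

open Finset Module MPb07157.EX

variable {ι κ : Type} [Fintype ι] [DecidableEq ι] [DecidableEq κ]
variable {c : κ → ι → ℕ} {C : Finset κ} {A : Set (ι → ℚ)} {V V' : Submodule ℚ (ι → ℚ)}
  {T R : Finset ι} {J J' Y Z : Finset κ} {W : Finset ι} {w₀ : ι} {t : ι → ℚ}

/-- Planes with an active line have a rigid deficit. -/
theorem exists_plane (hS : Sys c C C A V T) (h2 : finrank ℚ V = 2) (hR : Act c C A V T R) :
    ∃ J, Dfc c C V T J ∧ Rigid c C T J := by
  by_cases hq : Q0 c C C A T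
  · obtain ⟨Y, hY, -⟩ := hR.mat hS
    by_cases h0 : ∀ k ∈ Y, ∀ e ∈ R, c k e = 0
    · exact ⟨Y, plane_a hS hR hY h0⟩
    · push Not at h0
      obtain ⟨k, hk, b, hb, hkb⟩ := h0
      obtain ⟨Q, hQ, hη⟩ := second_active hS h2 hR hY hk hb hkb
      exact plane_b hS h2 hq hR (plane_sum hS h2 hR hQ hb hη) hY hk hb hkb
  · unfold Q0 at hq
    push Not at hq
    obtain ⟨w, -, k, hk⟩ := hq
    exact ⟨{k}, (Pre.of_sys hS).dfc_single hk⟩

end MPb07157.SK
end

section

/-!
# Every system has a rigid deficit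
-/

set_option linter.unusedSectionVars false

namespace MPb07157.SK

open Finset Module MPb07157.EX

variable {ι κ : Type} [Fintype ι] [DecidableEq ι] [DecidableEq κ]
variable {c : κ → ι → ℕ} {C : Finset κ} {A : Set (ι → ℚ)} {V V' : Submodule ℚ (ι → ℚ)}
  {T R : Finset ι} {J J' Y Z : Finset κ} {W : Finset ι} {w₀ : ι} {t : ι → ℚ}

/-- THEOREM.  Every system has a rigid deficit. -/
theorem rigid_exists (n : ℕ) : TT ι n := by
  induction n using Nat.strong_induction_on with
  | _ n ih =>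
    intro κ _ c C A V T hS hn
    rcases n with _ | _ | _ | n
    · exact exists_zero hS hn
    · exact exists_one hS hn
    · by_cases hact : ∃ R, Act c C A V T R
      · obtain ⟨R, hR⟩ := hact
        exact exists_plane hS hn hR
      · push Not at hact
        obtain ⟨A', V', hV, h1, hS'⟩ := section_sys hS hn hact
        obtain ⟨J, hJ, hr⟩ := ih 1 (by omega) κ c C A' V' T hS' h1
        exact ⟨J, hJ.mono_V hV, hr⟩
    · by_cases hact : ∃ R, Act c C A V T R
      · obtain ⟨R, hR⟩ := hact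
        exact step_active (ih 2 (by omega)) (ih (n + 2) (by omega)) hS hn hR
      · push Not at hact
        obtain ⟨A', V', hV, h1, hS'⟩ := section_sys hS hn hact
        obtain ⟨J, hJ, hr⟩ := ih (n + 2) (by omega) κ c C A' V' T hS' h1
        exact ⟨J, hJ.mono_V hV, hr⟩

end MPb07157.SK
end
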