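import Pool.Agent.Lib.MP_b07157_ag.SK.B3

section

/-!
# Vector configurations: ranks
-/

set_option linter.unusedSectionVars false

namespace MPb07157.SK

open Finset Module MPb07157.EX

variable {ι κ : Type} [Fintype ι] [DecidableEq ι] [DecidableEq κ]
variable {c : κ → ι → ℕ} {C : Finset κ} {A : Set (ι → ℚ)} {V V' : Submodule ℚ (ι → ℚ)}
  {T R : Finset ι} {J J' Y Z : Finset κ} {W : Finset ι} {w₀ : ι} {t : ι → ℚ}

/-- Deficits of a vector configuration `e : ι → W` with columns `c k i`. -/
structure DfcW {W : Type} [AddCommGroup W] [Module ℚ W] (e : ι → W) (c : κ → ι → ℕ)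
    (J : Finset κ) : Prop where
  ne : J.Nonempty
  zo : ∀ k ∈ J, ∀ i, c k i ≤ 1
  dj : ∀ k ∈ J, ∀ k' ∈ J, ∀ i, c k i ≠ 0 → c k' i ≠ 0 → k = k'
  num : finrank ℚ (Submodule.span ℚ (e '' {i | ∃ k ∈ J, c k i ≠ 0})) + 1 ≤ 2 * J.card

/-- Rank and relations: the rank of the vectors in `P` is `|P|` minus the dimension of the space of
relations supported in `P`. -/
theorem finrank_span_eq {W : Type} [AddCommGroup W] [Module ℚ W] (e : ι → W) (P : Finset ι)
    (V : Submodule ℚ (ι → ℚ)) (hV : ∀ ξ, ξ ∈ V ↔ ∑ i, ξ i • e i = 0) :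
    finrank ℚ (Submodule.span ℚ (e '' (P : Set ι))) + finrank ℚ (cutV V Pᶜ) = P.card := by
  classical
  have hsum : ∀ ξ : ι → ℚ, (∀ i, i ∉ P → ξ i = 0) →
      ∑ i : P, ξ i • e i = ∑ i, ξ i • e i := by
    intro ξ hξ
    rw [Finset.sum_coe_sort P (fun i => ξ i • e i)]
    refine Finset.sum_subset (Finset.subset_univ P) fun i _ hi => ?_
    rw [hξ i hi, zero_smul]
  let Φ : (P → ℚ) →ₗ[ℚ] W := Fintype.linearCombination ℚ (fun i : P => e i)
  have hr : LinearMap.range Φ = Submodule.span ℚ (e '' (P : Set ι)) := by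
    have h1 : LinearMap.range Φ = Submodule.span ℚ (Set.range fun i : P => e i) :=
      Fintype.range_linearCombination ℚ (fun i : P => e i)
    rw [h1]
    congr 1
    ext x
    constructor
    · rintro ⟨i, rfl⟩
      exact ⟨i, i.2, rfl⟩
    · rintro ⟨i, hi, rfl⟩
      exact ⟨⟨i, hi⟩, rfl⟩
  have hk : finrank ℚ (LinearMap.ker Φ) = finrank ℚ (cutV V Pᶜ) := by
    let E : cutV V Pᶜ ≃ₗ[ℚ] LinearMap.ker Φ :=
      { toFun := fun ξ => ⟨fun i => (ξ : ι → ℚ) i, by
          rw [LinearMap.mem_ker, Fintype.linearCombination_apply,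
            hsum ξ.1 (fun i hi => ξ.2.2 i (Finset.mem_compl.2 hi))]
          exact (hV ξ.1).1 ξ.2.1⟩
        map_add' := fun _ _ => rfl
        map_smul' := fun _ _ => rfl
        invFun := fun a => ⟨fun i => if h : i ∈ P then a.1 ⟨i, h⟩ else 0, by
          refine ⟨?_, ?_⟩
          · rw [hV, ← hsum _ (fun i hi => dif_neg hi)]
            have h2 := a.2
            rw [LinearMap.mem_ker, Fintype.linearCombination_apply] at h2
            rw [← h2]
            refine Finset.sum_congr rfl fun i _ => ?_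
            rw [dif_pos i.2]
          · intro i hi
            exact dif_neg (Finset.mem_compl.1 hi)⟩
        left_inv := by
          intro ξ
          apply Subtype.ext
          funext i
          by_cases h : i ∈ P
          · exact dif_pos h
          · have h2 := ξ.2.2 i (Finset.mem_compl.2 h)
            exact (dif_neg h).trans h2.symm
        right_inv := by
          intro a
          apply Subtype.ext
          funext i
          exact dif_pos i.2 }
    exact E.finrank_eq.symm
  have h3 := LinearMap.finrank_range_add_finrank_ker Φ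
  rw [hr, hk, finrank_fintype_fun_eq_card, Fintype.card_coe] at h3
  exact h3

end MPb07157.SK
end

section

/-!
# Vector configurations: systems
-/

set_option linter.unusedSectionVars false

namespace MPb07157.SK

open Finset Module MPb07157.EX

variable {ι κ : Type} [Fintype ι] [DecidableEq ι] [DecidableEq κ]
variable {c : κ → ι → ℕ} {C : Finset κ} {A : Set (ι → ℚ)} {V V' : Submodule ℚ (ι → ℚ)}
  {T R : Finset ι} {J J' Y Z : Finset κ} {W : Finset ι} {w₀ : ι} {t : ι → ℚ}

/-- The system of a vector configuration: `A = {x | ∑ x_i e_i = one}`, `V` = the relations.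

Proof. `ne`: `h1`; `col`: apply `L k`; `pn`: let `S` be acyclic with zero flat direction; the point
`p` of its flat; `ρ = Sᶜ` is linearly independent (relations supported on `ρ` are in `cutV V S`)
and `one` is in its span (`p`).  `H` gives `v ∈ ρ` and `k`: `k' ∈ U c C S v` iff `c k' i = δ_{iv}`
on `ρ` iff `k' = k`. -/
theorem sys_of_config {W : Type} [AddCommGroup W] [Module ℚ W] (e : ι → W) (C : Finset κ)
    (L : κ → W →ₗ[ℚ] ℚ) (c : κ → ι → ℕ) (hc : ∀ k ∈ C, ∀ i, L k (e i) = c k i) (one : W)
    (h1 : one ∈ Submodule.span ℚ (Set.range e)) (hL : ∀ k ∈ C, L k one = 1)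
    (H : ∀ ρ : Finset ι, LinearIndependent ℚ (fun i : ρ => e i) →
      one ∈ Submodule.span ℚ (e '' (ρ : Set ι)) →
      ∃ v ∈ ρ, ∃ k ∈ C, ∀ k' ∈ C, (∀ i ∈ ρ, c k' i = if i = v then 1 else 0) ↔ k' = k)
    (V : Submodule ℚ (ι → ℚ)) (hV : ∀ ξ, ξ ∈ V ↔ ∑ i, ξ i • e i = 0) :
    Sys c C C {x | ∑ i, x i • e i = one} V ∅ := by
  classical
  have hap : ∀ k ∈ C, ∀ x : ι → ℚ, L k (∑ i, x i • e i) = ∑ i, (c k i : ℚ) * x i := by
    intro k hk x
    rw [map_sum]
    refine Finset.sum_congr rfl fun i _ => ?_
    rw [map_smul, hc k hk i, smul_eq_mul, mul_comm]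
  refine ⟨?_, ?_, ?_, ?_, Finset.Subset.refl C, ?_⟩
  · rw [← Fintype.range_linearCombination ℚ e] at h1
    obtain ⟨x, hx⟩ := h1
    exact ⟨x, by rw [← hx]; rfl⟩
  · intro x hx y
    have hx' : ∑ i, x i • e i = one := hx
    rw [hV, Set.mem_ofPred_eq]
    have h2 : ∑ i, (y - x) i • e i = ∑ i, y i • e i - one := by
      rw [← hx', ← Finset.sum_sub_distrib]
      exact Finset.sum_congr rfl fun i _ => by rw [Pi.sub_apply, sub_smul]
    rw [h2, sub_eq_zero]
  · intro x _ f hf
    exact absurd hf (Finset.notMem_empty f)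
  · intro k hk x hx
    have hx' : ∑ i, x i • e i = one := hx
    rw [← hap k hk x, hx', hL k hk]
  · intro S hS hfull
    obtain ⟨p, hpA, hp⟩ := hS.ne
    have hpA' : ∑ i, p i • e i = one := hpA
    have hind : LinearIndependent ℚ (fun i : (Sᶜ : Finset ι) => e i) := by
      rw [Fintype.linearIndependent_iff]
      intro g hg i
      have h3 := hfull (fun j => if h : j ∈ (Sᶜ : Finset ι) then g ⟨j, h⟩ else 0) ?_ ?_
      · have h4 := congrFun h3 (i : ι)
        rw [dif_pos i.2] at h4
        exact h4
      · rw [hV]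
        have h5 : ∑ j : (Sᶜ : Finset ι), (if h : (j : ι) ∈ (Sᶜ : Finset ι) then g ⟨j, h⟩ else 0) •
            e j = 0 := by
          rw [← hg]
          refine Finset.sum_congr rfl fun j _ => ?_
          rw [dif_pos j.2]
        rw [Finset.sum_coe_sort (Sᶜ : Finset ι)
          (fun j => (if h : j ∈ (Sᶜ : Finset ι) then g ⟨j, h⟩ else 0) • e j)] at h5
        rw [← h5]
        symm
        refine Finset.sum_subset (Finset.subset_univ _) fun j _ hj => ?_
        rw [dif_neg hj, zero_smul]
      · intro f hf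
        exact dif_neg fun h => (Finset.mem_compl.1 h) hf
    have hspan : one ∈ Submodule.span ℚ (e '' ((Sᶜ : Finset ι) : Set ι)) := by
      rw [← hpA']
      refine Submodule.sum_mem _ fun i _ => ?_
      by_cases hi : i ∈ S
      · rw [hp i hi, zero_smul]
        exact Submodule.zero_mem _
      · exact Submodule.smul_mem _ _ (Submodule.subset_span
          ⟨i, by rw [Finset.mem_coe, Finset.mem_compl]; exact hi, rfl⟩)
    obtain ⟨v, hv, k, hk, hu⟩ := H Sᶜ hind hspan
    refine ⟨v, k, ?_, ?_, hk⟩
    · rw [Finset.empty_union]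
      exact Finset.mem_compl.1 hv
    · ext k'
      rw [mem_U, Finset.mem_singleton, Finset.empty_union]
      constructor
      · rintro ⟨h3, h4, h5⟩
        refine (hu k' h3).1 fun i hi => ?_
        split_ifs with h6
        · rw [h6]
          exact h4
        · by_contra h7
          exact (h5 i h7).elim (fun h => (Finset.mem_compl.1 hi) h) h6
      · intro h3
        have h4 : k' ∈ C := by
          rw [h3]
          exact hk
        have h5 := (hu k' h4).2 h3
        refine ⟨h4, by rw [h5 v hv, if_pos rfl], fun i hi => ?_⟩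
        by_contra h6
        push Not at h6
        have h7 := h5 i (Finset.mem_compl.2 h6.1)
        rw [if_neg h6.2] at h7
        exact hi h7

end MPb07157.SK
end
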