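import Pool.Agent.Lib.MP_b07157_ag.EX.Geo

section

/-!
# Rigid deficits: definitions

The notation (`c k e`, `C`, `A`, `V`, `T`, `U`, `Own`, `cutA`, `cutV`, `Acy`, `Sys`, `sup`, `PU`,
`NCs`, `Q0`) is that of `EX/Defs.lean`.  Memo: `MP_b07157_ag_shrink_helper35.md`.
-/

namespace MPb07157.SK

open Finset Module MPb07157.EX

variable {ι κ : Type} [Fintype ι] [DecidableEq ι] [DecidableEq κ]

/-- Systems without the hypothesis on states. -/
structure Pre (c : κ → ι → ℕ) (C : Finset κ) (A : Set (ι → ℚ)) (V : Submodule ℚ (ι → ℚ))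
    (T : Finset ι) : Prop where
  ne : A.Nonempty
  aff : ∀ x ∈ A, ∀ y, y ∈ A ↔ y - x ∈ V
  zero : ∀ x ∈ A, ∀ f ∈ T, x f = 0
  col : ∀ k ∈ C, ∀ x ∈ A, ∑ e, (c k e : ℚ) * x e = 1

/-- States: acyclic sets of elements whose flat is a point. -/
structure St (A : Set (ι → ℚ)) (V : Submodule ℚ (ι → ℚ)) (S : Finset ι) : Prop where
  acy : Acy A V S
  pt : ∀ ξ ∈ V, (∀ f ∈ S, ξ f = 0) → ξ = 0

/-- Families of pairwise disjoint columns with values 0, 1 (outside `T`). -/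
structure Fam (c : κ → ι → ℕ) (C : Finset κ) (T : Finset ι) (J : Finset κ) : Prop where
  sub : J ⊆ C
  zo : ∀ k ∈ J, ∀ e, e ∉ T → c k e ≤ 1
  dj : ∀ k ∈ J, ∀ k' ∈ J, ∀ e, e ∉ T → c k e ≠ 0 → c k' e ≠ 0 → k = k'

/-- Deficits. -/
structure Dfc (c : κ → ι → ℕ) (C : Finset κ) (V : Submodule ℚ (ι → ℚ)) (T : Finset ι)
    (J : Finset κ) : Prop where
  fam : Fam c C T J
  ne : J.Nonempty
  num : (PU c T J).card + 1 ≤ 2 * J.card + finrank ℚ (cutV V (PU c T J)ᶜ)

/-- Minimal deficits. -/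
structure MinD (c : κ → ι → ℕ) (C : Finset κ) (V : Submodule ℚ (ι → ℚ)) (T : Finset ι)
    (J : Finset κ) : Prop where
  dfc : Dfc c C V T J
  min : ∀ Y, Y ⊂ J → ¬ Dfc c C V T Y

/-- Rigid families: no subfamily can be exchanged for another family with the same number of
columns and the same sum. -/
def Rigid (c : κ → ι → ℕ) (C : Finset κ) (T : Finset ι) (J : Finset κ) : Prop :=
  ∀ H, H ⊆ J → ∀ H', H' ⊆ C → H'.card = H.card →
    (∀ e, e ∉ T → ∑ k ∈ H', c k e = ∑ k ∈ H, c k e) → H' = H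

/-- `Y` is a partition of `W` into pairs. -/
structure JJ (c : κ → ι → ℕ) (C : Finset κ) (W : Finset ι) (Y : Finset κ) : Prop where
  sub : Y ⊆ C
  one : ∀ e ∈ W, ∑ k ∈ Y, c k e = 1
  two : ∀ k ∈ Y, ∑ e ∈ W, c k e = 2

/-- `Y` is a partition of `W` into pairs, and all columns of `Y` vanish outside `T ∪ W`. -/
structure Mat (c : κ → ι → ℕ) (C : Finset κ) (T W : Finset ι) (Y : Finset κ) : Prop where
  jj : JJ c C W Y
  supp : ∀ k ∈ Y, ∀ e, c k e ≠ 0 → e ∈ T ∨ e ∈ W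

/-- A circuit `W` with direction `t` and a chosen element `w₀ ∈ W`. -/
structure Circ (V : Submodule ℚ (ι → ℚ)) (t : ι → ℚ) (W : Finset ι) (w₀ : ι) : Prop where
  tV : t ∈ V
  tW : ∀ e, t e ≠ 0 ↔ e ∈ W
  w0 : w₀ ∈ W
  circ : ∀ ξ ∈ V, (∀ e, e ∉ W → ξ e = 0) → ∃ r : ℚ, ξ = r • t
  sum : ∑ e ∈ W, t e = 0

/-- The linear part of the map that replaces `W` by the one element `w₀`, whose coordinate is the
sum of the coordinates of `W`. -/
def phiL (W : Finset ι) (w₀ : ι) : (ι → ℚ) →ₗ[ℚ] (ι → ℚ) where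
  toFun ξ := fun e => if e = w₀ then ∑ v ∈ W, ξ v else if e ∈ W then 0 else ξ e
  map_add' a b := by
    funext e
    simp only [Pi.add_apply]
    split_ifs
    · exact Finset.sum_add_distrib
    · rw [add_zero]
    · rfl
  map_smul' r a := by
    funext e
    simp only [Pi.smul_apply, smul_eq_mul, RingHom.id_apply]
    split_ifs
    · rw [Finset.mul_sum]
    · rw [mul_zero]
    · rfl

/-- The affine map: the new coordinate is `∑_W x_e - (|W| / 2 - 1)`. -/
def phiA (W : Finset ι) (w₀ : ι) (x : ι → ℚ) : ι → ℚ :=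
  fun e => phiL W w₀ x e - if e = w₀ then (W.card : ℚ) / 2 - 1 else 0

/-- The shrunk affine space. -/
def Ab (W : Finset ι) (w₀ : ι) (A : Set (ι → ℚ)) : Set (ι → ℚ) := phiA W w₀ '' A

/-- The direction of the shrunk affine space. -/
def Vb (W : Finset ι) (w₀ : ι) (V : Submodule ℚ (ι → ℚ)) : Submodule ℚ (ι → ℚ) :=
  V.map (phiL W w₀)

/-- The shrunk columns: the columns that vanish on `W`, and one column for every partition of `W`
into pairs. -/
def cb (c : κ → ι → ℕ) (W : Finset ι) (w₀ : ι) : κ ⊕ Finset κ → ι → ℕ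
  | Sum.inl k => fun e => if e ∈ W then 0 else c k e
  | Sum.inr Y => fun e => if e = w₀ then 1 else if e ∈ W then 0 else ∑ k ∈ Y, c k e

open Classical in
/-- The family of the shrunk columns. -/
noncomputable def Cb (c : κ → ι → ℕ) (C : Finset κ) (W : Finset ι) : Finset (κ ⊕ Finset κ) :=
  (C.filter fun k => ∀ e ∈ W, c k e = 0).disjSum (C.powerset.filter fun Y => JJ c C W Y)

/-- The columns of `J` that vanish on `W`. -/
def J0 (c : κ → ι → ℕ) (W : Finset ι) (J : Finset κ) : Finset κ :=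
  J.filter fun k => ∀ e ∈ W, c k e = 0

/-- The columns of `J` that do not vanish on `W`. -/
def JW (c : κ → ι → ℕ) (W : Finset ι) (J : Finset κ) : Finset κ :=
  J.filter fun k => ¬ ∀ e ∈ W, c k e = 0

end MPb07157.SK
end

section

/-!
# Basic facts on systems
-/

set_option linter.unusedSectionVars false

namespace MPb07157.SK

open Finset Module MPb07157.EX

variable {ι κ : Type} [Fintype ι] [DecidableEq ι] [DecidableEq κ]
variable {c : κ → ι → ℕ} {C : Finset κ} {A : Set (ι → ℚ)} {V V' : Submodule ℚ (ι → ℚ)}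
  {T R : Finset ι} {J J' Y Z : Finset κ} {W : Finset ι} {w₀ : ι} {t : ι → ℚ}

theorem mem_sup' {k : κ} {e : ι} : e ∈ EX.sup c T k ↔ e ∉ T ∧ c k e ≠ 0 := by
  unfold EX.sup
  rw [Finset.mem_filter]
  exact ⟨fun h => h.2, fun h => ⟨Finset.mem_univ _, h⟩⟩

theorem mem_PU {e : ι} : e ∈ PU c T J ↔ e ∉ T ∧ ∃ k ∈ J, c k e ≠ 0 := by
  unfold PU
  rw [Finset.mem_biUnion]
  constructor
  · rintro ⟨k, hk, h⟩
    rw [mem_sup'] at h
    exact ⟨h.1, k, hk, h.2⟩
  · rintro ⟨h1, k, hk, h⟩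
    exact ⟨k, hk, mem_sup'.2 ⟨h1, h⟩⟩

theorem Pre.of_sys (h : Sys c C C A V T) : Pre c C A V T := ⟨h.ne, h.aff, h.zero, h.col⟩

/-- Directions are differences of points of `A`. -/
theorem Pre.add_mem (h : Pre c C A V T) {x ξ : ι → ℚ} (hx : x ∈ A) (hξ : ξ ∈ V) : x + ξ ∈ A := by
  rw [h.aff x hx, add_sub_cancel_left]
  exact hξ

/-- `V` vanishes on `T`: take `x ∈ A`, `x + ξ ∈ A`, `Pre.zero`. -/
theorem Pre.vT (h : Pre c C A V T) {ξ : ι → ℚ} (hξ : ξ ∈ V) {f : ι} (hf : f ∈ T) : ξ f = 0 := by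
  obtain ⟨x, hx⟩ := h.ne
  have h1 := h.zero x hx f hf
  have h2 := h.zero _ (h.add_mem hx hξ) f hf
  rw [Pi.add_apply, h1, zero_add] at h2
  exact h2

/-- The linear part of the unit equation. -/
theorem Pre.colV (h : Pre c C A V T) {k : κ} (hk : k ∈ C) {ξ : ι → ℚ} (hξ : ξ ∈ V) :
    ∑ e, (c k e : ℚ) * ξ e = 0 := by
  obtain ⟨x, hx⟩ := h.ne
  have h1 := h.col k hk x hx
  have h2 := h.col k hk _ (h.add_mem hx hξ)
  have h3 : ∑ e, (c k e : ℚ) * (x + ξ) e
      = ∑ e, (c k e : ℚ) * x e + ∑ e, (c k e : ℚ) * ξ e := by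
    rw [← Finset.sum_add_distrib]
    refine Finset.sum_congr rfl fun e _ => ?_
    rw [Pi.add_apply, mul_add]
  rw [h3, h1] at h2
  linarith

/-- A column does not vanish outside `T` (unit equation at a point of `A`). -/
theorem Pre.sup_ne (h : Pre c C A V T) {k : κ} (hk : k ∈ C) : (EX.sup c T k).Nonempty := by
  by_contra hne
  rw [Finset.not_nonempty_iff_eq_empty] at hne
  obtain ⟨x, hx⟩ := h.ne
  have h1 := h.col k hk x hx
  have h2 : ∑ e, (c k e : ℚ) * x e = 0 := by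
    refine Finset.sum_eq_zero fun e _ => ?_
    by_cases he : e ∈ T
    · rw [h.zero x hx e he, mul_zero]
    · by_cases hc : c k e = 0
      · rw [hc, Nat.cast_zero, zero_mul]
      · exact absurd (mem_sup'.2 ⟨he, hc⟩ : e ∈ EX.sup c T k) (by rw [hne]; simp)
  rw [h2] at h1
  exact zero_ne_one h1

/-- A flat of a system is a system. -/
theorem Pre.cut (h : Pre c C A V T) (hR : ∃ p ∈ A, ∀ f ∈ R, p f = 0) :
    Pre c C (cutA A R) (cutV V R) (T ∪ R) := by
  obtain ⟨p, hp, hpR⟩ := hR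
  refine ⟨⟨p, hp, hpR⟩, fun x hx y => ?_, fun x hx f hf => ?_, fun k hk x hx => h.col k hk x hx.1⟩
  · constructor
    · rintro ⟨hy, hyR⟩
      refine ⟨(h.aff x hx.1 y).1 hy, fun f hf => ?_⟩
      rw [Pi.sub_apply, hyR f hf, hx.2 f hf, sub_zero]
    · rintro ⟨hy, hyR⟩
      refine ⟨(h.aff x hx.1 y).2 hy, fun f hf => ?_⟩
      have h1 := hyR f hf
      rw [Pi.sub_apply, hx.2 f hf, sub_zero] at h1
      exact h1
  · rcases Finset.mem_union.1 hf with hf | hf
    · exact h.zero x hx.1 f hf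
    · exact hx.2 f hf

/-- Acyclic sets are disjoint from `T`. -/
theorem Pre.acy_disj (h : Pre c C A V T) {S : Finset ι} (hS : Acy A V S) : Disjoint S T := by
  rw [Finset.disjoint_left]
  intro f hf hfT
  obtain ⟨ξ, hξ, hpos⟩ := hS.pos
  have h1 := hpos f hf
  rw [h.vT hξ hfT] at h1
  exact lt_irrefl _ h1

end MPb07157.SK
end
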