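import Pool.Agent.Lib.MP_b07157_ag.SK.B1

/-!
# Families, deficits
-/

set_option linter.unusedSectionVars false

namespace MPb07157.SK

open Finset Module MPb07157.EX

variable {ι κ : Type} [Fintype ι] [DecidableEq ι] [DecidableEq κ]
variable {c : κ → ι → ℕ} {C : Finset κ} {A : Set (ι → ℚ)} {V V' : Submodule ℚ (ι → ℚ)}
  {T R : Finset ι} {J J' Y Z : Finset κ} {W : Finset ι} {w₀ : ι} {t : ι → ℚ}

theorem Fam.mono (h : Fam c C T J) (hJ : J' ⊆ J) : Fam c C T J' :=
  ⟨hJ.trans h.sub, fun k hk => h.zo k (hJ hk), fun k hk k' hk' => h.dj k (hJ hk) k' (hJ hk')⟩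

theorem Rigid.mono (h : Rigid c C T J) (hJ : J' ⊆ J) : Rigid c C T J' :=
  fun H hH => h H (hH.trans hJ)

/-- Fewer equations are needed in the flat. -/
theorem Rigid.up (h : Rigid c C (T ∪ R) J) : Rigid c C T J := by
  intro H hH H' hH' hc hs
  refine h H hH H' hH' hc fun e he => hs e fun h' => he (Finset.mem_union_left _ h')

/-- The supports of a disjoint family are disjoint. -/
theorem Fam.card_PU (h : Fam c C T J) : (PU c T J).card = ∑ k ∈ J, (EX.sup c T k).card := by
  rw [PU]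
  apply Finset.card_biUnion
  intro k hk k' hk' hne
  refine Finset.disjoint_left.2 ?_
  intro e he he'
  rw [EX.sup, Finset.mem_filter] at he he'
  exact hne (h.dj k hk k' hk' e he.2.1 he.2.2 he'.2.2)

private theorem b3_cutV_mono (hV : V' ≤ V) (R : Finset ι) : cutV V' R ≤ cutV V R :=
  fun _ hξ => ⟨hV hξ.1, hξ.2⟩

private theorem b3_rank_mono (hV : V' ≤ V) (R : Finset ι) :
    finrank ℚ (cutV V' R) ≤ finrank ℚ (cutV V R) :=
  Submodule.finrank_mono (b3_cutV_mono hV R)

theorem Dfc.mono_V (h : Dfc c C V' T J) (hV : V' ≤ V) : Dfc c C V T J :=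
  ⟨h.fam, h.ne, h.num.trans (Nat.add_le_add_left (b3_rank_mono hV _) _)⟩

/-- A deficit of a flat whose columns vanish on `R` is a deficit. -/
theorem Dfc.up (h : Dfc c C (cutV V R) (T ∪ R) J) (h0 : ∀ k ∈ J, ∀ e ∈ R, c k e = 0) :
    Dfc c C V T J := by
  have hPU : PU c T J = PU c (T ∪ R) J := by
    rw [PU, PU]
    apply Finset.biUnion_congr rfl
    intro k hk
    ext e
    rw [EX.sup, EX.sup, Finset.mem_filter, Finset.mem_filter, Finset.mem_union]
    constructor
    · rintro ⟨hu, hT, hc⟩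
      refine ⟨hu, ?_, hc⟩
      rintro (h1 | h1)
      · exact hT h1
      · exact hc (h0 k hk e h1)
    · rintro ⟨hu, hT, hc⟩
      exact ⟨hu, fun h1 => hT (Or.inl h1), hc⟩
  have hnot : ∀ k ∈ J, ∀ e, e ∉ T → c k e ≠ 0 → e ∉ T ∪ R := by
    intro k hk e he hc h1
    rw [Finset.mem_union] at h1
    rcases h1 with h1 | h1
    · exact he h1
    · exact hc (h0 k hk e h1)
  refine ⟨⟨h.fam.sub, ?_, ?_⟩, h.ne, ?_⟩
  · intro k hk e he
    by_cases hc : c k e = 0
    · rw [hc]
      exact Nat.zero_le 1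
    · exact h.fam.zo k hk e (hnot k hk e he hc)
  · intro k hk k' hk' e he hc hc'
    exact h.fam.dj k hk k' hk' e (hnot k hk e he hc) hc hc'
  · rw [hPU]
    refine h.num.trans (Nat.add_le_add_left ?_ _)
    apply b3_rank_mono
    exact fun _ hξ => hξ.1

/-- Every deficit contains a minimal deficit. -/
theorem Dfc.exists_min (h : Dfc c C V T J) : ∃ J' ⊆ J, MinD c C V T J' := by
  induction J using Finset.strongInduction with
  | H J ih =>
    by_cases hmin : ∀ Y, Y ⊂ J → ¬ Dfc c C V T Y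
    · exact ⟨J, Finset.Subset.refl _, h, hmin⟩
    · push Not at hmin
      obtain ⟨Y, hY, hd⟩ := hmin
      obtain ⟨J', hJ', hm⟩ := ih Y hY hd
      exact ⟨J', hJ'.trans hY.subset, hm⟩

end MPb07157.SK
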