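import Pool.Agent.Lib.MP_b07157_ag.EX.L4
import Pool.Agent.Lib.MP_b07157_ag.SK.B1

section

/-!
# Weak duality for rigid deficits
-/

namespace MPb07157.EX

open Finset Module

variable {ι κ : Type} [Fintype ι] [DecidableEq ι] [DecidableEq κ]
variable {c : κ → ι → ℕ} {N : Finset κ} {V : Submodule ℚ (ι → ℚ)}

/-- a family is rigid: it has no subfamily with another family with the same support and the same
number of elements -/
def Rig (c : κ → ι → ℕ) (N J : Finset κ) : Prop :=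
  ∀ H ⊆ J, ∀ H' ⊆ N, (∀ k ∈ H', ∀ e, c k e ≤ 1) →
    (∀ k ∈ H', ∀ k' ∈ H', ∀ e, c k e ≠ 0 → c k' e ≠ 0 → k = k') →
    PU c ∅ H' = PU c ∅ H → H'.card = H.card → H' = H

omit [DecidableEq κ] in
theorem mem_PU {T : Finset ι} {Y : Finset κ} {e : ι} :
    e ∈ PU c T Y ↔ ∃ k ∈ Y, e ∉ T ∧ c k e ≠ 0 := by
  unfold PU
  rw [Finset.mem_biUnion]
  exact exists_congr fun k => and_congr_right fun _ => mem_sup

/-- the linear algebra of weak duality: `|P ∩ S| < dim V(P) + |H|` vectors orthogonal to `V(P)` are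
dependent -/
theorem dep_of_card {S P : Finset ι} {H : Finset κ} (F : κ → ι → ℚ)
    (hfull : ∀ ξ ∈ V, (∀ f ∈ S, ξ f = 0) → ξ = 0)
    (horth : ∀ k ∈ H, ∀ ξ ∈ cutV V Pᶜ, ∑ g ∈ P ∩ S, F k g * ξ g = 0)
    (hcard : (P ∩ S).card + 1 ≤ finrank ℚ (cutV V Pᶜ) + H.card) :
    ∃ l : κ → ℚ, (∃ k ∈ H, l k ≠ 0) ∧ ∀ g ∈ P ∩ S, ∑ k ∈ H, l k * F k g = 0 := by
  classical
  let Ψ : (cutV V Pᶜ × (H → ℚ)) →ₗ[ℚ] ((P ∩ S : Finset ι) → ℚ) :=
    { toFun := fun x g => (x.1 : ι → ℚ) g + ∑ k : H, x.2 k * F k g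
      map_add' := by
        intro x y
        funext g
        simp only [Prod.fst_add, Prod.snd_add, Submodule.coe_add, Pi.add_apply, add_mul,
          Finset.sum_add_distrib]
        ring
      map_smul' := by
        intro r x
        funext g
        simp only [Prod.smul_fst, Prod.smul_snd, Submodule.coe_smul, Pi.smul_apply, smul_eq_mul,
          RingHom.id_apply, mul_add, Finset.mul_sum]
        congr 1
        exact Finset.sum_congr rfl fun k _ => by ring }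
  have hker : LinearMap.ker Ψ ≠ ⊥ := by
    apply LinearMap.ker_ne_bot_of_finrank_lt
    rw [Module.finrank_prod, Module.finrank_fintype_fun_eq_card,
      Module.finrank_fintype_fun_eq_card, Fintype.card_coe, Fintype.card_coe]
    omega
  obtain ⟨⟨ξ, l⟩, hmem, hne⟩ := (Submodule.ne_bot_iff _).1 hker
  rw [LinearMap.mem_ker] at hmem
  have hval : ∀ g ∈ P ∩ S, (ξ : ι → ℚ) g + ∑ k : H, l k * F k g = 0 := fun g hg =>
    congrFun hmem ⟨g, hg⟩
  -- `ξ = 0`
  have hsq : ∑ g ∈ P ∩ S, (ξ : ι → ℚ) g * (ξ : ι → ℚ) g = 0 := by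
    have h1 : ∑ g ∈ P ∩ S, ((ξ : ι → ℚ) g + ∑ k : H, l k * F k g) * (ξ : ι → ℚ) g = 0 :=
      Finset.sum_eq_zero fun g hg => by rw [hval g hg, zero_mul]
    have h2 : ∑ g ∈ P ∩ S, (∑ k : H, l k * F k g) * (ξ : ι → ℚ) g = 0 := by
      simp only [Finset.sum_mul]
      rw [Finset.sum_comm]
      apply Finset.sum_eq_zero
      intro k _
      have h3 := horth k k.2 ξ ξ.2
      calc ∑ g ∈ P ∩ S, l k * F k g * (ξ : ι → ℚ) g
          = l k * ∑ g ∈ P ∩ S, F k g * (ξ : ι → ℚ) g := by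
            rw [Finset.mul_sum]
            exact Finset.sum_congr rfl fun g _ => by ring
        _ = 0 := by rw [h3, mul_zero]
    simp only [add_mul, Finset.sum_add_distrib] at h1
    linarith
  have hξ0 : (ξ : ι → ℚ) = 0 := by
    apply hfull _ ξ.2.1
    intro f hf
    by_cases hfP : f ∈ P
    · have h1 := (Finset.sum_eq_zero_iff_of_nonneg (fun g _ => mul_self_nonneg _)).1 hsq f
        (Finset.mem_inter.2 ⟨hfP, hf⟩)
      exact mul_self_eq_zero.1 h1
    · exact ξ.2.2 f (Finset.mem_compl.2 hfP)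
  refine ⟨fun k => if h : k ∈ H then l ⟨k, h⟩ else 0, ?_, ?_⟩
  · by_contra hcon
    push Not at hcon
    apply hne
    have hl : l = 0 := by
      funext k
      have := hcon k k.2
      rw [dif_pos k.2] at this
      exact this
    rw [hl, Prod.mk_eq_zero]
    exact ⟨Subtype.ext hξ0, rfl⟩
  · intro g hg
    have h1 := hval g hg
    rw [hξ0, Pi.zero_apply, zero_add] at h1
    refine Eq.trans ?_ h1
    rw [← Finset.sum_coe_sort H]
    refine Finset.sum_congr rfl fun k _ => ?_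
    show (if h : (k : κ) ∈ H then l ⟨k, h⟩ else 0) * F k g = l k * F k g
    rw [dif_pos k.2]

/-- WEAK DUALITY -/
theorem wd {p ξ : ι → ℚ} {S : Finset ι} (hcolp : ∀ k ∈ N, ∑ e, (c k e : ℚ) * p e = 1)
    (hcolV : ∀ k ∈ N, ∀ ξ ∈ V, ∑ e, (c k e : ℚ) * ξ e = 0) (hp : ∀ e ∈ S, p e = 0)
    (hξV : ξ ∈ V) (hξ : ∀ e ∈ S, 0 < ξ e) (hfull : ∀ ξ ∈ V, (∀ f ∈ S, ξ f = 0) → ξ = 0)
    {J : Finset κ} (hsub : J ⊆ N) (hzo : ∀ k ∈ J, ∀ e, c k e ≤ 1)
    (hdj : ∀ k ∈ J, ∀ k' ∈ J, ∀ e, c k e ≠ 0 → c k' e ≠ 0 → k = k')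
    (hrk : (PU c ∅ J).card + 1 ≤ 2 * J.card + finrank ℚ (cutV V (PU c ∅ J)ᶜ))
    (hrig : Rig c N J) : ∃ k ∈ J, ∃ w, Own c N N S w k := by
  classical
  by_contra hcon
  push Not at hcon
  have hsupp : ∀ k, ∀ e, e ∈ sup c ∅ k ↔ c k e ≠ 0 := fun k e => by
    rw [mem_sup]
    exact ⟨fun h => h.2, fun h => ⟨Finset.notMem_empty e, h⟩⟩
  have hPU : ∀ Y : Finset κ, ∀ e, e ∈ PU c ∅ Y ↔ ∃ k ∈ Y, c k e ≠ 0 := fun Y e => by
    rw [mem_PU]
    exact exists_congr fun k => and_congr_right fun _ =>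
      ⟨fun h => h.2, fun h => ⟨Finset.notMem_empty e, h⟩⟩
  have hone : ∀ k ∈ J, ∀ e, c k e ≠ 0 → c k e = 1 := fun k hk e he => by
    have h1 := hzo k hk e
    have h2 := Nat.one_le_iff_ne_zero.2 he
    omega
  -- the supports are not in `S`
  have hge1 : ∀ k ∈ J, 1 ≤ (sup c ∅ k \ S).card := by
    intro k hk
    rw [Nat.one_le_iff_ne_zero, Ne, Finset.card_eq_zero]
    intro h
    have h1 := hcolp k (hsub hk)
    have h2 : ∑ e, (c k e : ℚ) * p e = 0 := by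
      apply Finset.sum_eq_zero
      intro e _
      by_cases he : c k e = 0
      · rw [he, Nat.cast_zero, zero_mul]
      · by_cases heS : e ∈ S
        · rw [hp e heS, mul_zero]
        · have : e ∈ sup c ∅ k \ S := Finset.mem_sdiff.2 ⟨(hsupp k e).2 he, heS⟩
          rw [h] at this
          exact absurd this (Finset.notMem_empty e)
    rw [h2] at h1
    exact zero_ne_one h1
  let H : Finset κ := J.filter fun k => (sup c ∅ k \ S).card = 1
  have hHJ : H ⊆ J := Finset.filter_subset _ _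
  have hcardH : 2 * J.card ≤ (PU c ∅ J \ S).card + H.card := by
    have h1 : PU c ∅ J \ S = J.biUnion fun k => sup c ∅ k \ S := by
      ext e
      rw [Finset.mem_sdiff, hPU, Finset.mem_biUnion]
      constructor
      · rintro ⟨⟨k, hk, hke⟩, heS⟩
        exact ⟨k, hk, Finset.mem_sdiff.2 ⟨(hsupp k e).2 hke, heS⟩⟩
      · rintro ⟨k, hk, hke⟩
        rw [Finset.mem_sdiff, hsupp] at hke
        exact ⟨⟨k, hk, hke.1⟩, hke.2⟩
    have h2 : (PU c ∅ J \ S).card = ∑ k ∈ J, (sup c ∅ k \ S).card := by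
      rw [h1]
      apply Finset.card_biUnion
      intro k hk k' hk' hne
      show Disjoint (sup c ∅ k \ S) (sup c ∅ k' \ S)
      rw [Finset.disjoint_left]
      intro e h3 h4
      rw [Finset.mem_sdiff, hsupp] at h3 h4
      exact hne (hdj k hk k' hk' e h3.1 h4.1)
    have h3 : H.card = ∑ k ∈ J, if (sup c ∅ k \ S).card = 1 then 1 else 0 := by
      rw [Finset.card_filter]
    rw [h2, h3, ← Finset.sum_add_distrib, mul_comm, ← smul_eq_mul, ← Finset.sum_const]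
    apply Finset.sum_le_sum
    intro k hk
    have h4 := hge1 k hk
    by_cases h5 : (sup c ∅ k \ S).card = 1
    · rw [if_pos h5]
      omega
    · rw [if_neg h5]
      omega
  have hcard : (PU c ∅ J ∩ S).card + 1 ≤ finrank ℚ (cutV V (PU c ∅ J)ᶜ) + H.card := by
    have h1 := Finset.card_inter_add_card_sdiff (PU c ∅ J) S
    omega
  -- twins
  have htwin : ∀ k ∈ H, ∃ w k', w ∉ S ∧ c k w = 1 ∧ (∀ e, c k e ≠ 0 → e ∈ S ∨ e = w) ∧
      k' ∈ N ∧ k' ≠ k ∧ c k' w = 1 ∧ ∀ e, c k' e ≠ 0 → e ∈ S ∨ e = w := by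
    intro k hk
    obtain ⟨hkJ, hk1⟩ := Finset.mem_filter.1 hk
    obtain ⟨w, hw⟩ := Finset.card_eq_one.1 hk1
    have hwm : w ∈ sup c ∅ k \ S := by rw [hw]; exact Finset.mem_singleton_self w
    rw [Finset.mem_sdiff, hsupp] at hwm
    have hks : ∀ e, c k e ≠ 0 → e ∈ S ∨ e = w := by
      intro e he
      by_cases heS : e ∈ S
      · exact Or.inl heS
      · right
        have : e ∈ sup c ∅ k \ S := Finset.mem_sdiff.2 ⟨(hsupp k e).2 he, heS⟩
        rw [hw, Finset.mem_singleton] at this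
        exact this
    have hkU : k ∈ U c N S w := mem_U.2 ⟨hsub hkJ, hone k hkJ w hwm.1, hks⟩
    have hne : U c N S w ≠ {k} := fun h => hcon k hkJ w ⟨hwm.2, h, hsub hkJ⟩
    obtain ⟨k', hk', hkk'⟩ : ∃ k' ∈ U c N S w, k' ≠ k := by
      by_contra h
      push Not at h
      exact hne (Finset.eq_singleton_iff_unique_mem.2 ⟨hkU, h⟩)
    rw [mem_U] at hk'
    exact ⟨w, k', hwm.2, hone k hkJ w hwm.1, hks, hk'.1, hkk', hk'.2.1, hk'.2.2⟩
  rcases H.eq_empty_or_nonempty with hH | ⟨k₀, hk₀⟩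
  · obtain ⟨l, ⟨k, hk, -⟩, -⟩ := dep_of_card (V := V) (S := S) (P := PU c ∅ J) (H := H)
      (fun _ _ => 0) hfull (by simp) hcard
    rw [hH] at hk
    exact absurd hk (Finset.notMem_empty k)
  haveI : Nonempty κ := ⟨k₀⟩
  haveI : Nonempty ι := ⟨(htwin k₀ hk₀).choose⟩
  choose! w pr hw using htwin
  have hwS : ∀ k ∈ H, w k ∉ S := fun k hk => (hw k hk).1
  have hkw : ∀ k ∈ H, c k (w k) = 1 := fun k hk => (hw k hk).2.1
  have hks : ∀ k ∈ H, ∀ e, c k e ≠ 0 → e ∈ S ∨ e = w k := fun k hk => (hw k hk).2.2.1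
  have hpN : ∀ k ∈ H, pr k ∈ N := fun k hk => (hw k hk).2.2.2.1
  have hpk : ∀ k ∈ H, pr k ≠ k := fun k hk => (hw k hk).2.2.2.2.1
  have hpw : ∀ k ∈ H, c (pr k) (w k) = 1 := fun k hk => (hw k hk).2.2.2.2.2.1
  have hps : ∀ k ∈ H, ∀ e, c (pr k) e ≠ 0 → e ∈ S ∨ e = w k := fun k hk =>
    (hw k hk).2.2.2.2.2.2
  -- the differences vanish outside `S`
  have hout : ∀ k ∈ H, ∀ e, e ∉ S → c (pr k) e = c k e := by
    intro k hk e heS
    by_cases hew : e = w k
    · rw [hew, hkw k hk, hpw k hk]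
    · have h1 : c (pr k) e = 0 := by
        by_contra h
        rcases hps k hk e h with h2 | h2
        · exact heS h2
        · exact hew h2
      have h2 : c k e = 0 := by
        by_contra h
        rcases hks k hk e h with h2 | h2
        · exact heS h2
        · exact hew h2
      rw [h1, h2]
  obtain ⟨l, ⟨k₁, hk₁, hlk₁⟩, hl⟩ := dep_of_card (V := V) (S := S) (P := PU c ∅ J) (H := H)
    (fun k e => (c (pr k) e : ℚ) - c k e) hfull (by
      intro k hk η hη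
      have h1 : ∑ e, ((c (pr k) e : ℚ) - c k e) * η e = 0 := by
        simp only [sub_mul, Finset.sum_sub_distrib]
        rw [hcolV _ (hpN k hk) η hη.1, hcolV _ (hsub (hHJ hk)) η hη.1, sub_zero]
      rw [← h1]
      apply Finset.sum_subset (Finset.subset_univ _)
      intro e _ he
      by_cases heS : e ∈ S
      · have heP : e ∉ PU c ∅ J := fun h => he (Finset.mem_inter.2 ⟨h, heS⟩)
        rw [hη.2 e (Finset.mem_compl.2 heP), mul_zero]
      · rw [hout k hk e heS, sub_self, zero_mul]) hcard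
  -- a nonnegative function on `G` that vanishes outside `S` and is orthogonal to `V` is zero
  have hzero : ∀ F : ι → ℚ, (∀ e, 0 ≤ F e) → (∀ e, e ∉ S → F e = 0) →
      ∑ e, F e * ξ e = 0 → ∀ e, F e = 0 := by
    intro F h1 h2 h3 e
    by_cases heS : e ∈ S
    · have h4 : ∀ e ∈ (Finset.univ : Finset ι), 0 ≤ F e * ξ e := by
        intro e _
        by_cases heS : e ∈ S
        · exact mul_nonneg (h1 e) (hξ e heS).le
        · rw [h2 e heS, zero_mul]
      have h5 := (Finset.sum_eq_zero_iff_of_nonneg h4).1 h3 e (Finset.mem_univ e)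
      rcases mul_eq_zero.1 h5 with h6 | h6
      · exact h6
      · exact absurd h6 (hξ e heS).ne'
    · exact h2 e heS
  have horth : ∀ k ∈ H, ∑ e, ((c (pr k) e : ℚ) - c k e) * ξ e = 0 := by
    intro k hk
    simp only [sub_mul, Finset.sum_sub_distrib]
    rw [hcolV _ (hpN k hk) ξ hξV, hcolV _ (hsub (hHJ hk)) ξ hξV, sub_zero]
  -- change the sign
  obtain ⟨l, ⟨k₁, hk₁, hlk₁⟩, hl⟩ : ∃ l : κ → ℚ, (∃ k ∈ H, 0 < l k) ∧
      ∀ g ∈ PU c ∅ J ∩ S, ∑ k ∈ H, l k * ((c (pr k) g : ℚ) - c k g) = 0 := by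
    rcases lt_or_gt_of_ne hlk₁ with h | h
    · refine ⟨fun k => -l k, ⟨k₁, hk₁, by linarith⟩, fun g hg => ?_⟩
      have h1 := hl g hg
      simp only [neg_mul, Finset.sum_neg_distrib]
      rw [h1, neg_zero]
    · exact ⟨l, ⟨k₁, hk₁, h⟩, hl⟩
  let Hp : Finset κ := H.filter fun k => 0 < l k
  have hHp : ∀ k, k ∈ Hp ↔ k ∈ H ∧ 0 < l k := fun k => Finset.mem_filter
  obtain ⟨ka, hka, hmin⟩ := Finset.exists_min_image Hp l ⟨k₁, (hHp k₁).2 ⟨hk₁, hlk₁⟩⟩
  have ha0 : 0 < l ka := ((hHp ka).1 hka).2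
  let Ha : Finset κ := Hp.filter fun k => l k = l ka
  have hHa : ∀ k, k ∈ Ha ↔ k ∈ Hp ∧ l k = l ka := fun k => Finset.mem_filter
  have hHaH : ∀ k ∈ Ha, k ∈ H := fun k hk => ((hHp k).1 ((hHa k).1 hk).1).1
  have hkaHa : ka ∈ Ha := (hHa ka).2 ⟨hka, rfl⟩
  -- the first function
  have hFnn : ∀ e, 0 ≤ ∑ k ∈ Hp, l k * ((c (pr k) e : ℚ) - c k e) := by
    intro e
    by_cases heS : e ∈ S
    swap
    · rw [Finset.sum_eq_zero]
      intro k hk
      rw [hout k ((hHp k).1 hk).1 e heS, sub_self, mul_zero]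
    by_cases heP : e ∈ PU c ∅ J
    swap
    · apply Finset.sum_nonneg
      intro k hk
      have h1 : c k e = 0 := by
        by_contra h
        exact heP ((hPU J e).2 ⟨k, hHJ ((hHp k).1 hk).1, h⟩)
      rw [h1, Nat.cast_zero, sub_zero]
      exact mul_nonneg ((hHp k).1 hk).2.le (Nat.cast_nonneg _)
    obtain ⟨x, hxJ, hxe⟩ := (hPU J e).1 heP
    by_cases hxp : x ∈ Hp
    · have h1 := hl e (Finset.mem_inter.2 ⟨heP, heS⟩)
      rw [← Finset.sum_filter_add_sum_filter_not H (fun k => 0 < l k)] at h1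
      have h2 : ∑ k ∈ H.filter (fun k => ¬ 0 < l k), l k * ((c (pr k) e : ℚ) - c k e) ≤ 0 := by
        apply Finset.sum_nonpos
        intro k hk
        rw [Finset.mem_filter] at hk
        have h3 : c k e = 0 := by
          by_contra h
          have h4 := hdj k (hHJ hk.1) x hxJ e h hxe
          exact hk.2 (h4 ▸ ((hHp x).1 hxp).2)
        rw [h3, Nat.cast_zero, sub_zero]
        exact mul_nonpos_of_nonpos_of_nonneg (not_lt.1 hk.2) (Nat.cast_nonneg _)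
      have h3 : ∑ k ∈ Hp, l k * ((c (pr k) e : ℚ) - c k e) =
        ∑ k ∈ H.filter (fun k => 0 < l k), l k * ((c (pr k) e : ℚ) - c k e) := rfl
      rw [h3]
      linarith
    · apply Finset.sum_nonneg
      intro k hk
      have h1 : c k e = 0 := by
        by_contra h
        have h4 := hdj k (hHJ ((hHp k).1 hk).1) x hxJ e h hxe
        exact hxp (h4 ▸ hk)
      rw [h1, Nat.cast_zero, sub_zero]
      exact mul_nonneg ((hHp k).1 hk).2.le (Nat.cast_nonneg _)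
  have hF0 := hzero (fun e => ∑ k ∈ Hp, l k * ((c (pr k) e : ℚ) - c k e)) hFnn
    (fun e heS => Finset.sum_eq_zero fun k hk => by
      rw [hout k ((hHp k).1 hk).1 e heS, sub_self, mul_zero])
    (by
      simp only [Finset.sum_mul]
      rw [Finset.sum_comm]
      apply Finset.sum_eq_zero
      intro k hk
      have h1 := horth k ((hHp k).1 hk).1
      calc ∑ e, l k * ((c (pr k) e : ℚ) - c k e) * ξ e
          = l k * ∑ e, ((c (pr k) e : ℚ) - c k e) * ξ e := by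
            rw [Finset.mul_sum]
            exact Finset.sum_congr rfl fun e _ => by ring
        _ = 0 := by rw [h1, mul_zero])
  -- the sum of the columns of `Ha`
  have hsumle : ∀ e, ∑ k ∈ Ha, c k e ≤ 1 := by
    intro e
    by_cases h : ∃ x ∈ Ha, c x e ≠ 0
    · obtain ⟨x, hx, hxe⟩ := h
      rw [Finset.sum_eq_single_of_mem x hx]
      · exact hzo x (hHJ (hHaH x hx)) e
      · intro k hk hkx
        by_contra hke
        exact hkx (hdj k (hHJ (hHaH k hk)) x (hHJ (hHaH x hx)) e hke hxe)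
    · push Not at h
      rw [Finset.sum_eq_zero h]
      exact Nat.zero_le 1
  have hFann : ∀ e, 0 ≤ ∑ k ∈ Ha, ((c (pr k) e : ℚ) - c k e) := by
    intro e
    by_cases h : ∃ x ∈ Ha, c x e ≠ 0
    · obtain ⟨x, hx, hxe⟩ := h
      have hx1 : c x e = 1 := hone x (hHJ (hHaH x hx)) e hxe
      have hxp : x ∈ Hp := ((hHa x).1 hx).1
      have hoth : ∀ k ∈ Hp, k ≠ x → c k e = 0 := by
        intro k hk hkx
        by_contra hke
        exact hkx (hdj k (hHJ ((hHp k).1 hk).1) x (hHJ (hHaH x hx)) e hke hxe)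
      have h1 := hF0 e
      simp only [mul_sub, Finset.sum_sub_distrib] at h1
      have h2 : ∑ k ∈ Hp, l k * (c k e : ℚ) = l ka := by
        rw [Finset.sum_eq_single_of_mem x hxp]
        · rw [hx1, Nat.cast_one, mul_one]
          exact ((hHa x).1 hx).2
        · intro k hk hkx
          rw [hoth k hk hkx, Nat.cast_zero, mul_zero]
      rw [h2, sub_eq_zero] at h1
      obtain ⟨k₂, hk₂, hk₂e⟩ : ∃ k ∈ Hp, c (pr k) e ≠ 0 := by
        by_contra hc
        push Not at hc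
        rw [Finset.sum_eq_zero (fun k hk => by rw [hc k hk, Nat.cast_zero, mul_zero])] at h1
        exact ha0.ne h1
      have h3 : l k₂ * (c (pr k₂) e : ℚ) ≤ l ka := by
        rw [← h1]
        exact Finset.single_le_sum (f := fun k => l k * (c (pr k) e : ℚ))
          (fun k hk => mul_nonneg ((hHp k).1 hk).2.le (Nat.cast_nonneg _)) hk₂
      have h4 : (1 : ℚ) ≤ c (pr k₂) e := by exact_mod_cast Nat.one_le_iff_ne_zero.2 hk₂e
      have h5 := hmin k₂ hk₂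
      have h6 : l k₂ = l ka := by
        have : 0 < l k₂ := ((hHp k₂).1 hk₂).2
        nlinarith
      have hk₂a : k₂ ∈ Ha := (hHa k₂).2 ⟨hk₂, h6⟩
      rw [Finset.sum_sub_distrib]
      have h7 : ∑ k ∈ Ha, (c k e : ℚ) ≤ 1 := by exact_mod_cast hsumle e
      have h8 : (c (pr k₂) e : ℚ) ≤ ∑ k ∈ Ha, (c (pr k) e : ℚ) :=
        Finset.single_le_sum (f := fun k => (c (pr k) e : ℚ)) (fun k _ => Nat.cast_nonneg _) hk₂a
      linarith
    · push Not at h
      apply Finset.sum_nonneg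
      intro k hk
      rw [h k hk, Nat.cast_zero, sub_zero]
      exact Nat.cast_nonneg _
  have hFa0 := hzero (fun e => ∑ k ∈ Ha, ((c (pr k) e : ℚ) - c k e)) hFann
    (fun e heS => Finset.sum_eq_zero fun k hk => by
      rw [hout k (hHaH k hk) e heS, sub_self])
    (by
      simp only [Finset.sum_mul]
      rw [Finset.sum_comm]
      exact Finset.sum_eq_zero fun k hk => horth k (hHaH k hk))
  have hswap : ∀ e, ∑ k ∈ Ha, c (pr k) e = ∑ k ∈ Ha, c k e := by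
    intro e
    have h1 := hFa0 e
    simp only [Finset.sum_sub_distrib] at h1
    rw [sub_eq_zero] at h1
    exact_mod_cast h1
  have hinj : Set.InjOn pr (Ha : Set κ) := by
    intro a ha b hb hab
    have ha' := Finset.mem_coe.1 ha
    have hb' := Finset.mem_coe.1 hb
    have h1 : c (pr a) (w b) ≠ 0 := by
      rw [hab, hpw b (hHaH b hb')]
      exact one_ne_zero
    rcases hps a (hHaH a ha') (w b) h1 with h2 | h2
    · exact absurd h2 (hwS b (hHaH b hb'))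
    · apply hdj a (hHJ (hHaH a ha')) b (hHJ (hHaH b hb')) (w a)
      · rw [hkw a (hHaH a ha')]
        exact one_ne_zero
      · rw [← h2, hkw b (hHaH b hb')]
        exact one_ne_zero
  have hle1 : ∀ k ∈ Ha, ∀ e, c (pr k) e ≤ 1 := by
    intro k hk e
    refine le_trans ?_ (hsumle e)
    rw [← hswap e]
    exact Finset.single_le_sum (f := fun k => c (pr k) e) (fun _ _ => Nat.zero_le _) hk
  have hdis : ∀ a ∈ Ha, ∀ b ∈ Ha, ∀ e, c (pr a) e ≠ 0 → c (pr b) e ≠ 0 → a = b := by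
    intro a ha b hb e hae hbe
    by_contra hab
    have h1 : c (pr a) e + c (pr b) e ≤ ∑ k ∈ Ha, c (pr k) e := by
      rw [← Finset.sum_pair hab (f := fun k => c (pr k) e)]
      apply Finset.sum_le_sum_of_subset
      intro k hk
      rcases Finset.mem_insert.1 hk with h | h
      · exact h ▸ ha
      · exact (Finset.mem_singleton.1 h) ▸ hb
    have h2 := hsumle e
    rw [hswap e] at h1
    have h3 := Nat.one_le_iff_ne_zero.2 hae
    have h4 := Nat.one_le_iff_ne_zero.2 hbe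
    omega
  have hfin := hrig Ha (fun k hk => hHJ (hHaH k hk)) (Ha.image pr) ?_ ?_ ?_ ?_ ?_
  · have h1 : pr ka ∈ Ha := by
      rw [← hfin]
      exact Finset.mem_image_of_mem pr hkaHa
    apply hpk ka (hHaH ka hkaHa)
    apply hdj _ (hHJ (hHaH _ h1)) ka (hHJ (hHaH ka hkaHa)) (w ka)
    · rw [hpw ka (hHaH ka hkaHa)]
      exact one_ne_zero
    · rw [hkw ka (hHaH ka hkaHa)]
      exact one_ne_zero
  · intro k hk
    obtain ⟨a, ha, rfl⟩ := Finset.mem_image.1 hk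
    exact hpN a (hHaH a ha)
  · intro k hk e
    obtain ⟨a, ha, rfl⟩ := Finset.mem_image.1 hk
    exact hle1 a ha e
  · intro k hk k' hk' e hke hk'e
    obtain ⟨a, ha, rfl⟩ := Finset.mem_image.1 hk
    obtain ⟨b, hb, rfl⟩ := Finset.mem_image.1 hk'
    rw [hdis a ha b hb e hke hk'e]
  · ext e
    rw [hPU, hPU]
    have h1 := hswap e
    constructor
    · rintro ⟨k, hk, hke⟩
      obtain ⟨a, ha, rfl⟩ := Finset.mem_image.1 hk
      by_contra hc
      push Not at hc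
      rw [Finset.sum_eq_zero (f := fun k => c k e) hc] at h1
      exact hke ((Finset.sum_eq_zero_iff.1 h1) a ha)
    · rintro ⟨k, hk, hke⟩
      by_contra hc
      push Not at hc
      rw [Finset.sum_eq_zero (f := fun k => c (pr k) e)
        (fun a ha => hc _ (Finset.mem_image_of_mem pr ha))] at h1
      exact hke ((Finset.sum_eq_zero_iff.1 h1.symm) k hk)
  · exact Finset.card_image_of_injOn hinj

end MPb07157.EX
end

section

/-!
# Lemma C: components of the overlap graph of two minimal deficits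
-/

namespace MPb07157.EX

open Finset Module

variable {ι κ : Type} [Fintype ι] [DecidableEq ι] [DecidableEq κ]
variable {c : κ → ι → ℕ} {N : Finset κ} {V : Submodule ℚ (ι → ℚ)}

/-- `|P| + dim {ξ ∈ W : ξ = 0 on P} < dim W + |H|` vectors orthogonal to `W` on `P` are dependent -/
theorem dep2 {τ : Type} {W : Submodule ℚ (ι → ℚ)} {P : Finset ι} {H : Finset τ}
    (F : τ → ι → ℚ) (horth : ∀ k ∈ H, ∀ ξ ∈ W, ∑ g ∈ P, F k g * ξ g = 0)
    (hcard : P.card + 1 + finrank ℚ (cutV W P) ≤ finrank ℚ W + H.card) :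
    ∃ l : τ → ℚ, (∃ k ∈ H, l k ≠ 0) ∧ ∀ g ∈ P, ∑ k ∈ H, l k * F k g = 0 := by
  classical
  let Ψ : (W × (H → ℚ)) →ₗ[ℚ] (P → ℚ) :=
    { toFun := fun x g => (x.1 : ι → ℚ) g + ∑ k : H, x.2 k * F k g
      map_add' := by
        intro x y
        funext g
        simp only [Prod.fst_add, Prod.snd_add, Submodule.coe_add, Pi.add_apply, add_mul,
          Finset.sum_add_distrib]
        ring
      map_smul' := by
        intro r x
        funext g
        simp only [Prod.smul_fst, Prod.smul_snd, Submodule.coe_smul, Pi.smul_apply, smul_eq_mul,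
          RingHom.id_apply, mul_add, Finset.mul_sum]
        congr 1
        exact Finset.sum_congr rfl fun k _ => by ring }
  let Θ : cutV W P →ₗ[ℚ] (W × (H → ℚ)) :=
    { toFun := fun x => (⟨x, x.2.1⟩, 0)
      map_add' := by
        intro x y
        ext <;> simp
      map_smul' := by
        intro r x
        ext <;> simp }
  have h1 : finrank ℚ (LinearMap.range Ψ) + finrank ℚ (LinearMap.ker Ψ) =
      finrank ℚ W + H.card := by
    rw [LinearMap.finrank_range_add_finrank_ker, Module.finrank_prod,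
      Module.finrank_fintype_fun_eq_card, Fintype.card_coe]
  have h2 : finrank ℚ (LinearMap.range Ψ) ≤ P.card := by
    refine (Submodule.finrank_le _).trans ?_
    rw [Module.finrank_fintype_fun_eq_card, Fintype.card_coe]
  have h3 : finrank ℚ (LinearMap.range Θ) ≤ finrank ℚ (cutV W P) := LinearMap.finrank_range_le Θ
  obtain ⟨⟨ξ, l⟩, hmem, hne⟩ : ∃ x ∈ LinearMap.ker Ψ, x ∉ LinearMap.range Θ := by
    by_contra hcon
    push Not at hcon
    have h4 := Submodule.finrank_mono (show LinearMap.ker Ψ ≤ LinearMap.range Θ from hcon)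
    omega
  rw [LinearMap.mem_ker] at hmem
  have hval : ∀ g ∈ P, (ξ : ι → ℚ) g + ∑ k : H, l k * F k g = 0 := fun g hg =>
    congrFun hmem ⟨g, hg⟩
  have hsq : ∑ g ∈ P, (ξ : ι → ℚ) g * (ξ : ι → ℚ) g = 0 := by
    have h1 : ∑ g ∈ P, ((ξ : ι → ℚ) g + ∑ k : H, l k * F k g) * (ξ : ι → ℚ) g = 0 :=
      Finset.sum_eq_zero fun g hg => by rw [hval g hg, zero_mul]
    have h2 : ∑ g ∈ P, (∑ k : H, l k * F k g) * (ξ : ι → ℚ) g = 0 := by
      simp only [Finset.sum_mul]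
      rw [Finset.sum_comm]
      apply Finset.sum_eq_zero
      intro k _
      have h3 := horth k k.2 ξ ξ.2
      calc ∑ g ∈ P, l k * F k g * (ξ : ι → ℚ) g
          = l k * ∑ g ∈ P, F k g * (ξ : ι → ℚ) g := by
            rw [Finset.mul_sum]
            exact Finset.sum_congr rfl fun g _ => by ring
        _ = 0 := by rw [h3, mul_zero]
    simp only [add_mul, Finset.sum_add_distrib] at h1
    linarith
  have hξ0 : ∀ g ∈ P, (ξ : ι → ℚ) g = 0 := fun g hg =>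
    mul_self_eq_zero.1 ((Finset.sum_eq_zero_iff_of_nonneg (fun g _ => mul_self_nonneg _)).1 hsq g
      hg)
  refine ⟨fun k => if h : k ∈ H then l ⟨k, h⟩ else 0, ?_, ?_⟩
  · by_contra hcon
    push Not at hcon
    apply hne
    have hl : l = 0 := by
      funext k
      have := hcon k k.2
      rw [dif_pos k.2] at this
      exact this
    rw [hl]
    exact ⟨⟨ξ, ξ.2, hξ0⟩, rfl⟩
  · intro g hg
    have h1 := hval g hg
    rw [hξ0 g hg, zero_add] at h1
    refine Eq.trans ?_ h1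
    rw [← Finset.sum_coe_sort H]
    refine Finset.sum_congr rfl fun k _ => ?_
    show (if h : (k : τ) ∈ H then l ⟨k, h⟩ else 0) * F k g = l k * F k g
    rw [dif_pos k.2]

/-- connected closed pairs of subfamilies -/
structure Conn (c : κ → ι → ℕ) (J J' K K' : Finset κ) : Prop where
  sub : K ⊆ J
  sub' : K' ⊆ J'
  cl : ∀ x ∈ J, ∀ y ∈ J', ∀ e, c x e ≠ 0 → c y e ≠ 0 → (x ∈ K ↔ y ∈ K')
  conn : ∀ a b : κ → ℚ, (∀ x ∈ K, ∀ y ∈ K', ∀ e, c x e ≠ 0 → c y e ≠ 0 → a x = b y) →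
    ∀ x ∈ K, ∀ x' ∈ K, a x = a x' ∧ ∀ y ∈ K', b y = a x

theorem exists_conn {J J' : Finset κ} {k k' : κ} (hk : k ∈ J) (hk' : k' ∈ J') {e₀ : ι}
    (h1 : c k e₀ ≠ 0) (h2 : c k' e₀ ≠ 0) : ∃ K K', Conn c J J' K K' ∧ k ∈ K ∧ k' ∈ K' := by
  classical
  let P : Finset κ × Finset κ → Prop := fun q => k ∈ q.1 ∧
    ∀ x ∈ J, ∀ y ∈ J', ∀ e, c x e ≠ 0 → c y e ≠ 0 → (x ∈ q.1 ↔ y ∈ q.2)
  have hne : ((J.powerset ×ˢ J'.powerset).filter P).Nonempty := by
    refine ⟨(J, J'), Finset.mem_filter.2 ⟨?_, hk, fun x hx y hy _ _ _ => ⟨fun _ => hy,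
      fun _ => hx⟩⟩⟩
    rw [Finset.mem_product]
    exact ⟨Finset.mem_powerset_self J, Finset.mem_powerset_self J'⟩
  obtain ⟨⟨K, K'⟩, hK, hmin⟩ := Finset.exists_min_image _
    (fun q : Finset κ × Finset κ => q.1.card + q.2.card) hne
  rw [Finset.mem_filter, Finset.mem_product, Finset.mem_powerset, Finset.mem_powerset] at hK
  obtain ⟨⟨hKJ, hKJ'⟩, hkK, hcl⟩ := hK
  have hk'K : k' ∈ K' := (hcl k hk k' hk' e₀ h1 h2).1 hkK
  refine ⟨K, K', ⟨hKJ, hKJ', hcl, ?_⟩, hkK, hk'K⟩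
  intro a b hab
  have key : ∀ Y ⊆ K, ∀ Y' ⊆ K', k ∈ Y →
      (∀ x ∈ J, ∀ y ∈ J', ∀ e, c x e ≠ 0 → c y e ≠ 0 → (x ∈ Y ↔ y ∈ Y')) →
      Y = K ∧ Y' = K' := by
    intro Y hY Y' hY' hkY hclY
    have h3 := hmin (Y, Y') (Finset.mem_filter.2 ⟨Finset.mem_product.2
      ⟨Finset.mem_powerset.2 (hY.trans hKJ), Finset.mem_powerset.2 (hY'.trans hKJ')⟩,
      hkY, hclY⟩)
    have h4 := Finset.card_le_card hY
    have h5 := Finset.card_le_card hY'
    simp only at h3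
    exact ⟨Finset.eq_of_subset_of_card_le hY (by omega),
      Finset.eq_of_subset_of_card_le hY' (by omega)⟩
  obtain ⟨h3, h4⟩ := key (K.filter fun x => a x = a k) (Finset.filter_subset _ _)
    (K'.filter fun y => b y = a k) (Finset.filter_subset _ _)
    (Finset.mem_filter.2 ⟨hkK, rfl⟩) (by
      intro x hx y hy e hxe hye
      rw [Finset.mem_filter, Finset.mem_filter]
      have h5 := hcl x hx y hy e hxe hye
      constructor
      · rintro ⟨h6, h7⟩
        have h8 := h5.1 h6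
        exact ⟨h8, by rw [← hab x h6 y h8 e hxe hye, h7]⟩
      · rintro ⟨h6, h7⟩
        have h8 := h5.2 h6
        exact ⟨h8, by rw [hab x h8 y h6 e hxe hye, h7]⟩)
  have ha : ∀ x ∈ K, a x = a k := fun x hx => by
    rw [← h3, Finset.mem_filter] at hx
    exact hx.2
  have hb : ∀ y ∈ K', b y = a k := fun y hy => by
    rw [← h4, Finset.mem_filter] at hy
    exact hy.2
  intro x hx x' hx'
  exact ⟨by rw [ha x hx, ha x' hx'], fun y hy => by rw [hb y hy, ha x hx]⟩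

theorem Conn.symm {J J' K K' : Finset κ} (h : Conn c J J' K K') (hne : K.Nonempty)
    : Conn c J' J K' K where
  sub := h.sub'
  sub' := h.sub
  cl := fun x hx y hy e hxe hye => (h.cl y hy x hx e hye hxe).symm
  conn := by
    intro a b hab x hx x' hx'
    obtain ⟨z, hz⟩ := hne
    have h1 := h.conn b a (fun u hu v hv e hue hve => (hab v hv u hu e hve hue).symm)
    have h2 := (h1 z hz z hz).2
    exact ⟨by rw [h2 x hx, h2 x' hx'], fun y hy => by rw [h2 x hx, (h1 y hy z hz).1]⟩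

omit [DecidableEq κ] in
theorem mem_PU' {Y : Finset κ} {e : ι} : e ∈ PU c ∅ Y ↔ ∃ k ∈ Y, c k e ≠ 0 := by
  rw [mem_PU]
  exact exists_congr fun k => and_congr_right fun _ =>
    ⟨fun h => h.2, fun h => ⟨Finset.notMem_empty e, h⟩⟩

theorem sum_one {J : Finset κ} (hzo : ∀ k ∈ J, ∀ e, c k e ≤ 1)
    (hdj : ∀ k ∈ J, ∀ k' ∈ J, ∀ e, c k e ≠ 0 → c k' e ≠ 0 → k = k') {K : Finset κ} (hK : K ⊆ J)
    (a : κ → ℚ) {x : κ} (hx : x ∈ K) {e : ι} (hxe : c x e ≠ 0) :
    ∑ k ∈ K, a k * (c k e : ℚ) = a x := by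
  rw [Finset.sum_eq_single_of_mem x hx]
  · have h1 : c x e = 1 := by
      have h1 := hzo x (hK hx) e
      have h2 := Nat.one_le_iff_ne_zero.2 hxe
      omega
    rw [h1, Nat.cast_one, mul_one]
  · intro k hk hkx
    have h1 : c k e = 0 := by
      by_contra h
      exact hkx (hdj k (hK hk) x (hK hx) e h hxe)
    rw [h1, Nat.cast_zero, mul_zero]

theorem half {J J' K K' : Finset κ} (hcolV : ∀ k ∈ N, ∀ ξ ∈ V, ∑ e, (c k e : ℚ) * ξ e = 0)
    (hJN : J ⊆ N) (hJN' : J' ⊆ N) (hzo : ∀ k ∈ J, ∀ e, c k e ≤ 1)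
    (hdj : ∀ k ∈ J, ∀ k' ∈ J, ∀ e, c k e ≠ 0 → c k' e ≠ 0 → k = k')
    (hzo' : ∀ k ∈ J', ∀ e, c k e ≤ 1)
    (hdj' : ∀ k ∈ J', ∀ k' ∈ J', ∀ e, c k e ≠ 0 → c k' e ≠ 0 → k = k')
    (hrk : (PU c ∅ J).card + 1 ≤ 2 * J.card + finrank ℚ (cutV V (PU c ∅ J)ᶜ))
    (hmin : ∀ Y, Y ⊂ J → 2 * Y.card + finrank ℚ (cutV V (PU c ∅ Y)ᶜ) ≤ (PU c ∅ Y).card)
    (hC : Conn c J J' K K') (hne : K.Nonempty) (hle : K.card ≤ K'.card) :
    K'.card ≤ K.card ∧ PU c ∅ K ⊆ PU c ∅ K' := by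
  classical
  have hRJ : J \ K ⊂ J := by
    refine ⟨Finset.sdiff_subset, fun h => ?_⟩
    obtain ⟨x, hx⟩ := hne
    exact (Finset.mem_sdiff.1 (h (hC.sub hx))).2 hx
  have hR := hmin _ hRJ
  have hPU : PU c ∅ J = PU c ∅ K ∪ PU c ∅ (J \ K) := by
    ext e
    rw [Finset.mem_union, mem_PU', mem_PU', mem_PU']
    constructor
    · rintro ⟨k, hk, hke⟩
      by_cases h : k ∈ K
      · exact Or.inl ⟨k, h, hke⟩
      · exact Or.inr ⟨k, Finset.mem_sdiff.2 ⟨hk, h⟩, hke⟩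
    · rintro (⟨k, hk, hke⟩ | ⟨k, hk, hke⟩)
      · exact ⟨k, hC.sub hk, hke⟩
      · exact ⟨k, (Finset.mem_sdiff.1 hk).1, hke⟩
  have hdisj : Disjoint (PU c ∅ K) (PU c ∅ (J \ K)) := by
    rw [Finset.disjoint_left]
    intro e h1 h2
    rw [mem_PU'] at h1 h2
    obtain ⟨k, hk, hke⟩ := h1
    obtain ⟨k', hk', hke'⟩ := h2
    rw [Finset.mem_sdiff] at hk'
    exact hk'.2 (hdj k (hC.sub hk) k' hk'.1 e hke hke' ▸ hk)
  have hcardP : (PU c ∅ J).card = (PU c ∅ K).card + (PU c ∅ (J \ K)).card := by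
    rw [hPU, Finset.card_union_of_disjoint hdisj]
  have hcardJ : J.card = K.card + (J \ K).card := by
    have := Finset.card_sdiff_add_card_eq_card hC.sub
    omega
  have hcut : cutV (cutV V (PU c ∅ J)ᶜ) (PU c ∅ K) = cutV V (PU c ∅ (J \ K))ᶜ := by
    rw [cutV_cutV]
    congr 1
    ext e
    rw [Finset.mem_union, Finset.mem_compl, Finset.mem_compl, hPU, Finset.mem_union]
    constructor
    · rintro (h | h)
      · exact fun h2 => h (Or.inr h2)
      · exact fun h2 => Finset.disjoint_left.1 hdisj h h2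
    · intro h
      by_cases h2 : e ∈ PU c ∅ K
      · exact Or.inr h2
      · exact Or.inl fun h3 => h3.elim h2 h
  have hK0 : (PU c ∅ K).card + 1 + finrank ℚ (cutV (cutV V (PU c ∅ J)ᶜ) (PU c ∅ K)) ≤
      finrank ℚ (cutV V (PU c ∅ J)ᶜ) + 2 * K.card := by
    rw [hcut]
    omega
  -- orthogonality
  have ho1 : ∀ k ∈ K, ∀ ξ ∈ cutV V (PU c ∅ J)ᶜ, ∑ g ∈ PU c ∅ K, (c k g : ℚ) * ξ g = 0 := by
    intro k hk ξ hξ
    rw [← hcolV k (hJN (hC.sub hk)) ξ hξ.1]
    apply Finset.sum_subset (Finset.subset_univ _)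
    intro e _ he
    have h1 : c k e = 0 := by
      by_contra h
      exact he (mem_PU'.2 ⟨k, hk, h⟩)
    rw [h1, Nat.cast_zero, zero_mul]
  have ho2 : ∀ k ∈ K', ∀ ξ ∈ cutV V (PU c ∅ J)ᶜ, ∑ g ∈ PU c ∅ K, (c k g : ℚ) * ξ g = 0 := by
    intro k hk ξ hξ
    rw [← hcolV k (hJN' (hC.sub' hk)) ξ hξ.1]
    apply Finset.sum_subset (Finset.subset_univ _)
    intro e _ he
    by_cases heJ : e ∈ PU c ∅ J
    · have h1 : c k e = 0 := by
        by_contra h
        obtain ⟨x, hx, hxe⟩ := mem_PU'.1 heJ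
        exact he (mem_PU'.2 ⟨x, (hC.cl x hx k (hC.sub' hk) e hxe h).2 hk, hxe⟩)
      rw [h1, Nat.cast_zero, zero_mul]
    · rw [hξ.2 e (Finset.mem_compl.2 heJ), mul_zero]
  -- relations are constant
  have hrel : ∀ a b : κ → ℚ, (∀ g ∈ PU c ∅ K, ∑ x ∈ K, a x * (c x g : ℚ) =
      ∑ y ∈ K', b y * (c y g : ℚ)) → ∀ x ∈ K, ∀ x' ∈ K, a x = a x' ∧ ∀ y ∈ K', b y = a x := by
    intro a b hab
    apply hC.conn a b
    intro x hx y hy e hxe hye
    have h1 := hab e (mem_PU'.2 ⟨x, hx, hxe⟩)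
    rw [sum_one hzo hdj hC.sub a hx hxe, sum_one hzo' hdj' hC.sub' b hy hye] at h1
    exact h1
  -- dependent families
  have hdep : ∀ Z ⊆ K', (PU c ∅ K).card + 1 +
      finrank ℚ (cutV (cutV V (PU c ∅ J)ᶜ) (PU c ∅ K)) ≤
        finrank ℚ (cutV V (PU c ∅ J)ᶜ) + (K.card + Z.card) →
      ∃ a b : κ → ℚ, (∀ y, y ∉ Z → b y = 0) ∧ ((∃ x ∈ K, a x ≠ 0) ∨ ∃ y ∈ Z, b y ≠ 0) ∧
        ∀ g ∈ PU c ∅ K, ∑ x ∈ K, a x * (c x g : ℚ) = ∑ y ∈ K', b y * (c y g : ℚ) := by
    intro Z hZ hc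
    obtain ⟨l, ⟨t, ht, hlt⟩, hl⟩ := dep2 (W := cutV V (PU c ∅ J)ᶜ) (P := PU c ∅ K)
      (H := K.disjSum Z)
      (Sum.elim (fun k e => (c k e : ℚ)) (fun k e => -(c k e : ℚ))) (by
        intro k hk ξ hξ
        rcases Finset.mem_disjSum.1 hk with ⟨x, hx, rfl⟩ | ⟨y, hy, rfl⟩
        · exact ho1 x hx ξ hξ
        · simp only [Sum.elim_inr, neg_mul, Finset.sum_neg_distrib]
          rw [ho2 y (hZ hy) ξ hξ, neg_zero]) (by rw [Finset.card_disjSum]; exact hc)
    refine ⟨fun x => l (Sum.inl x), fun y => if y ∈ Z then l (Sum.inr y) else 0, ?_, ?_, ?_⟩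
    · intro y hy
      exact if_neg hy
    · rcases Finset.mem_disjSum.1 ht with ⟨x, hx, rfl⟩ | ⟨y, hy, rfl⟩
      · exact Or.inl ⟨x, hx, hlt⟩
      · refine Or.inr ⟨y, hy, ?_⟩
        simp only [if_pos hy]
        exact hlt
    · intro g hg
      have h1 := hl g hg
      rw [Finset.sum_disjSum] at h1
      simp only [Sum.elim_inl, Sum.elim_inr, mul_neg, Finset.sum_neg_distrib] at h1
      have h2 : ∑ y ∈ K', (if y ∈ Z then l (Sum.inr y) else 0) * (c y g : ℚ) =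
          ∑ y ∈ Z, l (Sum.inr y) * (c y g : ℚ) := by
        rw [← Finset.sum_subset hZ]
        · exact Finset.sum_congr rfl fun y hy => by rw [if_pos hy]
        · intro y _ hy
          rw [if_neg hy, zero_mul]
      rw [h2]
      linarith
  obtain ⟨x₀, hx₀⟩ := hne
  constructor
  · by_contra hlt
    push Not at hlt
    obtain ⟨y₀, hy₀⟩ : K'.Nonempty := Finset.card_pos.1 (by omega)
    obtain ⟨a, b, hb0, hnz, hab⟩ := hdep (K'.erase y₀) (Finset.erase_subset _ _) (by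
      rw [Finset.card_erase_of_mem hy₀]
      omega)
    have h1 := hrel a b hab
    have h2 : b y₀ = 0 := hb0 y₀ (Finset.notMem_erase y₀ K')
    have h3 : a x₀ = 0 := by rw [← (h1 x₀ hx₀ x₀ hx₀).2 y₀ hy₀, h2]
    rcases hnz with ⟨x, hx, hax⟩ | ⟨y, hy, hby⟩
    · exact hax (by rw [(h1 x hx x₀ hx₀).1, h3])
    · exact hby (by rw [(h1 x₀ hx₀ x₀ hx₀).2 y (Finset.mem_of_mem_erase hy), h3])
  · obtain ⟨a, b, -, hnz, hab⟩ := hdep K' subset_rfl (by omega)
    have h1 := hrel a b hab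
    have h3 : a x₀ ≠ 0 := by
      intro h3
      rcases hnz with ⟨x, hx, hax⟩ | ⟨y, hy, hby⟩
      · exact hax (by rw [(h1 x hx x₀ hx₀).1, h3])
      · exact hby (by rw [(h1 x₀ hx₀ x₀ hx₀).2 y hy, h3])
    intro e he
    by_contra hcon
    obtain ⟨x, hx, hxe⟩ := mem_PU'.1 he
    have h2 := hab e he
    rw [sum_one hzo hdj hC.sub a hx hxe, Finset.sum_eq_zero] at h2
    · exact h3 (by rw [(h1 x₀ hx₀ x hx).1, h2])
    · intro y hy
      have h4 : c y e = 0 := by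
        by_contra h
        exact hcon (mem_PU'.2 ⟨y, hy, h⟩)
      rw [h4, Nat.cast_zero, mul_zero]

/-- LEMMA C for rigid families. -/
theorem lemC {J J' : Finset κ} (hcolV : ∀ k ∈ N, ∀ ξ ∈ V, ∑ e, (c k e : ℚ) * ξ e = 0)
    (hJN : J ⊆ N) (hJN' : J' ⊆ N) (hzo : ∀ k ∈ J, ∀ e, c k e ≤ 1)
    (hdj : ∀ k ∈ J, ∀ k' ∈ J, ∀ e, c k e ≠ 0 → c k' e ≠ 0 → k = k')
    (hzo' : ∀ k ∈ J', ∀ e, c k e ≤ 1)
    (hdj' : ∀ k ∈ J', ∀ k' ∈ J', ∀ e, c k e ≠ 0 → c k' e ≠ 0 → k = k')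
    (hrk : (PU c ∅ J).card + 1 ≤ 2 * J.card + finrank ℚ (cutV V (PU c ∅ J)ᶜ))
    (hmin : ∀ Y, Y ⊂ J → 2 * Y.card + finrank ℚ (cutV V (PU c ∅ Y)ᶜ) ≤ (PU c ∅ Y).card)
    (hrk' : (PU c ∅ J').card + 1 ≤ 2 * J'.card + finrank ℚ (cutV V (PU c ∅ J')ᶜ))
    (hmin' : ∀ Y, Y ⊂ J' → 2 * Y.card + finrank ℚ (cutV V (PU c ∅ Y)ᶜ) ≤ (PU c ∅ Y).card)
    (hrig : Rig c N J) : ∀ k ∈ J, ∀ k' ∈ J', ∀ e, c k e ≠ 0 → c k' e ≠ 0 → k = k' := by
  intro k hk k' hk' e h1 h2
  obtain ⟨K, K', hC, hkK, hk'K⟩ := exists_conn hk hk' h1 h2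
  have hC' := hC.symm ⟨k, hkK⟩
  have h3 : K'.card = K.card ∧ PU c ∅ K' = PU c ∅ K := by
    rcases le_total K.card K'.card with h | h
    · obtain ⟨h4, h5⟩ := half hcolV hJN hJN' hzo hdj hzo' hdj' hrk hmin hC ⟨k, hkK⟩ h
      obtain ⟨h6, h7⟩ := half hcolV hJN' hJN hzo' hdj' hzo hdj hrk' hmin' hC' ⟨k', hk'K⟩ h4
      exact ⟨le_antisymm h4 h6, Finset.Subset.antisymm h7 h5⟩
    · obtain ⟨h4, h5⟩ := half hcolV hJN' hJN hzo' hdj' hzo hdj hrk' hmin' hC' ⟨k', hk'K⟩ h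
      obtain ⟨h6, h7⟩ := half hcolV hJN hJN' hzo hdj hzo' hdj' hrk hmin hC ⟨k, hkK⟩ h4
      exact ⟨le_antisymm h6 h4, Finset.Subset.antisymm h5 h7⟩
  have h4 := hrig K hC.sub K' (hC.sub'.trans hJN') (fun x hx => hzo' x (hC.sub' hx))
    (fun x hx y hy => hdj' x (hC.sub' hx) y (hC.sub' hy)) h3.2 h3.1
  rw [h4] at hk'K
  exact hdj k hk k' (hC.sub hk'K) e h1 h2

end MPb07157.EX
end

section

/-!
# Absorbing `T` into the columns
-/

set_option linter.unusedSectionVars false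

namespace MPb07157.SK

open Finset Module MPb07157.EX

variable {ι κ : Type} [Fintype ι] [DecidableEq ι] [DecidableEq κ]
variable {c : κ → ι → ℕ} {C : Finset κ} {A : Set (ι → ℚ)} {V V' : Submodule ℚ (ι → ℚ)}
  {T R : Finset ι} {J J' Y Z : Finset κ} {W : Finset ι} {w₀ : ι} {t : ι → ℚ}

/-- The columns, zero on `T`. -/
def cz (c : κ → ι → ℕ) (T : Finset ι) (k : κ) (e : ι) : ℕ := if e ∈ T then 0 else c k e

theorem cz_out {k : κ} {e : ι} (h : e ∉ T) : cz c T k e = c k e := by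
  unfold cz
  rw [if_neg h]

theorem cz_in {k : κ} {e : ι} (h : e ∈ T) : cz c T k e = 0 := by
  unfold cz
  rw [if_pos h]

theorem cz_ne {k : κ} {e : ι} : cz c T k e ≠ 0 ↔ e ∉ T ∧ c k e ≠ 0 := by
  by_cases h : e ∈ T
  · rw [cz_in h]
    exact ⟨fun h' => absurd rfl h', fun h' => absurd h h'.1⟩
  · rw [cz_out h]
    exact ⟨fun h' => ⟨h, h'⟩, fun h' => h'.2⟩

theorem cz_le {k : κ} (h : ∀ e, e ∉ T → c k e ≤ 1) (e : ι) : cz c T k e ≤ 1 := by
  by_cases h' : e ∈ T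
  · rw [cz_in h']
    exact Nat.zero_le 1
  · rw [cz_out h']
    exact h e h'

theorem cz_PU : PU (cz c T) ∅ Y = PU c T Y := by
  ext e
  rw [mem_PU, mem_PU]
  constructor
  · rintro ⟨-, k, hk, h⟩
    rw [cz_ne] at h
    exact ⟨h.1, k, hk, h.2⟩
  · rintro ⟨h, k, hk, h'⟩
    exact ⟨Finset.notMem_empty e, k, hk, cz_ne.2 ⟨h, h'⟩⟩

theorem cz_sum {k : κ} {x : ι → ℚ} (hx : ∀ f ∈ T, x f = 0) :
    ∑ e, (cz c T k e : ℚ) * x e = ∑ e, (c k e : ℚ) * x e := by
  refine Finset.sum_congr rfl fun e _ => ?_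
  by_cases h : e ∈ T
  · rw [hx e h, mul_zero, mul_zero]
  · rw [cz_out h]

theorem cz_own {S : Finset ι} {w : ι} {k : κ} (h : Own (cz c T) C C S w k) :
    Own c C C (T ∪ S) w k := by
  obtain ⟨h1, h2, h3⟩ := h
  have hk : k ∈ U (cz c T) C S w := by
    rw [h2]
    exact Finset.mem_singleton_self k
  rw [mem_U] at hk
  have hw : w ∉ T := by
    intro hw
    rw [cz_in hw] at hk
    exact absurd hk.2.1 (by norm_num)
  refine ⟨fun h' => (Finset.mem_union.1 h').elim hw h1, ?_, h3⟩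
  rw [← h2]
  ext x
  rw [mem_U, mem_U, cz_out hw]
  refine and_congr_right fun _ => and_congr_right fun _ => forall_congr' fun e => ?_
  rw [cz_ne, Finset.mem_union]
  tauto

/-- sums of a disjoint 0/1 family -/
theorem cz_sum_fam {H : Finset κ} (hzo : ∀ k ∈ H, ∀ e, cz c T k e ≤ 1)
    (hdj : ∀ k ∈ H, ∀ k' ∈ H, ∀ e, cz c T k e ≠ 0 → cz c T k' e ≠ 0 → k = k') {e : ι} :
    ∑ k ∈ H, cz c T k e = if e ∈ PU (cz c T) ∅ H then 1 else 0 := by
  split_ifs with he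
  · rw [EX.mem_PU'] at he
    obtain ⟨x, hx, hxe⟩ := he
    rw [Finset.sum_eq_single_of_mem x hx]
    · have h1 := hzo x hx e
      omega
    · intro k hk hkx
      by_contra h
      exact hkx (hdj k hk x hx e h hxe)
  · refine Finset.sum_eq_zero fun k hk => ?_
    by_contra h
    exact he (EX.mem_PU'.2 ⟨k, hk, h⟩)

theorem cz_rig (hJ : Fam c C T J) (hR : Rigid c C T J) : Rig (cz c T) C J := by
  intro H hH H' hH' hzo hdj hPU hcard
  refine hR H hH H' hH' hcard fun e he => ?_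
  have h1 : ∑ k ∈ H', cz c T k e = ∑ k ∈ H, cz c T k e := by
    rw [cz_sum_fam hzo hdj, cz_sum_fam (fun k hk => cz_le (hJ.zo k (hH hk))) ?_, hPU]
    intro k hk k' hk' e' h h'
    rw [cz_ne] at h h'
    exact hJ.dj k (hH hk) k' (hH hk') e' h.1 h.2 h'.2
  simpa only [cz_out he] using h1

theorem cz_zo (hJ : Fam c C T J) : ∀ k ∈ J, ∀ e, cz c T k e ≤ 1 := fun k hk => cz_le (hJ.zo k hk)

theorem cz_dj (hJ : Fam c C T J) :
    ∀ k ∈ J, ∀ k' ∈ J, ∀ e, cz c T k e ≠ 0 → cz c T k' e ≠ 0 → k = k' := by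
  intro k hk k' hk' e h h'
  rw [cz_ne] at h h'
  exact hJ.dj k hk k' hk' e h.1 h.2 h'.2

theorem cz_min (hJ : MinD c C V T J) (Y : Finset κ) (hY : Y ⊂ J) :
    2 * Y.card + finrank ℚ (cutV V (PU (cz c T) ∅ Y)ᶜ) ≤ (PU (cz c T) ∅ Y).card := by
  rw [cz_PU]
  rcases Finset.eq_empty_or_nonempty Y with h0 | h0
  · subst h0
    have h1 : PU c T (∅ : Finset κ) = ∅ := rfl
    have h2 : finrank ℚ (cutV V (PU c T (∅ : Finset κ))ᶜ) = 0 := by
      have h3 : cutV V (PU c T (∅ : Finset κ))ᶜ = ⊥ := by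
        rw [eq_bot_iff]
        intro x hx
        rw [Submodule.mem_bot]
        funext e
        refine hx.2 e ?_
        rw [h1, Finset.mem_compl]
        exact Finset.notMem_empty e
      rw [h3, finrank_bot]
    rw [h2, h1, Finset.card_empty, Finset.card_empty]
  · by_contra h
    refine hJ.min Y hY ⟨⟨hY.1.trans hJ.dfc.fam.sub, fun k hk => hJ.dfc.fam.zo k (hY.1 hk),
      fun k hk k' hk' => hJ.dfc.fam.dj k (hY.1 hk) k' (hY.1 hk')⟩, h0, ?_⟩
    omega

end MPb07157.SK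
end
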