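import Pool.Agent.Lib.MP_b07157_ag.SK.B4

section

/-!
# Partitions into pairs
-/

set_option linter.unusedSectionVars false

namespace MPb07157.SK

open Finset Module MPb07157.EX

variable {ι κ : Type} [Fintype ι] [DecidableEq ι] [DecidableEq κ]
variable {c : κ → ι → ℕ} {C : Finset κ} {A : Set (ι → ℚ)} {V V' : Submodule ℚ (ι → ℚ)}
  {T R : Finset ι} {J J' Y Z : Finset κ} {W : Finset ι} {w₀ : ι} {t : ι → ℚ}

theorem mem_NCs {e : ι} : e ∈ NCs V ↔ ∃ ξ ∈ V, ξ e ≠ 0 := by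
  simp only [NCs, NC, Finset.mem_filter, Finset.mem_univ, true_and]

private theorem l1_sum_one {α : Type} [DecidableEq α] {s : Finset α} {f : α → ℕ}
    (h : ∑ i ∈ s, f i = 1) : ∃ i ∈ s, f i = 1 ∧ ∀ j ∈ s, f j ≠ 0 → j = i := by
  obtain ⟨i, hi, hi0⟩ : ∃ i ∈ s, f i ≠ 0 := by
    by_contra hcon
    push Not at hcon
    rw [Finset.sum_eq_zero hcon] at h
    omega
  have h1 : f i ≤ ∑ i ∈ s, f i := Finset.single_le_sum (fun _ _ => Nat.zero_le _) hi
  refine ⟨i, hi, by omega, fun j hj hj0 => ?_⟩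
  by_contra hne
  have h2 : ∑ l ∈ ({j, i} : Finset α), f l ≤ ∑ l ∈ s, f l := by
    apply Finset.sum_le_sum_of_subset
    intro l hl
    rw [Finset.mem_insert, Finset.mem_singleton] at hl
    rcases hl with rfl | rfl
    · exact hj
    · exact hi
  rw [Finset.sum_pair hne] at h2
  omega

/-- In dimension one every direction `ξ ≠ 0` detects the nonconstant elements and spans `V`. -/
theorem line_gen (h1 : finrank ℚ V = 1) {ξ : ι → ℚ} (hξ : ξ ∈ V) (h0 : ξ ≠ 0) :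
    (∀ e, e ∈ NCs V ↔ ξ e ≠ 0) ∧ ∀ η ∈ V, ∃ r : ℚ, η = r • ξ := by
  have h2 : ∀ η ∈ V, ∃ r : ℚ, η = r • ξ := by
    intro η hη
    have hne : (⟨ξ, hξ⟩ : V) ≠ 0 := fun h => h0 (congrArg Subtype.val h)
    obtain ⟨r, hr⟩ := (finrank_eq_one_iff_of_nonzero' (⟨ξ, hξ⟩ : V) hne).1 h1 ⟨η, hη⟩
    exact ⟨r, (congrArg Subtype.val hr).symm⟩
  refine ⟨fun e => ?_, h2⟩
  rw [mem_NCs]
  constructor
  · rintro ⟨η, hη, hηe⟩ h3
    obtain ⟨r, rfl⟩ := h2 η hη
    apply hηe
    rw [Pi.smul_apply, h3, smul_zero]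
  · intro h3
    exact ⟨ξ, hξ, h3⟩

/-- In a `Mat` family for `W` disjoint from `T` every element `e ∈ W` has a unique column `k ∈ Y`
with `c k e ≠ 0`, `c k e = 1`, and there is exactly one other element `e' ∈ W` with `c k e' ≠ 0`,
again `c k e' = 1`.  (Sums of natural numbers equal to one and two; `c k e = 2` is impossible.) -/
theorem JJ.pair {W : Finset ι} (h : JJ c C W Y) {e : ι} (he : e ∈ W) :
    ∃ k ∈ Y, c k e = 1 ∧ (∀ k' ∈ Y, c k' e ≠ 0 → k' = k) ∧
      ∃ e' ∈ W, e' ≠ e ∧ c k e' = 1 ∧ ∀ f ∈ W, c k f ≠ 0 → f = e ∨ f = e' := by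
  obtain ⟨k, hk, hk1, hk2⟩ := l1_sum_one (h.one e he)
  refine ⟨k, hk, hk1, hk2, ?_⟩
  have h1 : ∑ f ∈ W.erase e, c k f = 1 := by
    have h2 := Finset.add_sum_erase W (fun f => c k f) he
    have h3 := h.two k hk
    omega
  obtain ⟨e', he', h2, h3⟩ := l1_sum_one h1
  refine ⟨e', Finset.mem_of_mem_erase he', Finset.ne_of_mem_erase he', h2, fun f hf hf0 => ?_⟩
  by_cases hfe : f = e
  · exact Or.inl hfe
  · exact Or.inr (h3 f (Finset.mem_erase.2 ⟨hfe, hf⟩) hf0)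

/-- `|W| = 2 |Y|` (double counting). -/
theorem JJ.card {W : Finset ι} (h : JJ c C W Y) : W.card = 2 * Y.card := by
  calc W.card = ∑ e ∈ W, 1 := by rw [Finset.sum_const, smul_eq_mul, mul_one]
    _ = ∑ e ∈ W, ∑ k ∈ Y, c k e := Finset.sum_congr rfl fun e he => (h.one e he).symm
    _ = ∑ k ∈ Y, ∑ e ∈ W, c k e := Finset.sum_comm
    _ = ∑ k ∈ Y, 2 := Finset.sum_congr rfl fun k hk => h.two k hk
    _ = 2 * Y.card := by rw [Finset.sum_const, smul_eq_mul, mul_comm]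

end MPb07157.SK
end

section

/-!
# Slopes of perfect matchings
-/

set_option linter.unusedSectionVars false

namespace MPb07157.SK

open Finset Module MPb07157.EX

variable {ι κ : Type} [Fintype ι] [DecidableEq ι] [DecidableEq κ]
variable {c : κ → ι → ℕ} {C : Finset κ} {A : Set (ι → ℚ)} {V V' : Submodule ℚ (ι → ℚ)}
  {T R : Finset ι} {J J' Y Z : Finset κ} {W : Finset ι} {w₀ : ι} {t : ι → ℚ}

/-- In dimension one the two elements of a pair have opposite slopes and coordinates with sum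
one. -/
theorem Mat.slope (hP : Pre c C A V T) {W : Finset ι} (hWT : Disjoint W T) (hM : Mat c C T W Y)
    {k : κ} (hk : k ∈ Y) {e e' : ι} (he : e ∈ W) (he' : e' ∈ W) (hne : e ≠ e') (h1 : c k e ≠ 0)
    (h2 : c k e' ≠ 0) : (∀ ξ ∈ V, ξ e + ξ e' = 0) ∧ ∀ x ∈ A, x e + x e' = 1 := by
  have h3 : c k e = 1 ∧ c k e' = 1 ∧ ∀ f, c k f ≠ 0 → f ∈ T ∨ f = e ∨ f = e' := by
    obtain ⟨k0, -, ha, hb, f, hf, hfe, hc1, hd⟩ := hM.jj.pair he
    obtain rfl := hb k hk h1
    rcases hd e' he' h2 with h | h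
    · exact absurd h.symm hne
    · subst h
      refine ⟨ha, hc1, fun g hg => ?_⟩
      rcases hM.supp k hk g hg with h | h
      · exact Or.inl h
      · exact Or.inr (hd g h hg)
  obtain ⟨ha, hb, hc⟩ := h3
  have key : ∀ y : ι → ℚ, (∀ f ∈ T, y f = 0) → ∑ f, (c k f : ℚ) * y f = y e + y e' := by
    intro y hy
    rw [Fintype.sum_eq_add e e' hne]
    · rw [ha, hb, Nat.cast_one, one_mul, one_mul]
    · intro f hf
      by_cases h0 : c k f = 0
      · rw [h0, Nat.cast_zero, zero_mul]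
      · rcases hc f h0 with h | h | h
        · rw [hy f h, mul_zero]
        · exact absurd h hf.1
        · exact absurd h hf.2
  constructor
  · intro ξ hξ
    rw [← key ξ fun f hf => hP.vT hξ hf]
    exact hP.colV (hM.jj.sub hk) hξ
  · intro x hx
    rw [← key x (hP.zero x hx)]
    exact hP.col k (hM.jj.sub hk) x hx

/-- The sum of the slopes is zero if there is a perfect matching. -/
theorem Mat.sum_zero (hP : Pre c C A V T) (hM : Mat c C T (NCs V) Y) :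
    ∀ ξ ∈ V, ∑ e, ξ e = 0 := by
  intro ξ hξ
  have h1 : ∀ e, e ∉ NCs V → ξ e = 0 := by
    intro e he
    by_contra h
    exact he (mem_NCs.2 ⟨ξ, hξ, h⟩)
  calc ∑ e, ξ e = ∑ e ∈ NCs V, ξ e :=
        (Finset.sum_subset (Finset.subset_univ _) fun e _ he => h1 e he).symm
    _ = ∑ e ∈ NCs V, ∑ k ∈ Y, (c k e : ℚ) * ξ e := by
        refine Finset.sum_congr rfl fun e he => ?_
        rw [← Finset.sum_mul, ← Nat.cast_sum, hM.jj.one e he, Nat.cast_one, one_mul]
    _ = ∑ k ∈ Y, ∑ e ∈ NCs V, (c k e : ℚ) * ξ e := Finset.sum_comm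
    _ = ∑ k ∈ Y, ∑ e, (c k e : ℚ) * ξ e := by
        refine Finset.sum_congr rfl fun k _ => ?_
        refine Finset.sum_subset (Finset.subset_univ _) fun e _ he => ?_
        rw [h1 e he, mul_zero]
    _ = 0 := Finset.sum_eq_zero fun k hk => hP.colV (hM.jj.sub hk) hξ

end MPb07157.SK
end
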