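import Pool.Agent.Lib.MP_b07157_ag.EX.L3
import Pool.Agent.Lib.MP_b07157_ag.EX.L4
import Pool.Agent.Lib.MP_b07157_ag.SK.L2

section

/-!
# One-sided elimination, combinatorial core
-/

namespace MPb07157.EX

open Finset Module

variable {ι κ : Type} [Fintype ι] [DecidableEq ι] [DecidableEq κ]
variable {c : κ → ι → ℕ} {N C : Finset κ} {T : Finset ι} {m m' : ι → ι} {j j' : ι → κ}

/-- the hypothesis of the elimination: every nonempty `S' ⊆ V'` has an owner in `O'` whose single
meets `S'` -/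
def Elim (c : κ → ι → ℕ) (N C : Finset κ) (T V' O' : Finset ι) : Prop :=
  ∀ S' ⊆ V', S'.Nonempty → ∃ w k, Own c N C (T ∪ S') w k ∧ w ∈ O' ∧ ∃ v ∈ S', c k v ≠ 0

/-- elimination: an injection from `V'` to the possible owners -/
theorem elim_inj {V' O' : Finset ι} (hE : Elim c N C T V' O') (hT : ∀ v ∈ V', v ∉ T) (k₀ : κ) :
    ∃ (f : ι → ι) (g : ι → κ), Set.InjOn f V' ∧
      ∀ v ∈ V', f v ∈ O' ∧ g v ∈ U c N (T ∪ V') (f v) ∧ c (g v) v ≠ 0 := by
  have key : ∀ n : ℕ, ∀ S : Finset ι, S.card = n → S ⊆ V' →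
      ∃ (f : ι → ι) (g : ι → κ), Set.InjOn f S ∧
        ∀ v ∈ S, f v ∈ O' ∧ g v ∈ U c N (T ∪ S) (f v) ∧ c (g v) v ≠ 0 := by
    intro n
    induction n with
    | zero =>
      intro S hn _
      rw [Finset.card_eq_zero] at hn
      subst hn
      exact ⟨id, fun _ => k₀, by simp, by simp⟩
    | succ n ih =>
      intro S hn hSV
      have hne : S.Nonempty := by
        rw [← Finset.card_pos, hn]
        exact Nat.succ_pos n
      obtain ⟨w, k, ⟨hw, hU, -⟩, hwO, v, hv, hkv⟩ := hE S hSV hne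
      have hk : k ∈ U c N (T ∪ S) w := by rw [hU]; exact Finset.mem_singleton_self k
      obtain ⟨f, g, hf, hfg⟩ := ih (S.erase v) (by rw [Finset.card_erase_of_mem hv, hn]; rfl)
        ((Finset.erase_subset v S).trans hSV)
      have hsub : T ∪ S.erase v ⊆ T ∪ S :=
        Finset.union_subset_union_right (Finset.erase_subset v S)
      have hvT : v ∉ T := hT v (hSV hv)
      have hkey : ∀ u ∈ S.erase v, f u ≠ w := by
        intro u hu h
        have h2 := (hfg u hu).2.1
        rw [h] at h2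
        have h3 := U_mono hsub w h2
        rw [hU, Finset.mem_singleton] at h3
        rw [h3] at h2
        rcases (mem_U.1 h2).2.2 v hkv with h4 | h4
        · rcases Finset.mem_union.1 h4 with h5 | h5
          · exact hvT h5
          · exact Finset.notMem_erase v S h5
        · exact hw (h4 ▸ Finset.mem_union_right _ hv)
      refine ⟨Function.update f v w, Function.update g v k, ?_, ?_⟩
      · intro a ha b hb hab
        by_cases ha' : a = v
        · by_cases hb' : b = v
          · rw [ha', hb']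
          · exfalso
            rw [ha', Function.update_self, Function.update_of_ne hb'] at hab
            exact hkey b (Finset.mem_erase.2 ⟨hb', hb⟩) hab.symm
        · by_cases hb' : b = v
          · exfalso
            rw [hb', Function.update_self, Function.update_of_ne ha'] at hab
            exact hkey a (Finset.mem_erase.2 ⟨ha', ha⟩) hab
          · rw [Function.update_of_ne ha', Function.update_of_ne hb'] at hab
            exact hf (Finset.mem_coe.2 (Finset.mem_erase.2 ⟨ha', ha⟩))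
              (Finset.mem_coe.2 (Finset.mem_erase.2 ⟨hb', hb⟩)) hab
      · intro u hu
        by_cases hu' : u = v
        · rw [hu', Function.update_self, Function.update_self]
          exact ⟨hwO, hk, hkv⟩
        · rw [Function.update_of_ne hu', Function.update_of_ne hu']
          obtain ⟨h2, h3, h4⟩ := hfg u (Finset.mem_erase.2 ⟨hu', hu⟩)
          exact ⟨h2, U_mono hsub _ h3, h4⟩
  exact key _ V' rfl subset_rfl

/-- one-sided partial matchings -/
structure HM (c : κ → ι → ℕ) (N : Finset κ) (T V' O' : Finset ι) (m : ι → ι) (j : ι → κ) :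
    Prop where
  inj : Set.InjOn m (V' : Set ι)
  mO : ∀ v ∈ V', m v ∈ O'
  mV : ∀ v ∈ V', m v ∉ V'
  jU : ∀ v ∈ V', j v ∈ U c N (T ∪ {v}) (m v)
  jv : ∀ v ∈ V', c (j v) v ≠ 0

/-- If there are not more possible owners than elements of `V'` then there is at most one one-sided
matching. -/
theorem elim_unique {V' O' : Finset ι} (hE : Elim c N C T V' O') (hT : ∀ v ∈ V', v ∉ T)
    (hcard : O'.card ≤ V'.card) (hM : HM c N T V' O' m j) (hM' : HM c N T V' O' m' j') :
    ∀ v ∈ V', m v = m' v ∧ j v = j' v := by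
  have key : ∀ n : ℕ, ∀ S' : Finset ι, S'.card = n → Stage c N T V' O' S' →
      ∀ v ∈ S', m v = m' v ∧ j v = j' v := by
    intro n
    induction n with
    | zero =>
      intro S' hn _ v hv
      rw [Finset.card_eq_zero.1 hn] at hv
      exact absurd hv (Finset.notMem_empty v)
    | succ n ih =>
      intro S' hn hst u hu
      obtain ⟨w, k, hO, hwO, -⟩ := hE S' hst.sub ⟨u, hu⟩
      obtain ⟨v, hv, hwv, hkv⟩ := hst.single hcard hM.inj hM.mO hM.jU hO hwO
      obtain ⟨v', hv', hwv', hkv'⟩ := hst.single hcard hM'.inj hM'.mO hM'.jU hO hwO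
      have hvv : v' = v := by
        have h4 : c (j v) v' ≠ 0 := by
          rw [← hkv, hkv']
          exact hM'.jv v' (hst.sub hv')
        rcases (mem_U.1 (hM.jU v (hst.sub hv))).2.2 v' h4 with h5 | h5
        · rcases Finset.mem_union.1 h5 with h6 | h6
          · exact absurd h6 (hT v' (hst.sub hv'))
          · exact Finset.mem_singleton.1 h6
        · exact absurd (h5 ▸ hst.sub hv') (hM.mV v (hst.sub hv))
      rw [hvv] at hwv' hkv'
      by_cases huv : u = v
      · rw [huv]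
        exact ⟨hwv.symm.trans hwv', hkv.symm.trans hkv'⟩
      · refine ih (S'.erase v) (by rw [Finset.card_erase_of_mem hv, hn]; rfl) ?_ u
          (Finset.mem_erase.2 ⟨huv, hu⟩)
        refine hst.erase hO hv ?_ (hT v (hst.sub hv)) hwO
        rw [hkv]
        exact hM.jv v (hst.sub hv)
  exact key _ V' rfl (Stage.top _ _)

end MPb07157.EX
end

section

/-!
# The line theorem (memo section 1)
-/

namespace MPb07157.EX

open Finset Module

variable {ι κ : Type} [Fintype ι] [DecidableEq ι] [DecidableEq κ]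
variable {c : κ → ι → ℕ} {N C : Finset κ} {A : Set (ι → ℚ)} {V : Submodule ℚ (ι → ℚ)}
  {T : Finset ι} {m m' : ι → ι} {j j' : ι → κ}

/-- LINE THEOREM: a matched line has a perfect matching with columns in `C`. -/
theorem line_exists (hS : Sys c N C A V T) (h1 : finrank ℚ V = 1) (hq : Q0 c N C A T) :
    ∃ m j, PM c N V T m j ∧ ∀ v, NC V v → j v ∈ C := by
  exact line_exists' hS h1 hq

/-- (1a) The perfect matching is unique (among all columns of `N`). -/
theorem line_unique (hS : Sys c N C A V T) (h1 : finrank ℚ V = 1) (hq : Q0 c N C A T)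
    (hM : PM c N V T m j) (hM' : PM c N V T m' j') : ∀ v, NC V v → m v = m' v ∧ j v = j' v := by
  exact line_unique' hS h1 hq hM hM'

/-- (1b) Every one-sided set has a single in the matching. -/
theorem line_reach (hS : Sys c N C A V T) (h1 : finrank ℚ V = 1) (hq : Q0 c N C A T)
    (hM : PM c N V T m j) {x : ι → ℚ} (hx : x ∈ A) {ξ : ι → ℚ} (hξ : ξ ∈ V) {S' : Finset ι}
    (hne : S'.Nonempty) (hS' : ∀ e ∈ S', x e = 0 ∧ 0 < ξ e) :
    ∃ v ∈ S', Own c N C (T ∪ S') (m v) (j v) := by
  exact line_reach' hS h1 hq hM hx hξ hne hS'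

/-- (1c), (1d) If there are not more possible owners than elements of `V'` then every matching
column is isolated. -/
theorem line_isolate (hS : Sys c N C A V T) (h1 : finrank ℚ V = 1) (hq : Q0 c N C A T)
    (hM : PM c N V T m j) {x : ι → ℚ} (hx : x ∈ A) {ξ : ι → ℚ} (hξ : ξ ∈ V) {V' O' : Finset ι}
    (hV' : ∀ e ∈ V', x e = 0 ∧ 0 < ξ e)
    (hO' : ∀ S' ⊆ V', S'.Nonempty → ∀ w k, Own c N C (T ∪ S') w k → w ∈ O')
    (hcard : O'.card ≤ V'.card) {v : ι} (hv : v ∈ V') :
    ∃ S' ⊆ V', v ∈ S' ∧ ∀ w k, Own c N C (T ∪ S') w k → k = j v := by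
  exact line_isolate' hS h1 hq hM hx hξ hV' hO' hcard hv

/-- Perfect matchings and families: a family of a line system is a perfect matching. -/
theorem pm_of_fam (hS : Sys c N C A V T) (h1 : finrank ℚ V = 1) {J : Finset κ}
    (hJ : Fam c N V T J) (hnum : 2 * J.card = (NCs V).card) :
    ∃ m j, PM c N V T m j ∧ (∀ v, NC V v → j v ∈ J) ∧ ∀ k ∈ J, ∃ v, NC V v ∧ j v = k := by
  exact pm_of_fam' hS h1 hJ hnum

end MPb07157.EX
end

section

/-!
# One-sided line theorem
-/

set_option linter.unusedSectionVars false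

namespace MPb07157.SK

open Finset Module MPb07157.EX

variable {ι κ : Type} [Fintype ι] [DecidableEq ι] [DecidableEq κ]
variable {c : κ → ι → ℕ} {C : Finset κ} {A : Set (ι → ℚ)} {V V' : Submodule ℚ (ι → ℚ)}
  {T R : Finset ι} {J J' Y Z : Finset κ} {W : Finset ι} {w₀ : ι} {t : ι → ℚ}

/-- the positive elements that vanish at `x` -/
private def l3V (x ξ : ι → ℚ) : Finset ι := univ.filter fun e => x e = 0 ∧ 0 < ξ e

/-- the negative elements that are one at `x` -/
private def l3O (x ξ : ι → ℚ) : Finset ι := univ.filter fun e => x e = 1 ∧ ξ e < 0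

private theorem mem_l3V {x ξ : ι → ℚ} {e : ι} : e ∈ l3V x ξ ↔ x e = 0 ∧ 0 < ξ e := by
  unfold l3V
  rw [Finset.mem_filter]
  exact ⟨fun h => h.2, fun h => ⟨Finset.mem_univ _, h⟩⟩

private theorem mem_l3O {x ξ : ι → ℚ} {e : ι} : e ∈ l3O x ξ ↔ x e = 1 ∧ ξ e < 0 := by
  unfold l3O
  rw [Finset.mem_filter]
  exact ⟨fun h => h.2, fun h => ⟨Finset.mem_univ _, h⟩⟩

private theorem l3_disj (hP : Pre c C A V T) : Disjoint (NCs V) T := by
  rw [Finset.disjoint_left]
  intro e he heT
  obtain ⟨ξ, hξ, h⟩ := mem_NCs.1 he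
  exact h (hP.vT hξ heT)

/-- the data of a perfect matching -/
private theorem l3_data (hP : Pre c C A V T) (h1 : finrank ℚ V = 1) {ξ : ι → ℚ} (hξ : ξ ∈ V)
    (h0 : ξ ≠ 0) (hM : Mat c C T (NCs V) Y) :
    ∃ (m : ι → ι) (j : ι → κ), (∀ x ∈ A, HM c C T (l3V x ξ) (l3O x ξ) m j) ∧
      (∀ x ∈ A, (l3O x ξ).card ≤ (l3V x ξ).card) ∧ Y = (univ.filter fun e => 0 < ξ e).image j := by
  classical
  obtain ⟨hNC, -⟩ := line_gen h1 hξ h0
  have hdj := l3_disj hP
  have hpair := fun (e : ι) (he : e ∈ NCs V) => hM.jj.pair he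
  obtain ⟨k₀⟩ : Nonempty κ := by
    obtain ⟨e, he⟩ : ∃ e, ξ e ≠ 0 := by
      by_contra hcon
      push Not at hcon
      exact h0 (funext hcon)
    obtain ⟨k, -⟩ := hpair e ((hNC e).2 he)
    exact ⟨k⟩
  have : Nonempty κ := ⟨k₀⟩
  choose! j hjY hj1 hju m hmN hme hcm hms using hpair
  have hslope : ∀ e ∈ NCs V, ξ e + ξ (m e) = 0 ∧ ∀ x ∈ A, x e + x (m e) = 1 := by
    intro e he
    obtain ⟨h2, h3⟩ := Mat.slope hP hdj hM (hjY e he) he (hmN e he) (hme e he).symm
      (by rw [hj1 e he]; exact one_ne_zero) (by rw [hcm e he]; exact one_ne_zero)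
    exact ⟨h2 ξ hξ, h3⟩
  have hinj : ∀ a ∈ NCs V, ∀ b ∈ NCs V, m a = m b → a = b := by
    intro a ha b hb hab
    have h2 := hju (m a) (hmN a ha) (j a) (hjY a ha) (by rw [hcm a ha]; exact one_ne_zero)
    have h3 := hju (m a) (hmN a ha) (j b) (hjY b hb)
      (by rw [hab, hcm b hb]; exact one_ne_zero)
    have h4 : j a = j b := h2.trans h3.symm
    rcases hms b hb a ha (by rw [← h4, hj1 a ha]; exact one_ne_zero) with h5 | h5
    · exact h5
    · exact absurd (h5.trans hab.symm).symm (hme a ha)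
  have hpos : ∀ e, 0 < ξ e → e ∈ NCs V := fun e he => (hNC e).2 he.ne'
  have hneg : ∀ e, ξ e < 0 → e ∈ NCs V := fun e he => (hNC e).2 he.ne
  refine ⟨m, j, ?_, ?_, ?_⟩
  · intro x hx
    refine ⟨?_, ?_, ?_, ?_, ?_⟩
    · intro a ha b hb hab
      exact hinj a (hpos a (mem_l3V.1 (Finset.mem_coe.1 ha)).2) b
        (hpos b (mem_l3V.1 (Finset.mem_coe.1 hb)).2) hab
    · intro v hv
      obtain ⟨h2, h3⟩ := mem_l3V.1 hv
      obtain ⟨h4, h5⟩ := hslope v (hpos v h3)
      have h6 := h5 x hx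
      exact mem_l3O.2 ⟨by linarith, by linarith⟩
    · intro v hv hcon
      obtain ⟨h2, h3⟩ := mem_l3V.1 hv
      obtain ⟨h4, h5⟩ := hslope v (hpos v h3)
      have h6 := h5 x hx
      have h7 := (mem_l3V.1 hcon).1
      linarith
    · intro v hv
      obtain ⟨h2, h3⟩ := mem_l3V.1 hv
      have hvN := hpos v h3
      rw [mem_U]
      refine ⟨hM.jj.sub (hjY v hvN), hcm v hvN, fun e he => ?_⟩
      rcases hM.supp (j v) (hjY v hvN) e he with h4 | h4
      · exact Or.inl (Finset.mem_union_left _ h4)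
      · rcases hms v hvN e h4 he with h5 | h5
        · left
          rw [h5]
          exact Finset.mem_union_right _ (Finset.mem_singleton_self v)
        · exact Or.inr h5
    · intro v hv
      obtain ⟨h2, h3⟩ := mem_l3V.1 hv
      rw [hj1 v (hpos v h3)]
      exact one_ne_zero
  · intro x hx
    refine Finset.card_le_card_of_injOn m ?_ ?_
    · intro w hw
      obtain ⟨h2, h3⟩ := mem_l3O.1 (Finset.mem_coe.1 hw)
      obtain ⟨h4, h5⟩ := hslope w (hneg w h3)
      have h6 := h5 x hx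
      exact Finset.mem_coe.2 (mem_l3V.2 ⟨by linarith, by linarith⟩)
    · intro a ha b hb hab
      exact hinj a (hneg a (mem_l3O.1 (Finset.mem_coe.1 ha)).2) b
        (hneg b (mem_l3O.1 (Finset.mem_coe.1 hb)).2) hab
  · ext k
    rw [Finset.mem_image]
    constructor
    · intro hk
      have h2 := hM.jj.two k hk
      obtain ⟨e, he, hke⟩ : ∃ e ∈ NCs V, c k e ≠ 0 := by
        by_contra hcon
        push Not at hcon
        rw [Finset.sum_eq_zero hcon] at h2
        exact absurd h2 (by norm_num)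
      have h3 := hju e he k hk hke
      rcases lt_or_gt_of_ne ((hNC e).1 he) with h4 | h4
      · refine ⟨m e, Finset.mem_filter.2 ⟨Finset.mem_univ _, ?_⟩, ?_⟩
        · have h5 := (hslope e he).1
          linarith
        · have h5 := hju (m e) (hmN e he) k hk (by rw [h3, hcm e he]; exact one_ne_zero)
          exact h5.symm
      · exact ⟨e, Finset.mem_filter.2 ⟨Finset.mem_univ _, h4⟩, h3.symm⟩
    · rintro ⟨e, he, rfl⟩
      exact hjY e (hpos e (Finset.mem_filter.1 he).2)

/-- ONE-SIDED LINE THEOREM.  `dim V = 1`, `ξ ∈ V` not zero, sum of the slopes zero; on the positive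
side every one-sided set has a single that meets it.  Then there is exactly one perfect matching.

Proof. `Pos = {e | 0 < ξ e}`, `Neg = {e | ξ e < 0}`, `NCs V = Pos ∪ Neg`.  For `x ∈ A` put
`V_x = {e | x e = 0 ∧ 0 < ξ e}`, `O_x = {e | x e = 1 ∧ ξ e < 0}`.  The owner `w` of a single `k` of
`T ∪ S'`, `∅ ≠ S' ⊆ V_x`, that meets `S'` is in `O_x`: unit equation at `x` (`x = 0` on `T ∪ S'`)
and at `ξ`: `ξ w = - ∑_{S'} c k e ξ e < 0`.  So `EX.Elim c C C T V_x O_x`; `EX.elim_inj`.  For `e ∈ Pos` let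
`x_e ∈ A` be the point with `x_e e = 0`; `μ e := m_{x_e} e`, `j e := j_{x_e} e`.  `μ : Pos → Neg` is
injective (`μ e = μ e' = w` gives `x_e w = x_{e'} w = 1`, so `x_e = x_{e'}`), and
`- ξ (μ e) = ∑_{V_x} c (j e) f ξ f ≥ ξ e`.  As `∑_{Pos} ξ = ∑_{Neg} (-ξ)`, `μ` is a bijection
`Pos → Neg` and equality holds everywhere: `c (j e) e = 1` and `c (j e) f = 0` for the other
`f ∈ V_x`.  `Y := Pos.image j` is `Mat`.
Uniqueness: `O_x = μ '' V_x`, so `|O_x| ≤ |V_x|`.  If `Y'` is another one, `m' e` = the partner of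
`e` in `Y'` (`JJ.pair`), `j' e` = the column of `e`, is an `EX.HM` for `V_x`, `O_x` (`Mat.slope`), and
`EX.elim_unique` gives `j' e = j e` for `e ∈ V_x`, all `x`; every column of `Y'` contains a positive
element (`Mat.slope`), so `Y' = Y`. -/
theorem one_sided (hP : Pre c C A V T) (h1 : finrank ℚ V = 1) {ξ : ι → ℚ} (hξ : ξ ∈ V)
    (h0 : ξ ≠ 0) (hsum : ∑ e, ξ e = 0)
    (h : ∀ x ∈ A, ∀ S' : Finset ι, S'.Nonempty → (∀ e ∈ S', x e = 0 ∧ 0 < ξ e) →
      ∃ w k, Own c C C (T ∪ S') w k ∧ ∃ v ∈ S', c k v ≠ 0) :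
    ∃ Y, Mat c C T (NCs V) Y ∧ ∀ Y', Mat c C T (NCs V) Y' → Y' = Y := by
  classical
  obtain ⟨hNC, hsp⟩ := line_gen h1 hξ h0
  obtain ⟨p, hp⟩ := hP.ne
  have hxA : ∀ r : ℚ, p + r • ξ ∈ A := fun r => hP.add_mem hp (V.smul_mem r hξ)
  have hξT : ∀ f ∈ T, ξ f = 0 := fun f hf => hP.vT hξ hf
  -- elimination
  have hElim : ∀ x ∈ A, Elim c C C T (l3V x ξ) (l3O x ξ) := by
    intro x hx S' hS' hne
    have hS'' : ∀ e ∈ S', x e = 0 ∧ 0 < ξ e := fun e he => mem_l3V.1 (hS' he)
    obtain ⟨w, k, hO, v, hv, hkv⟩ := h x hx S' hne hS''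
    refine ⟨w, k, hO, ?_, v, hv, hkv⟩
    obtain ⟨hw, hU, hkC⟩ := hO
    have hk : k ∈ U c C (T ∪ S') w := by rw [hU]; exact Finset.mem_singleton_self k
    have hwS : w ∉ S' := fun h => hw (Finset.mem_union_right _ h)
    have h2 := U_sum hk hwS (hP.zero x hx)
    rw [hP.col k hkC x hx] at h2
    have h3 := U_sum hk hwS hξT
    rw [hP.colV hkC hξ] at h3
    have h4 : ∑ e ∈ S', (c k e : ℚ) * x e = 0 :=
      Finset.sum_eq_zero fun e he => by rw [(hS'' e he).1, mul_zero]
    have h7 : 0 < ∑ e ∈ S', (c k e : ℚ) * ξ e := by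
      apply Finset.sum_pos'
      · exact fun e he => mul_nonneg (Nat.cast_nonneg _) (hS'' e he).2.le
      · exact ⟨v, hv, mul_pos (Nat.cast_pos.2 (Nat.pos_of_ne_zero hkv)) (hS'' v hv).2⟩
    exact mem_l3O.2 ⟨by linarith, by linarith⟩
  -- a positive element
  obtain ⟨e0, he0⟩ : ∃ e, 0 < ξ e := by
    by_contra hcon
    push Not at hcon
    apply h0
    have h2 := (Finset.sum_eq_zero_iff_of_nonpos fun e _ => hcon e).1 hsum
    funext e
    exact h2 e (Finset.mem_univ e)
  let tt : ι → ℚ := fun e => -(p e) / ξ e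
  have hmem : ∀ e, 0 < ξ e → e ∈ l3V (p + tt e • ξ) ξ := by
    intro e he
    rw [mem_l3V]
    refine ⟨?_, he⟩
    rw [Pi.add_apply, Pi.smul_apply, smul_eq_mul]
    show p e + -(p e) / ξ e * ξ e = 0
    rw [div_mul_cancel₀ _ he.ne']
    ring
  obtain ⟨k₀⟩ : Nonempty κ := by
    obtain ⟨w, k, -⟩ := hElim _ (hxA (tt e0)) _ subset_rfl ⟨e0, hmem e0 he0⟩
    exact ⟨k⟩
  have hVT : ∀ x, ∀ v ∈ l3V x ξ, v ∉ T := fun x v hv hvT =>
    (mem_l3V.1 hv).2.ne' (hξT v hvT)
  have hch := fun r : ℚ => elim_inj (hElim _ (hxA r)) (hVT _) k₀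
  choose f g hf hfg using hch
  let F : ι → ι := fun e => f (tt e) e
  let G : ι → κ := fun e => g (tt e) e
  have A1 : ∀ e, 0 < ξ e → G e ∈ U c C (T ∪ l3V (p + tt e • ξ) ξ) (F e) := fun e he =>
    (hfg _ e (hmem e he)).2.1
  have A2 : ∀ e, 0 < ξ e → c (G e) e ≠ 0 := fun e he => (hfg _ e (hmem e he)).2.2
  have A34 : ∀ e, 0 < ξ e → p (F e) + tt e * ξ (F e) = 1 ∧ ξ (F e) < 0 := fun e he => by
    have h2 := mem_l3O.1 (hfg _ e (hmem e he)).1
    rwa [Pi.add_apply, Pi.smul_apply, smul_eq_mul] at h2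
  have A6 : ∀ e, 0 < ξ e → F e ∉ l3V (p + tt e • ξ) ξ := fun e he h => by
    have h2 := (mem_l3V.1 h).2
    have h3 := (A34 e he).2
    linarith
  let P : Finset ι := univ.filter fun e => 0 < ξ e
  let Ng : Finset ι := univ.filter fun e => ξ e < 0
  have hPm : ∀ e, e ∈ P ↔ 0 < ξ e := fun e => by
    rw [Finset.mem_filter]
    exact ⟨fun h => h.2, fun h => ⟨Finset.mem_univ _, h⟩⟩
  have hNm : ∀ e, e ∈ Ng ↔ ξ e < 0 := fun e => by
    rw [Finset.mem_filter]
    exact ⟨fun h => h.2, fun h => ⟨Finset.mem_univ _, h⟩⟩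
  have hinj : Set.InjOn F (P : Set ι) := by
    intro a ha b hb hab
    rw [Finset.mem_coe, hPm] at ha hb
    have h2 := A34 a ha
    have h3 := A34 b hb
    rw [← hab] at h3
    have h4 : tt a = tt b := by
      have h5 : (tt a - tt b) * ξ (F a) = 0 := by linarith
      rcases mul_eq_zero.1 h5 with h6 | h6
      · linarith
      · exact absurd h6 h2.2.ne
    have h6 : f (tt a) a = f (tt a) b := by
      have h7 : f (tt a) a = f (tt b) b := hab
      rwa [← h4] at h7
    exact hf (tt a) (Finset.mem_coe.2 (hmem a ha))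
      (Finset.mem_coe.2 (by rw [h4]; exact hmem b hb)) h6
  have hFN : P.image F ⊆ Ng := by
    intro w hw
    obtain ⟨e, he, rfl⟩ := Finset.mem_image.1 hw
    exact (hNm _).2 (A34 e ((hPm e).1 he)).2
  -- slopes
  have hsl : ∀ e, 0 < ξ e →
      - ξ (F e) = ∑ e' ∈ l3V (p + tt e • ξ) ξ, (c (G e) e' : ℚ) * ξ e' := by
    intro e he
    have h2 := U_sum (A1 e he) (A6 e he) hξT
    rw [hP.colV (mem_U.1 (A1 e he)).1 hξ] at h2
    linarith
  have hVpos : ∀ x, ∀ e' ∈ l3V x ξ, 0 < ξ e' := fun x e' he' => (mem_l3V.1 he').2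
  have hle : ∀ e ∈ P, 0 ≤ - ξ (F e) - ξ e := by
    intro e he
    rw [hPm] at he
    rw [hsl e he]
    have := col_ge (x := ξ) (hVpos _) (hmem e he) (A2 e he)
    linarith
  have hsplit : ∑ e ∈ P, ξ e + ∑ e ∈ Ng, ξ e = 0 := by
    rw [← hsum]
    rw [← Finset.sum_union]
    · apply Finset.sum_subset (Finset.subset_univ _)
      intro e _ he
      rw [Finset.mem_union, hPm, hNm] at he
      push Not at he
      exact le_antisymm he.1 he.2
    · rw [Finset.disjoint_left]
      intro e he he'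
      rw [hPm] at he
      rw [hNm] at he'
      linarith
  have hsd : ∑ e ∈ Ng \ P.image F, ξ e + ∑ e ∈ P, ξ (F e) = ∑ e ∈ Ng, ξ e := by
    rw [← Finset.sum_sdiff hFN, Finset.sum_image (f := ξ) hinj]
  have hnp : ∑ e ∈ Ng \ P.image F, ξ e ≤ 0 := Finset.sum_nonpos fun e he =>
    ((hNm e).1 (Finset.mem_sdiff.1 he).1).le
  have hge : 0 ≤ ∑ e ∈ P, (- ξ (F e) - ξ e) := Finset.sum_nonneg hle
  have hexp : ∑ e ∈ P, (- ξ (F e) - ξ e) = - ∑ e ∈ P, ξ (F e) - ∑ e ∈ P, ξ e := by
    rw [Finset.sum_sub_distrib, Finset.sum_neg_distrib]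
  have hz1 : ∑ e ∈ P, (- ξ (F e) - ξ e) = 0 := by linarith
  have hz2 : ∑ e ∈ Ng \ P.image F, ξ e = 0 := by linarith
  have himg : P.image F = Ng := by
    apply Finset.Subset.antisymm hFN
    intro w hw
    by_contra hcon
    have h2 := (Finset.sum_eq_zero_iff_of_nonpos fun e he =>
      ((hNm e).1 (Finset.mem_sdiff.1 he).1).le).1 hz2 w (Finset.mem_sdiff.2 ⟨hw, hcon⟩)
    rw [hNm] at hw
    linarith
  have heq : ∀ e, 0 < ξ e →
      c (G e) e = 1 ∧ ∀ e' ∈ l3V (p + tt e • ξ) ξ, e' ≠ e → c (G e) e' = 0 := by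
    intro e he
    have h2 := (Finset.sum_eq_zero_iff_of_nonneg hle).1 hz1 e ((hPm e).2 he)
    apply col_eq (x := ξ) (hVpos _) (hmem e he) (A2 e he)
    rw [← hsl e he]
    linarith
  have hG1 : ∀ e, 0 < ξ e → c (G e) (F e) = 1 := fun e he => (mem_U.1 (A1 e he)).2.1
  have hGC : ∀ e, 0 < ξ e → G e ∈ C := fun e he => (mem_U.1 (A1 e he)).1
  have hGs : ∀ e, 0 < ξ e → ∀ e', c (G e) e' ≠ 0 → e' ∈ T ∨ e' = e ∨ e' = F e := by
    intro e he e' he'
    rcases (mem_U.1 (A1 e he)).2.2 e' he' with h2 | h2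
    · rcases Finset.mem_union.1 h2 with h3 | h3
      · exact Or.inl h3
      · right
        left
        by_contra h4
        exact he' ((heq e he).2 e' h3 h4)
    · exact Or.inr (Or.inr h2)
  have hpT : ∀ e, ξ e ≠ 0 → e ∉ T := fun e he heT => he (hξT e heT)
  -- the matching
  have hMat : Mat c C T (NCs V) (P.image G) := by
    refine ⟨⟨?_, ?_, ?_⟩, ?_⟩
    · intro k hk
      obtain ⟨e, he, rfl⟩ := Finset.mem_image.1 hk
      exact hGC e ((hPm e).1 he)
    · intro e he
      have hee := (hNC e).1 he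
      rcases lt_or_gt_of_ne hee with h2 | h2
      · have h3 : e ∈ P.image F := by rw [himg]; exact (hNm e).2 h2
        obtain ⟨v, hv, rfl⟩ := Finset.mem_image.1 h3
        have hv' := (hPm v).1 hv
        rw [Finset.sum_eq_single (G v)]
        · exact hG1 v hv'
        · intro k hk hkne
          obtain ⟨u, hu, rfl⟩ := Finset.mem_image.1 hk
          by_contra h4
          have hu' := (hPm u).1 hu
          rcases hGs u hu' _ h4 with h5 | h5 | h5
          · exact hpT _ hee h5
          · rw [h5] at h2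
            linarith
          · exact hkne (by rw [hinj (Finset.mem_coe.2 hv) (Finset.mem_coe.2 hu) h5])
        · intro h4
          exact absurd (Finset.mem_image_of_mem G hv) h4
      · rw [Finset.sum_eq_single (G e)]
        · exact (heq e h2).1
        · intro k hk hkne
          obtain ⟨u, hu, rfl⟩ := Finset.mem_image.1 hk
          by_contra h4
          have hu' := (hPm u).1 hu
          rcases hGs u hu' _ h4 with h5 | h5 | h5
          · exact hpT _ hee h5
          · exact hkne (by rw [h5])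
          · have h6 := (A34 u hu').2
            rw [← h5] at h6
            linarith
        · intro h4
          exact absurd (Finset.mem_image_of_mem G ((hPm e).2 h2)) h4
    · intro k hk
      obtain ⟨e, he, rfl⟩ := Finset.mem_image.1 hk
      have he' := (hPm e).1 he
      have hFe := (A34 e he').2
      have hne : e ≠ F e := by
        intro h2
        rw [← h2] at hFe
        linarith
      have h2 : ∑ e' ∈ ({e, F e} : Finset ι), c (G e) e' = ∑ e' ∈ NCs V, c (G e) e' := by
        apply Finset.sum_subset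
        · intro e' he'
          rw [Finset.mem_insert, Finset.mem_singleton] at he'
          rcases he' with rfl | rfl
          · exact (hNC _).2 (by linarith [(hPm e').1 he])
          · exact (hNC _).2 hFe.ne
        · intro e' h3 h4
          by_contra h5
          rcases hGs e he' e' h5 with h6 | h6 | h6
          · exact hpT _ ((hNC _).1 h3) h6
          · exact h4 (by rw [h6]; exact Finset.mem_insert_self _ _)
          · exact h4 (by rw [h6]; exact Finset.mem_insert_of_mem (Finset.mem_singleton_self _))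
      rw [← h2, Finset.sum_pair hne, (heq e he').1, hG1 e he']
    · intro k hk e' hke
      obtain ⟨e, he, rfl⟩ := Finset.mem_image.1 hk
      have he' := (hPm e).1 he
      rcases hGs e he' e' hke with h2 | h2 | h2
      · exact Or.inl h2
      · right
        rw [h2]
        exact (hNC _).2 he'.ne'
      · right
        rw [h2]
        exact (hNC _).2 (A34 e he').2.ne
  refine ⟨P.image G, hMat, fun Y' hY' => ?_⟩
  obtain ⟨m, j, hHM, hcard, hY⟩ := l3_data hP h1 hξ h0 hMat
  obtain ⟨m', j', hHM', -, hY''⟩ := l3_data hP h1 hξ h0 hY'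
  rw [hY, hY'']
  apply Finset.image_congr
  intro e he
  have he' : 0 < ξ e := (hPm e).1 (Finset.mem_coe.1 he)
  have h2 := elim_unique (hElim _ (hxA (tt e))) (hVT _) (hcard _ (hxA (tt e)))
    (hHM _ (hxA (tt e))) (hHM' _ (hxA (tt e))) e (hmem e he')
  exact h2.2.symm

end MPb07157.SK
end

section

/-!
# Lines without constant owners
-/

set_option linter.unusedSectionVars false

namespace MPb07157.SK

open Finset Module MPb07157.EX

variable {ι κ : Type} [Fintype ι] [DecidableEq ι] [DecidableEq κ]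
variable {c : κ → ι → ℕ} {C : Finset κ} {A : Set (ι → ℚ)} {V V' : Submodule ℚ (ι → ℚ)}
  {T R : Finset ι} {J J' Y Z : Finset κ} {W : Finset ι} {w₀ : ι} {t : ι → ℚ}

/-- LINE THEOREM.  A line without constant owner has exactly one perfect matching.

Proof. Let `ξ ∈ V`, `ξ ≠ 0`.  Both `ξ` and `-ξ` satisfy the hypothesis on singles of `one_sided`
(for one-sided `S'` at `x`, `S'` is a state, so there is a single `(w, k)`; if `k` does not meet
`S'` then `k ∈ U T w ⊆ U (T ∪ S') w = {k}` is a constant owner: `w ∉ T`, `x w = 1` on `A` by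
`Pre.U_one`, contradiction to `Q0`).  The sum of the slopes is zero: the injection
`μ : Pos → Neg` of the proof of `one_sided` (which does not use the sum) gives
`∑_{Pos} ξ ≤ ∑_{Neg} (-ξ)`, and the same for `-ξ`.  Alternatively: existence from
`EX.line_exists` (`Y = (NCs V).image j`), so `Mat.sum_zero` gives `hsum`, or uniqueness from
`EX.line_unique` (a `Mat` family gives `m'`, `j'` with `PM` by `JJ.pair`). -/
theorem line_mat (hS : Sys c C C A V T) (h1 : finrank ℚ V = 1) (hq : Q0 c C C A T) :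
    ∃ Y, Mat c C T (NCs V) Y ∧ ∀ Y', Mat c C T (NCs V) Y' → Y' = Y := by
  classical
  obtain ⟨m, j, hM, hjC⟩ := EX.line_exists hS h1 hq
  have hT : ∀ e ∈ T, ¬ NC V e := by
    rintro e he ⟨ξ, hξ, h0⟩
    obtain ⟨x, hx⟩ := hS.ne
    have h2 : x + ξ ∈ A := by
      rw [hS.aff x hx, add_sub_cancel_left]
      exact hξ
    have h3 := hS.zero _ h2 e he
    rw [Pi.add_apply, hS.zero x hx e he, zero_add] at h3
    exact h0 h3
  have hmem : ∀ e, e ∈ NCs V ↔ NC V e := fun e => mem_NCs
  have hmat : Mat c C T (NCs V) ((NCs V).image j) := by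
    refine ⟨⟨?_, ?_, ?_⟩, ?_⟩
    · intro k hk
      obtain ⟨v, hv, rfl⟩ := Finset.mem_image.1 hk
      exact hjC v ((hmem v).1 hv)
    · intro e he
      have he' := (hmem e).1 he
      rw [Finset.sum_eq_single (j e)]
      · exact hM.val e he'
      · intro k hk hke
        obtain ⟨v, hv, rfl⟩ := Finset.mem_image.1 hk
        have hv' := (hmem v).1 hv
        by_contra h0
        rcases hM.supp v hv' e h0 with h2 | h2 | h2
        · exact hT e h2 he'
        · exact hke (by rw [h2])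
        · exact hke (by rw [h2, hM.jm v hv'])
      · intro h0
        exact absurd (Finset.mem_image_of_mem j he) h0
    · intro k hk
      obtain ⟨v, hv, rfl⟩ := Finset.mem_image.1 hk
      have hv' := (hmem v).1 hv
      have h2 : ({v, m v} : Finset ι) ⊆ NCs V := by
        intro e he
        rw [Finset.mem_insert, Finset.mem_singleton] at he
        rcases he with rfl | rfl
        · exact hv
        · exact (hmem _).2 (hM.nc v hv')
      rw [← Finset.sum_subset h2, Finset.sum_pair (hM.ne v hv').symm, hM.val v hv']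
      · have h3 := hM.val (m v) (hM.nc v hv')
        rw [hM.jm v hv'] at h3
        rw [h3]
      · intro e he he2
        by_contra h0
        rw [Finset.mem_insert, Finset.mem_singleton, not_or] at he2
        rcases hM.supp v hv' e h0 with h3 | h3 | h3
        · exact hT e h3 ((hmem e).1 he)
        · exact he2.1 h3
        · exact he2.2 h3
    · intro k hk e h0
      obtain ⟨v, hv, rfl⟩ := Finset.mem_image.1 hk
      have hv' := (hmem v).1 hv
      rcases hM.supp v hv' e h0 with h3 | h3 | h3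
      · exact Or.inl h3
      · exact Or.inr (by rw [h3]; exact hv)
      · exact Or.inr (by rw [h3]; exact (hmem _).2 (hM.nc v hv'))
  refine ⟨_, hmat, fun Y' hY' => ?_⟩
  -- a nonconstant element
  obtain ⟨v₀, hv₀⟩ : ∃ v, v ∈ NCs V := by
    have hne : V ≠ ⊥ := by
      intro h
      rw [h, finrank_bot] at h1
      omega
    obtain ⟨ξ, hξ, hξ0⟩ := (Submodule.ne_bot_iff V).1 hne
    obtain ⟨v, hv⟩ := Function.ne_iff.1 hξ0
    exact ⟨v, (hmem v).2 ⟨ξ, hξ, hv⟩⟩
  obtain ⟨k₀, -⟩ := hY'.jj.pair hv₀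
  have hch : ∀ e, ∃ k e', e ∈ NCs V → k ∈ Y' ∧ c k e = 1 ∧ (∀ k' ∈ Y', c k' e ≠ 0 → k' = k) ∧
      e' ∈ NCs V ∧ e' ≠ e ∧ c k e' = 1 ∧ ∀ f ∈ NCs V, c k f ≠ 0 → f = e ∨ f = e' := by
    intro e
    by_cases he : e ∈ NCs V
    · obtain ⟨k, hk, a1, a2, e', he', a3, a4, a5⟩ := hY'.jj.pair he
      exact ⟨k, e', fun _ => ⟨hk, a1, a2, he', a3, a4, a5⟩⟩
    · exact ⟨k₀, e, fun h => absurd h he⟩
  choose j' m' hjm using hch
  have hM' : PM c C V T m' j' := by
    have hj : ∀ v ∈ NCs V, j' (m' v) = j' v := by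
      intro v hv
      obtain ⟨b1, b2, b3, b4, b5, b6, b7⟩ := hjm v hv
      obtain ⟨d1, d2, d3, d4, d5, d6, d7⟩ := hjm (m' v) b4
      exact (d3 (j' v) b1 (by rw [b6]; exact one_ne_zero)).symm
    refine ⟨?_, ?_, ?_, ?_, ?_, ?_, ?_⟩
    · intro v hv
      exact (hmem _).1 (hjm v ((hmem v).2 hv)).2.2.2.1
    · intro v hv
      have hv' := (hmem v).2 hv
      obtain ⟨b1, b2, b3, b4, b5, b6, b7⟩ := hjm v hv'
      obtain ⟨d1, d2, d3, d4, d5, d6, d7⟩ := hjm (m' v) b4
      rw [hj v hv'] at d6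
      rcases b7 (m' (m' v)) d4 (by rw [d6]; exact one_ne_zero) with h2 | h2
      · exact h2
      · exact absurd h2 d5
    · intro v hv
      exact (hjm v ((hmem v).2 hv)).2.2.2.2.1
    · intro v hv
      exact hj v ((hmem v).2 hv)
    · intro v hv
      exact hY'.jj.sub (hjm v ((hmem v).2 hv)).1
    · intro v hv
      exact (hjm v ((hmem v).2 hv)).2.1
    · intro v hv e h0
      have hv' := (hmem v).2 hv
      obtain ⟨b1, b2, b3, b4, b5, b6, b7⟩ := hjm v hv'
      rcases hY'.supp _ b1 e h0 with h2 | h2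
      · exact Or.inl h2
      · exact Or.inr (b7 e h2 h0)
  have huniq := EX.line_unique hS h1 hq hM hM'
  have hY'eq : Y' = (NCs V).image j' := by
    apply Finset.Subset.antisymm
    · intro k hk
      obtain ⟨e, he, he0⟩ : ∃ e ∈ NCs V, c k e ≠ 0 := by
        by_contra hcon
        push Not at hcon
        have h2 := hY'.jj.two k hk
        rw [Finset.sum_eq_zero hcon] at h2
        omega
      rw [Finset.mem_image]
      exact ⟨e, he, ((hjm e he).2.2.1 k hk he0).symm⟩
    · intro k hk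
      obtain ⟨e, he, rfl⟩ := Finset.mem_image.1 hk
      exact (hjm e he).1
  rw [hY'eq]
  apply Finset.image_congr
  intro v hv
  exact ((huniq v ((hmem v).1 (Finset.mem_coe.1 hv))).2).symm

end MPb07157.SK
end

section

/-!
# Perfect matchings are rigid
-/

set_option linter.unusedSectionVars false

namespace MPb07157.SK

open Finset Module MPb07157.EX

variable {ι κ : Type} [Fintype ι] [DecidableEq ι] [DecidableEq κ]
variable {c : κ → ι → ℕ} {C : Finset κ} {A : Set (ι → ℚ)} {V V' : Submodule ℚ (ι → ℚ)}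
  {T R : Finset ι} {J J' Y Z : Finset κ} {W : Finset ι} {w₀ : ι} {t : ι → ℚ}

private theorem l4_notT (hP : Pre c C A V T) {e : ι} (he : e ∈ NCs V) : e ∉ T := by
  intro hT
  obtain ⟨ξ, hξ, h⟩ := mem_NCs.1 he
  exact h (hP.vT hξ hT)

private theorem l4_zero {e : ι} (he : e ∉ NCs V) {ξ : ι → ℚ} (hξ : ξ ∈ V) : ξ e = 0 := by
  by_contra h
  exact he (mem_NCs.2 ⟨ξ, hξ, h⟩)

/-- a sum equal to one -/
private theorem l4_one {Y : Finset κ} {f : κ → ℕ} (h : ∑ k ∈ Y, f k = 1) :
    (∀ k ∈ Y, f k ≤ 1) ∧ (∃ k ∈ Y, f k ≠ 0) ∧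
      ∀ k ∈ Y, ∀ k' ∈ Y, f k ≠ 0 → f k' ≠ 0 → k = k' := by
  refine ⟨fun k hk => ?_, ?_, fun k hk k' hk' h1 h2 => ?_⟩
  · rw [← h]
    exact Finset.single_le_sum (f := f) (fun _ _ => Nat.zero_le _) hk
  · by_contra hne
    push Not at hne
    rw [Finset.sum_eq_zero hne] at h
    exact absurd h (by norm_num)
  · by_contra hne
    have h3 : ∑ x ∈ ({k, k'} : Finset κ), f x ≤ ∑ x ∈ Y, f x := by
      apply Finset.sum_le_sum_of_subset
      intro x hx
      rw [Finset.mem_insert, Finset.mem_singleton] at hx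
      rcases hx with rfl | rfl
      · exact hk
      · exact hk'
    rw [Finset.sum_pair hne, h] at h3
    omega

private theorem l4_fam (hP : Pre c C A V T) (hM : Mat c C T (NCs V) Y) : Fam c C T Y := by
  refine ⟨hM.jj.sub, fun k hk e he => ?_, fun k hk k' hk' e he h1 h2 => ?_⟩
  · by_cases h : c k e = 0
    · rw [h]
      exact Nat.zero_le 1
    · have h1 : e ∈ NCs V := (hM.supp k hk e h).resolve_left he
      exact (l4_one (hM.jj.one e h1)).1 k hk
  · have h3 : e ∈ NCs V := (hM.supp k hk e h1).resolve_left he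
    exact (l4_one (hM.jj.one e h3)).2.2 k hk k' hk' h1 h2

private theorem l4_PU (hP : Pre c C A V T) (hM : Mat c C T (NCs V) Y) : PU c T Y = NCs V := by
  ext e
  rw [mem_PU]
  constructor
  · rintro ⟨h1, k, hk, h2⟩
    exact (hM.supp k hk e h2).resolve_left h1
  · intro h
    exact ⟨l4_notT hP h, (l4_one (hM.jj.one e h)).2.1⟩

private theorem l4_sup (hP : Pre c C A V T) (hM : Mat c C T (NCs V) Y) {k : κ} (hk : k ∈ Y) :
    (EX.sup c T k).card = 2 := by
  have hF := l4_fam hP hM
  rw [← hM.jj.two k hk, Finset.card_eq_sum_ones]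
  have h1 : EX.sup c T k ⊆ NCs V := by
    intro e he
    rw [mem_sup'] at he
    exact (hM.supp k hk e he.2).resolve_left he.1
  rw [← Finset.sum_subset h1]
  · refine Finset.sum_congr rfl fun e he => ?_
    rw [mem_sup'] at he
    have h2 := hF.zo k hk e he.1
    have h3 := he.2
    omega
  · intro e he he'
    rw [mem_sup'] at he'
    by_contra h4
    exact he' ⟨l4_notT hP he, h4⟩

private theorem l4_cut : cutV V (NCs V)ᶜ = V := by
  ext ξ
  rw [mem_cutV]
  refine ⟨fun h => h.1, fun h => ⟨h, fun f hf => ?_⟩⟩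
  rw [Finset.mem_compl] at hf
  exact l4_zero hf h

/-- The unique perfect matching of a line is a rigid minimal deficit.

Proof. `Fam`: `one`, `supp` (elements outside `T` and `NCs V` have value zero).  `PU Y = NCs V`,
`|NCs V| = 2 |Y|`, `cutV V (NCs V)ᶜ = V` of dimension one: `num`.  Minimal: for `Z ⊂ Y` some
`e ∈ NCs V` is not in `PU Z`, so `cutV V (PU Z)ᶜ = ⊥` (`line_gen`) and `|PU Z| = 2 |Z|`.
Rigid: by `Pre.rigid_of_whole` let `Y'` be a family with the same `PU`, number and sums.  It is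
`Mat`: `one` and `supp` are clear; `two`: every `k ∈ Y'` has `∑_{NCs V} c k e ≥ 2` since it is not
zero outside `T` and `∑ c k e ξ e = 0`, `ξ e ≠ 0` on `NCs V`; the total is `|NCs V| = 2 |Y'|`. -/
theorem mat_rigid (hP : Pre c C A V T) (h1 : finrank ℚ V = 1) (hM : Mat c C T (NCs V) Y)
    (hu : ∀ Y', Mat c C T (NCs V) Y' → Y' = Y) : MinD c C V T Y ∧ Rigid c C T Y := by
  have hF := l4_fam hP hM
  have hPU := l4_PU hP hM
  have hcard := hM.jj.card
  -- a generator
  obtain ⟨ξ, hξV, hξ0⟩ : ∃ ξ ∈ V, ξ ≠ 0 := by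
    apply (Submodule.ne_bot_iff V).1
    intro h
    rw [h, finrank_bot] at h1
    exact absurd h1 (by norm_num)
  obtain ⟨hN, hgen⟩ := line_gen h1 hξV hξ0
  obtain ⟨e0, he0⟩ : ∃ e, ξ e ≠ 0 := by
    by_contra h
    push Not at h
    exact hξ0 (funext h)
  have he0N : e0 ∈ NCs V := (hN e0).2 he0
  obtain ⟨k0, hk0, _⟩ := (l4_one (hM.jj.one e0 he0N)).2.1
  refine ⟨⟨⟨hF, ⟨k0, hk0⟩, ?_⟩, ?_⟩, ?_⟩
  · rw [hPU, l4_cut, h1, hcard]
  · intro Z hZ hD
    have hZY := hZ.1
    obtain ⟨k, hk, hkZ⟩ := Finset.exists_of_ssubset hZ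
    have h2 : (EX.sup c T k).Nonempty := by
      rw [← Finset.card_pos, l4_sup hP hM hk]
      norm_num
    obtain ⟨e, he⟩ := h2
    rw [mem_sup'] at he
    have heN : e ∈ NCs V := (hM.supp k hk e he.2).resolve_left he.1
    have hePU : e ∉ PU c T Z := by
      intro h
      rw [mem_PU] at h
      obtain ⟨_, k', hk', h3⟩ := h
      have h4 := hF.dj k hk k' (hZY hk') e he.1 he.2 h3
      exact hkZ (h4 ▸ hk')
    have hbot : cutV V (PU c T Z)ᶜ = ⊥ := by
      rw [Submodule.eq_bot_iff]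
      intro η hη
      rw [mem_cutV] at hη
      obtain ⟨r, hr⟩ := hgen η hη.1
      have h5 := hη.2 e (Finset.mem_compl.2 hePU)
      rw [hr, Pi.smul_apply, smul_eq_mul] at h5
      have h6 : r = 0 := by
        rcases mul_eq_zero.1 h5 with h | h
        · exact h
        · exact absurd h ((hN e).1 heN)
      rw [hr, h6, zero_smul]
    have h7 := hD.num
    rw [hbot, finrank_bot, (hF.mono hZY).card_PU] at h7
    have h8 : ∑ k ∈ Z, (EX.sup c T k).card = ∑ k ∈ Z, 2 :=
      Finset.sum_congr rfl fun k hk => l4_sup hP hM (hZY hk)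
    rw [h8, Finset.sum_const, smul_eq_mul] at h7
    omega
  · refine hP.rigid_of_whole hF fun Y' hF' hPU' hc' hs' => hu Y' ?_
    have hPN : PU c T Y' = NCs V := hPU'.trans hPU
    have hone : ∀ e ∈ NCs V, ∑ k ∈ Y', c k e = 1 := fun e he => by
      rw [hs' e (l4_notT hP he)]
      exact hM.jj.one e he
    have hsupp : ∀ k ∈ Y', ∀ e, c k e ≠ 0 → e ∈ T ∨ e ∈ NCs V := by
      intro k hk e he
      by_cases hT : e ∈ T
      · exact Or.inl hT
      · refine Or.inr ?_
        rw [← hPN, mem_PU]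
        exact ⟨hT, k, hk, he⟩
    have hge : ∀ k ∈ Y', 2 ≤ ∑ e ∈ NCs V, c k e := by
      intro k hk
      by_contra hlt
      obtain ⟨e, he⟩ := hP.sup_ne (hF'.sub hk)
      rw [mem_sup'] at he
      have heN : e ∈ NCs V := (hsupp k hk e he.2).resolve_left he.1
      have h2 : c k e ≤ ∑ e ∈ NCs V, c k e :=
        Finset.single_le_sum (f := fun e => c k e) (fun _ _ => Nat.zero_le _) heN
      have h3 : ∑ e ∈ NCs V, c k e = 1 := by
        have := he.2
        omega
      have h4 := (l4_one h3).2.2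
      have h5 := hP.colV (hF'.sub hk) hξV
      rw [Finset.sum_eq_single e] at h5
      · rcases mul_eq_zero.1 h5 with h | h
        · exact he.2 (by exact_mod_cast h)
        · exact (hN e).1 heN h
      · intro f _ hfe
        by_cases hf : f ∈ NCs V
        · by_cases hz : c k f = 0
          · rw [hz, Nat.cast_zero, zero_mul]
          · exact absurd (h4 f hf e heN hz he.2) hfe
        · rw [l4_zero hf hξV, mul_zero]
      · intro h
        exact absurd (Finset.mem_univ e) h
    have htot : ∑ k ∈ Y', ∑ e ∈ NCs V, c k e = ∑ k ∈ Y', 2 := by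
      rw [Finset.sum_comm, Finset.sum_congr rfl hone, Finset.sum_const, Finset.sum_const,
        smul_eq_mul, smul_eq_mul, hc', hcard]
      ring
    have htwo : ∀ k ∈ Y', 2 = ∑ e ∈ NCs V, c k e :=
      (Finset.sum_eq_sum_iff_of_le hge).1 htot.symm
    exact ⟨⟨hF'.sub, hone, fun k hk => (htwo k hk).symm⟩, hsupp⟩

end MPb07157.SK
end
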