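import Pool.Agent.Lib.MP_b07157_ag.SK.L4
import Pool.Agent.Lib.MP_b07157_ag.SK.B2

section

/-!
# Isolation of a matching column
-/

set_option linter.unusedSectionVars false

namespace MPb07157.SK

open Finset Module MPb07157.EX

variable {ι κ : Type} [Fintype ι] [DecidableEq ι] [DecidableEq κ]
variable {c : κ → ι → ℕ} {C : Finset κ} {A : Set (ι → ℚ)} {V V' : Submodule ℚ (ι → ℚ)}
  {T R : Finset ι} {J J' Y Z : Finset κ} {W : Finset ι} {w₀ : ι} {t : ι → ℚ}

/-- The perfect matching of a `Mat` family. -/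
private theorem pm_of_mat (hM : Mat c C T (NCs V) Y) (k₀ : κ) : ∃ (m : ι → ι) (j : ι → κ),
    PM c C V T m j ∧ (∀ v ∈ NCs V, j v ∈ Y) ∧
      (∀ v ∈ NCs V, c (j v) (m v) = 1) ∧ ∀ k ∈ Y, ∃ v ∈ NCs V, j v = k := by
  classical
  have hp : ∀ e, ∃ (k : κ) (e' : ι), e ∈ NCs V → k ∈ Y ∧ c k e = 1 ∧ (∀ k' ∈ Y, c k' e ≠ 0 → k' = k) ∧
      e' ∈ NCs V ∧ e' ≠ e ∧ c k e' = 1 ∧ ∀ f ∈ NCs V, c k f ≠ 0 → f = e ∨ f = e' := by
    intro e
    by_cases he : e ∈ NCs V
    · obtain ⟨k, hk, h1, h2, e', he', h3, h4, h5⟩ := hM.jj.pair he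
      exact ⟨k, e', fun _ => ⟨hk, h1, h2, he', h3, h4, h5⟩⟩
    · exact ⟨k₀, e, fun h => absurd h he⟩
  choose j m hjm using hp
  have hNC : ∀ v, NC V v ↔ v ∈ NCs V := fun v => by
    simp only [NCs, Finset.mem_filter, Finset.mem_univ, true_and]
  have hjm2 : ∀ v ∈ NCs V, j (m v) = j v := by
    intro v hv
    obtain ⟨a1, a2, a3, a4, a5, a6, a7⟩ := hjm v hv
    obtain ⟨b1, b2, b3, b4, b5, b6, b7⟩ := hjm (m v) a4
    exact (b3 (j v) a1 (by rw [a6]; exact one_ne_zero)).symm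
  refine ⟨m, j, ⟨?_, ?_, ?_, ?_, ?_, ?_, ?_⟩, ?_, ?_, ?_⟩
  · intro v hv
    rw [hNC] at hv ⊢
    exact (hjm v hv).2.2.2.1
  · intro v hv
    rw [hNC] at hv
    obtain ⟨a1, a2, a3, a4, a5, a6, a7⟩ := hjm v hv
    obtain ⟨b1, b2, b3, b4, b5, b6, b7⟩ := hjm (m v) a4
    rw [hjm2 v hv] at b6
    rcases a7 (m (m v)) b4 (by rw [b6]; exact one_ne_zero) with h | h
    · exact h
    · exact absurd h b5
  · intro v hv
    rw [hNC] at hv
    exact (hjm v hv).2.2.2.2.1
  · intro v hv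
    rw [hNC] at hv
    exact hjm2 v hv
  · intro v hv
    rw [hNC] at hv
    exact hM.jj.sub (hjm v hv).1
  · intro v hv
    rw [hNC] at hv
    exact (hjm v hv).2.1
  · intro v hv e he
    rw [hNC] at hv
    obtain ⟨a1, a2, a3, a4, a5, a6, a7⟩ := hjm v hv
    rcases hM.supp _ a1 e he with h | h
    · exact Or.inl h
    · exact Or.inr (a7 e h he)
  · intro v hv
    exact (hjm v hv).1
  · intro v hv
    exact (hjm v hv).2.2.2.2.2.1
  · intro k hk
    have h2 := hM.jj.two k hk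
    have : ∃ e ∈ NCs V, c k e ≠ 0 := by
      by_contra hcon
      push Not at hcon
      rw [Finset.sum_eq_zero hcon] at h2
      omega
    obtain ⟨e, he, hne⟩ := this
    exact ⟨e, he, ((hjm e he).2.2.1 k hk hne).symm⟩

/-- The owner of a single of a one-sided set lies on the other side. -/
private theorem own_side (hS : Sys c C C A V T) (hq : Q0 c C C A T) {x ξ : ι → ℚ} (hx : x ∈ A)
    (hξ : ξ ∈ V) (hgen : ∀ η ∈ V, ∃ r : ℚ, η = r • ξ) {S' : Finset ι}
    (h : ∀ e ∈ S', x e = 0 ∧ 0 < ξ e) {w : ι} {k : κ} (hk : Own c C C (T ∪ S') w k) :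
    x w = 1 ∧ ξ w < 0 := by
  classical
  have hmem := hk.mem
  rw [mem_U] at hmem
  obtain ⟨hkC, hw1, hsupp⟩ := hmem
  have hwT : w ∉ T ∪ S' := hk.1
  -- sums over the column
  have hsum : ∀ y : ι → ℚ, (∀ f ∈ T, y f = 0) → Disjoint S' {w} →
      ∑ e, (c k e : ℚ) * y e = y w + ∑ e ∈ S', (c k e : ℚ) * y e := by
    intro y hy hdis
    have hsub : ∑ e, (c k e : ℚ) * y e = ∑ e ∈ insert w S', (c k e : ℚ) * y e := by
      symm
      apply Finset.sum_subset (Finset.subset_univ _)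
      intro e _ he
      rw [Finset.mem_insert, not_or] at he
      by_cases hc : c k e = 0
      · rw [hc]; simp
      · rcases hsupp e hc with h1 | h1
        · rcases Finset.mem_union.mp h1 with h2 | h2
          · rw [hy e h2, mul_zero]
          · exact absurd h2 he.2
        · exact absurd h1 he.1
    rw [hsub, Finset.sum_insert, hw1]
    · simp
    · intro hw
      exact hwT (Finset.mem_union_right _ hw)
  have hdis : Disjoint S' {w} := by
    rw [Finset.disjoint_singleton_right]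
    intro hw
    exact hwT (Finset.mem_union_right _ hw)
  have hx1 := hS.col k hkC x hx
  rw [hsum x (hS.zero x hx) hdis] at hx1
  have hx0 : ∑ e ∈ S', (c k e : ℚ) * x e = 0 :=
    Finset.sum_eq_zero fun e he => by rw [(h e he).1, mul_zero]
  rw [hx0, add_zero] at hx1
  refine ⟨hx1, ?_⟩
  have hξ1 := hS.colV hkC hξ
  rw [hsum ξ (hS.zeroV hξ) hdis] at hξ1
  have hnn : ∀ e ∈ S', 0 ≤ (c k e : ℚ) * ξ e := fun e he =>
    mul_nonneg (by positivity) (h e he).2.le
  have hnn' := Finset.sum_nonneg hnn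
  rcases lt_or_eq_of_le hnn' with h3 | h3
  · linarith
  · exfalso
    rw [← h3, add_zero] at hξ1
    have hz : ∀ e ∈ S', c k e = 0 := by
      intro e he
      have := (Finset.sum_eq_zero_iff_of_nonneg hnn).mp h3.symm e he
      rcases mul_eq_zero.mp this with h4 | h4
      · exact_mod_cast h4
      · exact absurd h4 (h e he).2.ne'
    refine hq w ?_ k ⟨fun hw => hwT (Finset.mem_union_left _ hw), ?_, hkC⟩
    · intro y hy
      have hd : y - x ∈ V := (hS.aff x hx y).mp hy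
      obtain ⟨r, hr⟩ := hgen _ hd
      have h5 := congrFun hr w
      simp only [Pi.sub_apply, Pi.smul_apply, smul_eq_mul, hξ1, mul_zero] at h5
      linarith
    · apply Finset.Subset.antisymm
      · have h6 : U c C T w ⊆ U c C (T ∪ S') w := U_mono Finset.subset_union_left w
        rw [hk.2.1] at h6
        exact h6
      · rw [Finset.singleton_subset_iff, mem_U]
        refine ⟨hkC, hw1, fun e he => ?_⟩
        rcases hsupp e he with h7 | h7
        · rcases Finset.mem_union.mp h7 with h8 | h8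
          · exact Or.inl h8
          · exact absurd (hz e h8) he
        · exact Or.inr h7

/-- Isolation of a matching column (`EX.line_isolate`).

Proof. Let `Y = (NCs V).image j` for `PM m j` (`EX.line_exists`, uniqueness `line_mat`),
`k = j v`, `v ∈ NCs V`, `ξ ∈ V` with `0 < ξ v`, `x ∈ A` with `x v = 0`,
`V' = {e | x e = 0 ∧ 0 < ξ e}`, `O' = {e | x e = 1 ∧ ξ e < 0}`.  `hO'` of `line_isolate`: as in
`line_mat` every single of `T ∪ S'` meets `S'` and its owner is in `O'`.  `|O'| ≤ |V'|`: `m` maps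
`O'` injectively into `V'` (`x e + x (m e) = 1`, `ξ e + ξ (m e) = 0`). -/
theorem line_iso (hS : Sys c C C A V T) (h1 : finrank ℚ V = 1) (hq : Q0 c C C A T)
    (hM : Mat c C T (NCs V) Y) {k : κ} (hk : k ∈ Y) :
    ∃ x ∈ A, ∃ ξ ∈ V, ∃ S' : Finset ι, S'.Nonempty ∧ (∀ e ∈ S', x e = 0 ∧ 0 < ξ e) ∧
      ∀ w k', Own c C C (T ∪ S') w k' → k' = k := by
  classical
  obtain ⟨m, j, hPM, hjY, hval, hsurj⟩ := pm_of_mat hM k
  obtain ⟨v, hv, hjv⟩ := hsurj k hk
  have hdisj : Disjoint (NCs V) T := by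
    rw [Finset.disjoint_left]
    intro e he heT
    obtain ⟨η, hη, hne⟩ := mem_NCs.mp he
    exact hne (hS.zeroV hη e heT)
  -- the direction
  obtain ⟨ξ, hξ, hξv⟩ : ∃ ξ ∈ V, 0 < ξ v := by
    obtain ⟨η, hη, hne⟩ := mem_NCs.mp hv
    rcases lt_or_gt_of_ne hne with h | h
    · exact ⟨-η, V.neg_mem hη, by simpa using h⟩
    · exact ⟨η, hη, h⟩
  have hξ0 : ξ ≠ 0 := by
    rintro rfl
    simp at hξv
  obtain ⟨hg1, hgen⟩ := line_gen h1 hξ hξ0
  -- the point
  obtain ⟨x, hx, hxv⟩ : ∃ x ∈ A, x v = 0 := by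
    obtain ⟨p, hp⟩ := hS.ne
    refine ⟨p + (-(p v / ξ v)) • ξ, (Pre.of_sys hS).add_mem hp (V.smul_mem _ hξ), ?_⟩
    simp only [Pi.add_apply, Pi.smul_apply, smul_eq_mul]
    field_simp
    ring
  set V₁ : Finset ι := univ.filter fun e => x e = 0 ∧ 0 < ξ e with hV₁
  set O₁ : Finset ι := univ.filter fun e => x e = 1 ∧ ξ e < 0 with hO₁
  have hmV : ∀ e, e ∈ V₁ ↔ x e = 0 ∧ 0 < ξ e := fun e => by
    rw [hV₁, Finset.mem_filter]; simp
  have hmO : ∀ e, e ∈ O₁ ↔ x e = 1 ∧ ξ e < 0 := fun e => by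
    rw [hO₁, Finset.mem_filter]; simp
  have hNC : ∀ u, NC V u ↔ u ∈ NCs V := fun u => by
    simp only [NCs, Finset.mem_filter, Finset.mem_univ, true_and]
  have hslope : ∀ e ∈ NCs V, (ξ e + ξ (m e) = 0) ∧ x e + x (m e) = 1 := by
    intro e he
    have hme : m e ∈ NCs V := (hNC _).mp (hPM.nc e ((hNC _).mpr he))
    have hne : e ≠ m e := (hPM.ne e ((hNC _).mpr he)).symm
    have hs := Mat.slope (Pre.of_sys hS) hdisj hM (hjY e he) he hme hne
      (by rw [hPM.val e ((hNC _).mpr he)]; exact one_ne_zero)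
      (by rw [hval e he]; exact one_ne_zero)
    exact ⟨hs.1 ξ hξ, hs.2 x hx⟩
  have hcard : O₁.card ≤ V₁.card := by
    refine Finset.card_le_card_of_injOn m ?_ ?_
    · intro e he
      rw [Finset.mem_coe, hmO] at he
      have heN : e ∈ NCs V := (hg1 e).mpr he.2.ne
      obtain ⟨a1, a2⟩ := hslope e heN
      rw [Finset.mem_coe, hmV]
      constructor
      · linarith [he.1]
      · linarith [he.2]
    · intro e he e' he' hee
      rw [Finset.mem_coe, hmO] at he he'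
      have heN : NC V e := (hNC _).mpr ((hg1 e).mpr he.2.ne)
      have heN' : NC V e' := (hNC _).mpr ((hg1 e').mpr he'.2.ne)
      rw [← hPM.inv e heN, hee, hPM.inv e' heN']
  obtain ⟨S', hS'V, hvS', hown⟩ := line_isolate hS h1 hq hPM hx hξ
    (fun e he => (hmV e).mp he)
    (fun S' hS' _ w k' hwk => by
      rw [hmO]
      exact own_side hS hq hx hξ hgen (fun e he => (hmV e).mp (hS' he)) hwk)
    hcard ((hmV v).mpr ⟨hxv, hξv⟩)
  refine ⟨x, hx, ξ, hξ, S', ⟨v, hvS'⟩, fun e he => (hmV e).mp (hS'V he), fun w k' hwk => ?_⟩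
  rw [hown w k' hwk, hjv]

end MPb07157.SK
end

section

/-!
# Active lines
-/

set_option linter.unusedSectionVars false

namespace MPb07157.SK

open Finset Module MPb07157.EX

variable {ι κ : Type} [Fintype ι] [DecidableEq ι] [DecidableEq κ]
variable {c : κ → ι → ℕ} {C : Finset κ} {A : Set (ι → ℚ)} {V V' : Submodule ℚ (ι → ℚ)}
  {T R : Finset ι} {J J' Y Z : Finset κ} {W : Finset ι} {w₀ : ι} {t : ι → ℚ}

/-- Active lines: acyclic sets whose flat is a line without constant owner. -/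
structure Act (c : κ → ι → ℕ) (C : Finset κ) (A : Set (ι → ℚ)) (V : Submodule ℚ (ι → ℚ))
    (T R : Finset ι) : Prop where
  acy : Acy A V R
  one : finrank ℚ (cutV V R) = 1
  q0 : Q0 c C C (cutA A R) (T ∪ R)

/-- The perfect matching of an active line: `line_mat` for `hS.cut hR.acy`. -/
theorem Act.mat (hS : Sys c C C A V T) (hR : Act c C A V T R) :
    ∃ Y, Mat c C (T ∪ R) (NCs (cutV V R)) Y ∧
      ∀ Y', Mat c C (T ∪ R) (NCs (cutV V R)) Y' → Y' = Y :=
  line_mat (hS.cut hR.acy) hR.one hR.q0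

/-- The sum of all coordinates is constant along an active line (`Mat.sum_zero`). -/
theorem Act.sum (hS : Sys c C C A V T) (hR : Act c C A V T R) :
    ∀ ξ ∈ cutV V R, ∑ e, ξ e = 0 := by
  obtain ⟨Y, hY, -⟩ := hR.mat hS
  exact Mat.sum_zero (Pre.of_sys (hS.cut hR.acy)) hY

/-- 5(a): in a plane, no column of the matching meets `R`: `Y` is a rigid deficit.

Proof. `mat_rigid` for the system `hS.cut` gives `MinD` and `Rigid` for `T ∪ R`; `Dfc.up` and
`Rigid.up`.  (Holds in every dimension.) -/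
theorem plane_a (hS : Sys c C C A V T) (hR : Act c C A V T R)
    (hY : Mat c C (T ∪ R) (NCs (cutV V R)) Y) (h0 : ∀ k ∈ Y, ∀ e ∈ R, c k e = 0) :
    Dfc c C V T Y ∧ Rigid c C T Y := by
  obtain ⟨Y', hY', hu⟩ := hR.mat hS
  obtain ⟨h1, h2⟩ := mat_rigid (Pre.of_sys (hS.cut hR.acy)) hR.one hY
    (fun Z hZ => (hu Z hZ).trans (hu Y hY).symm)
  exact ⟨Dfc.up h1.dfc h0, Rigid.up h2⟩

end MPb07157.SK
end
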