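import Pool.Agent.Lib.MP_b07157_ag.SK.L2

/-!
# The shrunk system: the maps
-/

set_option linter.unusedSectionVars false

namespace MPb07157.SK

open Finset Module MPb07157.EX

variable {ι κ : Type} [Fintype ι] [DecidableEq ι] [DecidableEq κ]
variable {c : κ → ι → ℕ} {C : Finset κ} {A : Set (ι → ℚ)} {V V' : Submodule ℚ (ι → ℚ)}
  {T R : Finset ι} {J J' Y Z : Finset κ} {W : Finset ι} {w₀ : ι} {t : ι → ℚ}

theorem phiL_apply (ξ : ι → ℚ) (e : ι) :
    phiL W w₀ ξ e = if e = w₀ then ∑ v ∈ W, ξ v else if e ∈ W then 0 else ξ e := rfl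

theorem phiL_out (hw : w₀ ∈ W) (ξ : ι → ℚ) {e : ι} (he : e ∉ W) : phiL W w₀ ξ e = ξ e := by
  rw [phiL_apply, if_neg (fun h : e = w₀ => he (h ▸ hw)), if_neg he]

theorem phiA_out (hw : w₀ ∈ W) (x : ι → ℚ) {e : ι} (he : e ∉ W) : phiA W w₀ x e = x e := by
  unfold phiA
  rw [phiL_out hw x he, if_neg (fun h : e = w₀ => he (h ▸ hw)), sub_zero]

theorem mem_Cb_inl {k : κ} : Sum.inl k ∈ Cb c C W ↔ k ∈ C ∧ ∀ e ∈ W, c k e = 0 := by
  unfold Cb
  rw [Finset.inl_mem_disjSum, Finset.mem_filter]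

theorem mem_Cb_inr {Y : Finset κ} : Sum.inr Y ∈ Cb c C W ↔ JJ c C W Y := by
  classical
  unfold Cb
  rw [Finset.inr_mem_disjSum]
  simp only [Finset.mem_filter, Finset.mem_powerset]
  exact ⟨fun h => h.2, fun h => ⟨h.sub, h⟩⟩

/-- The sum of all coordinates of a direction does not change. -/
theorem sum_phiL (hw : w₀ ∈ W) (ξ : ι → ℚ) : ∑ e, phiL W w₀ ξ e = ∑ e, ξ e := by
  have h1 : ∀ g : ι → ℚ, ∑ e, g e = ∑ e ∈ W, g e + ∑ e ∈ Wᶜ, g e := fun g =>
    (Finset.sum_add_sum_compl W g).symm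
  rw [h1 (fun e => phiL W w₀ ξ e), h1 ξ]
  congr 1
  · rw [Finset.sum_eq_single w₀]
    · rw [phiL_apply, if_pos rfl]
    · intro b hb hne
      rw [phiL_apply, if_neg hne, if_pos hb]
    · intro h
      exact absurd hw h
  · refine Finset.sum_congr rfl fun e he => ?_
    exact phiL_out hw ξ (Finset.mem_compl.1 he)

/-- `W` is disjoint from `T`. -/
theorem Circ.disj (hP : Pre c C A V T) (hW : Circ V t W w₀) : Disjoint W T := by
  rw [Finset.disjoint_left]
  intro e he heT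
  exact (hW.tW e).2 he (hP.vT hW.tV heT)

/-- The kernel of `phiL` on `V` is spanned by `t`. -/
theorem Circ.ker (hW : Circ V t W w₀) {ξ : ι → ℚ} (hξ : ξ ∈ V) :
    phiL W w₀ ξ = 0 ↔ ∃ r : ℚ, ξ = r • t := by
  constructor
  · intro h
    refine hW.circ ξ hξ fun e he => ?_
    have h2 := congrFun h e
    rw [phiL_out hW.w0 ξ he] at h2
    exact h2
  · rintro ⟨r, rfl⟩
    rw [map_smul]
    have h0 : phiL W w₀ t = 0 := by
      funext e
      rw [phiL_apply]
      split_ifs with h1 h2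
      · exact hW.sum
      · rfl
      · by_contra h3
        exact h2 ((hW.tW e).1 h3)
    rw [h0, smul_zero]

/-- Circuits of flats. -/
theorem Circ.cut (hW : Circ V t W w₀) (hR : Disjoint R W) : Circ (cutV V R) t W w₀ := by
  refine ⟨⟨hW.tV, fun f hf => ?_⟩, hW.tW, hW.w0, fun ξ hξ h => hW.circ ξ hξ.1 h, hW.sum⟩
  by_contra h3
  exact Finset.disjoint_left.1 hR hf ((hW.tW f).1 h3)

end MPb07157.SK
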