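import Pool.Agent.Lib.MP_b07157_ag.SK.S1

/-!
# Dimensions and flats of the shrunk system
-/

set_option linter.unusedSectionVars false

namespace MPb07157.SK

open Finset Module MPb07157.EX

variable {ι κ : Type} [Fintype ι] [DecidableEq ι] [DecidableEq κ]
variable {c : κ → ι → ℕ} {C : Finset κ} {A : Set (ι → ℚ)} {V V' : Submodule ℚ (ι → ℚ)}
  {T R : Finset ι} {J J' Y Z : Finset κ} {W : Finset ι} {w₀ : ι} {t : ι → ℚ}

/-- Dimension of images of submodules containing `t`. -/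
theorem Circ.finrank_map (hW : Circ V t W w₀) {K : Submodule ℚ (ι → ℚ)} (hK : K ≤ V)
    (ht : t ∈ K) : finrank ℚ (K.map (phiL W w₀)) + 1 = finrank ℚ K := by
  have h1 := LinearMap.finrank_range_add_finrank_ker ((phiL W w₀).domRestrict K)
  rw [LinearMap.range_domRestrict] at h1
  have ht0 : (⟨t, ht⟩ : K) ≠ 0 := by
    intro h
    have h2 : t = 0 := congrArg Subtype.val h
    have h3 := (hW.tW w₀).2 hW.w0
    rw [h2] at h3
    exact h3 rfl
  have h2 : LinearMap.ker ((phiL W w₀).domRestrict K) = Submodule.span ℚ {(⟨t, ht⟩ : K)} := by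
    ext ξ
    rw [LinearMap.mem_ker, LinearMap.domRestrict_apply, hW.ker (hK ξ.2),
      Submodule.mem_span_singleton]
    constructor
    · rintro ⟨r, hr⟩
      exact ⟨r, Subtype.ext hr.symm⟩
    · rintro ⟨r, hr⟩
      exact ⟨r, by rw [← hr]; rfl⟩
  rw [h2, finrank_span_singleton ht0] at h1
  exact h1

/-- Dimension of images of submodules not containing `t`. -/
theorem Circ.finrank_map' (hW : Circ V t W w₀) {K : Submodule ℚ (ι → ℚ)} (hK : K ≤ V)
    (ht : t ∉ K) : finrank ℚ (K.map (phiL W w₀)) = finrank ℚ K := by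
  have h1 := LinearMap.finrank_range_add_finrank_ker ((phiL W w₀).domRestrict K)
  rw [LinearMap.range_domRestrict] at h1
  have h2 : LinearMap.ker ((phiL W w₀).domRestrict K) = ⊥ := by
    rw [LinearMap.ker_eq_bot']
    intro ξ hξ
    rw [LinearMap.domRestrict_apply, hW.ker (hK ξ.2)] at hξ
    obtain ⟨r, hr⟩ := hξ
    have hr0 : r = 0 := by
      by_contra hr0
      apply ht
      have h3 : t = r⁻¹ • (ξ : ι → ℚ) := by
        rw [hr, smul_smul, inv_mul_cancel₀ hr0, one_smul]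
      rw [h3]
      exact K.smul_mem _ ξ.2
    apply Subtype.ext
    rw [hr, hr0, zero_smul]
    rfl
  rw [h2, finrank_bot, add_zero] at h1
  exact h1

theorem Circ.finrank_Vb (hW : Circ V t W w₀) : finrank ℚ (Vb W w₀ V) + 1 = finrank ℚ V :=
  hW.finrank_map le_rfl hW.tV

/-- Flats of the shrunk system for elements outside `W`. -/
theorem Ab_cut (hw : w₀ ∈ W) (hR : Disjoint R W) :
    cutA (Ab W w₀ A) R = Ab W w₀ (cutA A R) := by
  have hd : ∀ f ∈ R, f ∉ W := fun f hf => Finset.disjoint_left.1 hR hf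
  ext y
  constructor
  · rintro ⟨⟨x, hx, rfl⟩, hy⟩
    refine ⟨x, ⟨hx, fun f hf => ?_⟩, rfl⟩
    rw [← phiA_out hw x (hd f hf)]
    exact hy f hf
  · rintro ⟨x, ⟨hx, hxR⟩, rfl⟩
    refine ⟨⟨x, hx, rfl⟩, fun f hf => ?_⟩
    rw [phiA_out hw x (hd f hf)]
    exact hxR f hf

theorem Vb_cut (hw : w₀ ∈ W) (hR : Disjoint R W) :
    cutV (Vb W w₀ V) R = Vb W w₀ (cutV V R) := by
  have hd : ∀ f ∈ R, f ∉ W := fun f hf => Finset.disjoint_left.1 hR hf
  ext y
  constructor
  · rintro ⟨⟨x, hx, rfl⟩, hy⟩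
    refine ⟨x, ⟨hx, fun f hf => ?_⟩, rfl⟩
    rw [← phiL_out hw x (hd f hf)]
    exact hy f hf
  · rintro ⟨x, ⟨hx, hxR⟩, rfl⟩
    refine ⟨⟨x, hx, rfl⟩, fun f hf => ?_⟩
    rw [phiL_out hw x (hd f hf)]
    exact hxR f hf

end MPb07157.SK
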