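import Pool.Agent.Lib.MP_b07157_ag.SK.S3

section

/-!
# Transfer: families, first case
-/

set_option linter.unusedSectionVars false

namespace MPb07157.SK

open Finset Module MPb07157.EX

variable {ι κ : Type} [Fintype ι] [DecidableEq ι] [DecidableEq κ]
variable {c : κ → ι → ℕ} {C : Finset κ} {A : Set (ι → ℚ)} {V V' : Submodule ℚ (ι → ℚ)}
  {T R : Finset ι} {J J' Y Z : Finset κ} {W : Finset ι} {w₀ : ι} {t : ι → ℚ}

private lemma x1_sum_le {S : Finset κ} (hJ : Fam c C T J) (hS : S ⊆ J) {e : ι} (he : e ∉ T) :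
    ∑ k ∈ S, c k e ≤ 1 := by
  by_cases h : ∃ k ∈ S, c k e ≠ 0
  · obtain ⟨k, hk, hke⟩ := h
    rw [Finset.sum_eq_single_of_mem k hk]
    · exact hJ.zo k (hS hk) e he
    · intro k' hk' hne
      by_contra h0
      exact hne (hJ.dj k' (hS hk') k (hS hk) e he h0 hke)
  · push Not at h
    rw [Finset.sum_eq_zero h]
    exact Nat.zero_le _

private lemma x1_mem_J0 {k : κ} : k ∈ J0 c W J ↔ k ∈ J ∧ ∀ e ∈ W, c k e = 0 := by
  unfold J0
  rw [Finset.mem_filter]

private lemma x1_mem_JW {k : κ} : k ∈ JW c W J ↔ k ∈ J ∧ ¬ ∀ e ∈ W, c k e = 0 := by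
  unfold JW
  rw [Finset.mem_filter]

private lemma x1_cb_inl {k : κ} {e : ι} :
    cb c W w₀ (Sum.inl k) e = if e ∈ W then 0 else c k e := rfl

private lemma x1_cb_inr {e : ι} :
    cb c W w₀ (Sum.inr Y) e = if e = w₀ then 1 else if e ∈ W then 0 else ∑ k ∈ Y, c k e := rfl

private lemma x1_inl_ne {k : κ} {e : ι} (h : cb c W w₀ (Sum.inl k) e ≠ 0) : e ∉ W ∧ c k e ≠ 0 := by
  rw [x1_cb_inl] at h
  by_cases he : e ∈ W
  · rw [if_pos he] at h
    exact absurd rfl h
  · rw [if_neg he] at h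
    exact ⟨he, h⟩

private lemma x1_inr_ne {e : ι} (h : cb c W w₀ (Sum.inr Y) e ≠ 0) :
    e = w₀ ∨ (e ∉ W ∧ ∃ k ∈ Y, c k e ≠ 0) := by
  rw [x1_cb_inr] at h
  by_cases h0 : e = w₀
  · exact Or.inl h0
  · right
    rw [if_neg h0] at h
    by_cases he : e ∈ W
    · rw [if_pos he] at h
      exact absurd rfl h
    · rw [if_neg he] at h
      exact ⟨he, Finset.exists_ne_zero_of_sum_ne_zero h⟩

/-- (4a), first case, combinatorial part: `J` a disjoint family whose columns meeting `W` partition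
`W` into pairs.  The transferred family is disjoint, its union is `(PU J \ W) ∪ {w₀}`, it has
`|J| - |W| / 2 + 1` columns. -/
theorem trans1_fam (hP : Pre c C A V T) (hW : Circ V t W w₀) (hJ : Fam c C T J)
    (hJW : JJ c C W (JW c W J)) :
    Fam (cb c W w₀) (Cb c C W) T ((J0 c W J).disjSum {JW c W J}) ∧
      PU (cb c W w₀) T ((J0 c W J).disjSum {JW c W J}) = insert w₀ (PU c T J \ W) ∧
      W ⊆ PU c T J ∧
      2 * ((J0 c W J).disjSum {JW c W J}).card + W.card = 2 * J.card + 2 := by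
  have hdisj : Disjoint W T := hW.disj hP
  have hw0T : w₀ ∉ T := Finset.disjoint_left.1 hdisj hW.w0
  have hJWs : JW c W J ⊆ J := fun k hk => (x1_mem_JW.1 hk).1
  have hWsub : W ⊆ PU c T J := by
    intro e he
    have h1 := hJW.one e he
    have h2 : ∑ k ∈ JW c W J, c k e ≠ 0 := by
      rw [h1]
      exact one_ne_zero
    obtain ⟨k, hk, hke⟩ := Finset.exists_ne_zero_of_sum_ne_zero h2
    exact mem_PU.2 ⟨Finset.disjoint_left.1 hdisj he, k, hJWs hk, hke⟩
  refine ⟨⟨?_, ?_, ?_⟩, ?_, hWsub, ?_⟩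
  · intro x hx
    rcases x with k | Y
    · rw [Finset.inl_mem_disjSum, x1_mem_J0] at hx
      exact mem_Cb_inl.2 ⟨hJ.sub hx.1, hx.2⟩
    · rw [Finset.inr_mem_disjSum, Finset.mem_singleton] at hx
      subst hx
      exact mem_Cb_inr.2 hJW
  · intro x hx e he
    rcases x with k | Y
    · rw [Finset.inl_mem_disjSum, x1_mem_J0] at hx
      rw [x1_cb_inl]
      split_ifs
      · exact Nat.zero_le _
      · exact hJ.zo k hx.1 e he
    · rw [Finset.inr_mem_disjSum, Finset.mem_singleton] at hx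
      subst hx
      rw [x1_cb_inr]
      split_ifs
      · exact le_rfl
      · exact Nat.zero_le _
      · exact x1_sum_le hJ hJWs he
  · intro x hx x' hx' e he h1 h2
    rcases x with k | Y
    · rw [Finset.inl_mem_disjSum, x1_mem_J0] at hx
      obtain ⟨heW, hke⟩ := x1_inl_ne h1
      rcases x' with k' | Y'
      · rw [Finset.inl_mem_disjSum, x1_mem_J0] at hx'
        obtain ⟨_, hke'⟩ := x1_inl_ne h2
        rw [hJ.dj k hx.1 k' hx'.1 e he hke hke']
      · rw [Finset.inr_mem_disjSum, Finset.mem_singleton] at hx'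
        subst hx'
        exfalso
        rcases x1_inr_ne h2 with h3 | ⟨_, k', hk', hke'⟩
        · exact heW (h3 ▸ hW.w0)
        · have h4 := hJ.dj k hx.1 k' (hJWs hk') e he hke hke'
          subst h4
          exact (x1_mem_JW.1 hk').2 hx.2
    · rw [Finset.inr_mem_disjSum, Finset.mem_singleton] at hx
      subst hx
      rcases x' with k' | Y'
      · rw [Finset.inl_mem_disjSum, x1_mem_J0] at hx'
        obtain ⟨heW, hke'⟩ := x1_inl_ne h2
        exfalso
        rcases x1_inr_ne h1 with h3 | ⟨_, k, hk, hke⟩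
        · exact heW (h3 ▸ hW.w0)
        · have h4 := hJ.dj k (hJWs hk) k' hx'.1 e he hke hke'
          subst h4
          exact (x1_mem_JW.1 hk).2 hx'.2
      · rw [Finset.inr_mem_disjSum, Finset.mem_singleton] at hx'
        rw [hx']
  · ext e
    rw [mem_PU, Finset.mem_insert, Finset.mem_sdiff, mem_PU]
    constructor
    · rintro ⟨he, x, hx, hxe⟩
      rcases x with k | Y
      · rw [Finset.inl_mem_disjSum, x1_mem_J0] at hx
        obtain ⟨heW, hke⟩ := x1_inl_ne hxe
        exact Or.inr ⟨⟨he, k, hx.1, hke⟩, heW⟩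
      · rw [Finset.inr_mem_disjSum, Finset.mem_singleton] at hx
        subst hx
        rcases x1_inr_ne hxe with h3 | ⟨heW, k, hk, hke⟩
        · exact Or.inl h3
        · exact Or.inr ⟨⟨he, k, hJWs hk, hke⟩, heW⟩
    · rintro (h | ⟨⟨he, k, hk, hke⟩, heW⟩)
      · subst h
        refine ⟨hw0T, Sum.inr (JW c W J), ?_, ?_⟩
        · rw [Finset.inr_mem_disjSum, Finset.mem_singleton]
        · rw [x1_cb_inr, if_pos rfl]
          exact one_ne_zero
      · refine ⟨he, ?_⟩
        by_cases hk0 : ∀ f ∈ W, c k f = 0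
        · refine ⟨Sum.inl k, ?_, ?_⟩
          · rw [Finset.inl_mem_disjSum, x1_mem_J0]
            exact ⟨hk, hk0⟩
          · rw [x1_cb_inl, if_neg heW]
            exact hke
        · refine ⟨Sum.inr (JW c W J), ?_, ?_⟩
          · rw [Finset.inr_mem_disjSum, Finset.mem_singleton]
          · have hkW : k ∈ JW c W J := x1_mem_JW.2 ⟨hk, hk0⟩
            rw [x1_cb_inr, if_neg (fun h : e = w₀ => heW (h ▸ hW.w0)), if_neg heW]
            have h5 : c k e ≤ ∑ k ∈ JW c W J, c k e :=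
              Finset.single_le_sum (f := fun k => c k e) (fun _ _ => Nat.zero_le _) hkW
            omega
  · have h1 := hJW.card
    have h2 : (J0 c W J).card + (JW c W J).card = J.card := by
      unfold J0 JW
      exact Finset.card_filter_add_card_filter_not _
    rw [Finset.card_disjSum, Finset.card_singleton]
    omega

end MPb07157.SK
end

section

/-!
# Transfer: numbers, first case
-/

set_option linter.unusedSectionVars false

namespace MPb07157.SK

open Finset Module MPb07157.EX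

variable {ι κ : Type} [Fintype ι] [DecidableEq ι] [DecidableEq κ]
variable {c : κ → ι → ℕ} {C : Finset κ} {A : Set (ι → ℚ)} {V V' : Submodule ℚ (ι → ℚ)}
  {T R : Finset ι} {J J' Y Z : Finset κ} {W : Finset ι} {w₀ : ι} {t : ι → ℚ}

/-- (4a), first case, dimension: `V (PU J)` contains `t` and is mapped onto
`Vb (insert w₀ (PU J \ W))`. -/
theorem trans1_dim (hP : Pre c C A V T) (hW : Circ V t W w₀) {P : Finset ι} (hWP : W ⊆ P) :
    finrank ℚ (cutV (Vb W w₀ V) (insert w₀ (P \ W))ᶜ) + 1 = finrank ℚ (cutV V Pᶜ) := by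
  have h1 : cutV (Vb W w₀ V) (insert w₀ (P \ W))ᶜ = (cutV V Pᶜ).map (phiL W w₀) := by
    ext η
    constructor
    · rintro ⟨⟨ξ, hξ, rfl⟩, h2⟩
      refine ⟨ξ, ⟨hξ, fun f hf => ?_⟩, rfl⟩
      have hfP : f ∉ P := Finset.mem_compl.1 hf
      have hfW : f ∉ W := fun h => hfP (hWP h)
      have h3 := h2 f (by
        rw [Finset.mem_compl, Finset.mem_insert, Finset.mem_sdiff]
        rintro (h | h)
        · exact hfW (h ▸ hW.w0)
        · exact hfP h.1)
      rwa [phiL_out hW.w0 ξ hfW] at h3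
    · rintro ⟨ξ, ⟨hξ, hξ0⟩, rfl⟩
      refine ⟨⟨ξ, hξ, rfl⟩, fun f hf => ?_⟩
      rw [Finset.mem_compl, Finset.mem_insert, Finset.mem_sdiff, not_or] at hf
      rw [phiL_apply, if_neg hf.1]
      by_cases hfW : f ∈ W
      · rw [if_pos hfW]
      · rw [if_neg hfW]
        exact hξ0 f (Finset.mem_compl.2 fun h => hf.2 ⟨h, hfW⟩)
  rw [h1]
  refine hW.finrank_map (fun ξ h => h.1) ⟨hW.tV, fun f hf => ?_⟩
  by_contra h
  exact (Finset.mem_compl.1 hf) (hWP ((hW.tW f).1 h))

/-- (4a), first case: the deficit numbers are equal. -/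
theorem trans1_num (hP : Pre c C A V T) (hW : Circ V t W w₀) (hJ : Fam c C T J)
    (hJW : JJ c C W (JW c W J)) :
    ((PU c T J).card + 1 ≤ 2 * J.card + finrank ℚ (cutV V (PU c T J)ᶜ)) ↔
      (PU (cb c W w₀) T ((J0 c W J).disjSum {JW c W J})).card + 1 ≤
        2 * ((J0 c W J).disjSum {JW c W J}).card +
          finrank ℚ (cutV (Vb W w₀ V) (PU (cb c W w₀) T ((J0 c W J).disjSum {JW c W J}))ᶜ) := by
  obtain ⟨-, h1, h2, h3⟩ := trans1_fam hP hW hJ hJW
  have h4 := trans1_dim hP hW h2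
  have h5 : w₀ ∉ PU c T J \ W := fun h => (Finset.mem_sdiff.1 h).2 hW.w0
  have h6 := Finset.card_sdiff_add_card_eq_card h2
  rw [h1, Finset.card_insert_of_notMem h5]
  omega

end MPb07157.SK
end
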