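import Pool.Agent.Lib.MP_b07157_ag.SK.S3

/-!
# Transfer: numbers, second case
-/

set_option linter.unusedSectionVars false

namespace MPb07157.SK

open Finset Module MPb07157.EX

variable {ι κ : Type} [Fintype ι] [DecidableEq ι] [DecidableEq κ]
variable {c : κ → ι → ℕ} {C : Finset κ} {A : Set (ι → ℚ)} {V V' : Submodule ℚ (ι → ℚ)}
  {T R : Finset ι} {J J' Y Z : Finset κ} {W : Finset ι} {w₀ : ι} {t : ι → ℚ}

/-- Restriction to a finite set of coordinates. -/
theorem finrank_le_cut (K : Submodule ℚ (ι → ℚ)) (F : Finset ι) :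
    finrank ℚ K ≤ F.card + finrank ℚ (cutV K F) := by
  let g : K →ₗ[ℚ] (F → ℚ) :=
    { toFun := fun x i => (x : ι → ℚ) i
      map_add' := fun _ _ => rfl
      map_smul' := fun _ _ => rfl }
  have h1 := LinearMap.finrank_range_add_finrank_ker g
  have h2 : finrank ℚ (LinearMap.range g) ≤ F.card := by
    calc _ ≤ finrank ℚ (F → ℚ) := Submodule.finrank_le _
      _ = F.card := by rw [Module.finrank_fintype_fun_eq_card, Fintype.card_coe]
  have h3 : finrank ℚ (LinearMap.ker g) = finrank ℚ (cutV K F) := by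
    have h4 : (LinearMap.ker g).map K.subtype = cutV K F := by
      ext x
      rw [Submodule.mem_map]
      constructor
      · rintro ⟨y, hy, rfl⟩
        refine ⟨y.2, fun f hf => ?_⟩
        exact congrFun (LinearMap.mem_ker.1 hy) ⟨f, hf⟩
      · rintro ⟨hx, hx'⟩
        refine ⟨⟨x, hx⟩, ?_, rfl⟩
        rw [LinearMap.mem_ker]
        funext i
        exact hx' i i.2
    rw [← h4, Submodule.finrank_map_subtype_eq]
  omega

/-- (2), one column: at least two elements in `W`. -/
theorem two_le_inter (hP : Pre c C A V T) (hW : Circ V t W w₀) (hJ : Fam c C T J) {k : κ}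
    (hk : k ∈ JW c W J) : 2 ≤ (EX.sup c T k ∩ W).card := by
  have hTW := hW.disj hP
  unfold JW at hk
  rw [Finset.mem_filter] at hk
  obtain ⟨hkJ, hk0⟩ := hk
  push Not at hk0
  obtain ⟨e0, he0, hke0⟩ := hk0
  have hmem : ∀ e, e ∈ EX.sup c T k ∩ W ↔ e ∈ W ∧ c k e ≠ 0 := fun e => by
    rw [Finset.mem_inter, mem_sup']
    exact ⟨fun h => ⟨h.2, h.1.2⟩, fun h => ⟨⟨Finset.disjoint_left.1 hTW h.1, h.2⟩, h.1⟩⟩
  have hcol := hP.colV (hJ.sub hkJ) hW.tV
  have hsum : ∑ e ∈ EX.sup c T k ∩ W, t e = 0 := by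
    rw [← hcol]
    symm
    rw [← Finset.sum_subset (Finset.subset_univ (EX.sup c T k ∩ W))]
    · refine Finset.sum_congr rfl fun e he => ?_
      rw [hmem] at he
      have h1 := hJ.zo k hkJ e (Finset.disjoint_left.1 hTW he.1)
      have h2 : c k e = 1 := by omega
      rw [h2]
      push_cast
      ring
    · intro e _ he
      rw [hmem] at he
      by_cases heW : e ∈ W
      · have : c k e = 0 := by
          by_contra h
          exact he ⟨heW, h⟩
        rw [this]
        push_cast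
        ring
      · have : t e = 0 := by
          by_contra h
          exact heW ((hW.tW e).1 h)
        rw [this, mul_zero]
  by_contra hlt
  have hpos : 0 < (EX.sup c T k ∩ W).card := Finset.card_pos.2 ⟨e0, (hmem e0).2 ⟨he0, hke0⟩⟩
  have h1 : (EX.sup c T k ∩ W).card = 1 := by omega
  obtain ⟨e1, he1⟩ := Finset.card_eq_one.1 h1
  rw [he1, Finset.sum_singleton] at hsum
  have h2 : e1 ∈ EX.sup c T k ∩ W := by rw [he1]; exact Finset.mem_singleton_self _
  exact (hW.tW e1).2 ((hmem e1).1 h2).1 hsum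

/-- (2): the number of elements of `W` covered by the columns that meet `W`. -/
theorem card_inter (hP : Pre c C A V T) (hW : Circ V t W w₀) (hJ : Fam c C T J)
    (hJW : ¬ JJ c C W (JW c W J)) :
    2 * (JW c W J).card ≤ (PU c T (JW c W J) ∩ W).card ∧
      (W ⊆ PU c T (JW c W J) → 2 * (JW c W J).card + 1 ≤ (PU c T (JW c W J) ∩ W).card) := by
  have hTW := hW.disj hP
  have hsubJ : JW c W J ⊆ J := Finset.filter_subset _ _
  have hcard : (PU c T (JW c W J) ∩ W).card = ∑ k ∈ JW c W J, (EX.sup c T k ∩ W).card := by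
    unfold PU
    rw [Finset.biUnion_inter]
    refine Finset.card_biUnion fun k hk k' hk' hne => ?_
    change Disjoint (EX.sup c T k ∩ W) (EX.sup c T k' ∩ W)
    rw [Finset.disjoint_left]
    intro e he he'
    rw [Finset.mem_inter, mem_sup'] at he he'
    exact hne (hJ.dj k (hsubJ hk) k' (hsubJ hk') e he.1.1 he.1.2 he'.1.2)
  have hle : 2 * (JW c W J).card ≤ ∑ k ∈ JW c W J, (EX.sup c T k ∩ W).card := by
    have h1 : ∑ _k ∈ JW c W J, 2 ≤ ∑ k ∈ JW c W J, (EX.sup c T k ∩ W).card :=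
      Finset.sum_le_sum fun k hk => two_le_inter hP hW hJ hk
    rw [Finset.sum_const, smul_eq_mul] at h1
    omega
  refine ⟨by omega, fun hcov => ?_⟩
  by_contra hlt
  have heq : ∑ k ∈ JW c W J, (EX.sup c T k ∩ W).card = ∑ _k ∈ JW c W J, 2 := by
    rw [Finset.sum_const, smul_eq_mul]
    omega
  have htwo : ∀ k ∈ JW c W J, (EX.sup c T k ∩ W).card = 2 := by
    intro k hk
    have := (Finset.sum_eq_sum_iff_of_le (fun k hk => two_le_inter hP hW hJ hk)).1 heq.symm k hk
    exact this.symm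
  apply hJW
  refine ⟨hsubJ.trans hJ.sub, fun e he => ?_, fun k hk => ?_⟩
  · have heT := Finset.disjoint_left.1 hTW he
    obtain ⟨-, k, hk, hke⟩ := mem_PU.1 (hcov he)
    rw [Finset.sum_eq_single k]
    · have := hJ.zo k (hsubJ hk) e heT
      omega
    · intro k' hk' hne
      by_contra h
      exact hne (hJ.dj k' (hsubJ hk') k (hsubJ hk) e heT h hke)
    · intro h
      exact absurd hk h
  · rw [← htwo k hk, Finset.card_eq_sum_ones]
    symm
    rw [← Finset.sum_subset (Finset.inter_subset_right (s₁ := EX.sup c T k) (s₂ := W))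
      (f := fun e => c k e)]
    · refine Finset.sum_congr rfl fun e he => ?_
      rw [Finset.mem_inter, mem_sup'] at he
      have := hJ.zo k (hsubJ hk) e he.1.1
      omega
    · intro e he he'
      by_contra h
      exact he' (Finset.mem_inter.2 ⟨mem_sup'.2 ⟨Finset.disjoint_left.1 hTW he, h⟩, he⟩)

/-- (3): the image of `V(P₀ ∪ Q)`. -/
theorem map_le (hP : Pre c C A V T) (hW : Circ V t W w₀) (hJ : Fam c C T J) :
    (cutV V (PU c T (J0 c W J) ∪ (PU c T (JW c W J) ∩ W))ᶜ).map (phiL W w₀) ≤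
      cutV (Vb W w₀ V) (PU c T (J0 c W J))ᶜ := by
  have hTW := hW.disj hP
  rintro _ ⟨ξ, hξ, rfl⟩
  obtain ⟨hξV, hξ0⟩ := hξ
  have hz : ∀ e, e ∉ PU c T (J0 c W J) → e ∉ PU c T (JW c W J) ∩ W → ξ e = 0 := fun e h1 h2 =>
    hξ0 e (Finset.mem_compl.2 fun h => (Finset.mem_union.1 h).elim h1 h2)
  refine ⟨⟨ξ, hξV, rfl⟩, fun f hf => ?_⟩
  rw [Finset.mem_compl] at hf
  rw [phiL_apply]
  split_ifs with h1 h2
  · -- the sum over `W`
    have hcol : ∀ k ∈ JW c W J, ∑ e, (c k e : ℚ) * ξ e = 0 := fun k hk =>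
      hP.colV (hJ.sub (Finset.filter_subset _ _ hk)) hξV
    have h3 : ∑ e, (∑ k ∈ JW c W J, (c k e : ℚ)) * ξ e = 0 := by
      have h4 : ∑ k ∈ JW c W J, ∑ e, (c k e : ℚ) * ξ e = 0 := Finset.sum_eq_zero hcol
      rw [Finset.sum_comm] at h4
      rw [← h4]
      exact Finset.sum_congr rfl fun e _ => Finset.sum_mul _ _ _
    rw [← h3]
    symm
    rw [← Finset.sum_subset (Finset.subset_univ W)]
    · refine Finset.sum_congr rfl fun e he => ?_
      have heT := Finset.disjoint_left.1 hTW he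
      by_cases hq : e ∈ PU c T (JW c W J)
      · obtain ⟨-, k, hk, hke⟩ := mem_PU.1 hq
        have h5 : ∑ k ∈ JW c W J, (c k e : ℚ) = 1 := by
          rw [Finset.sum_eq_single k]
          · have h6 := hJ.zo k (Finset.filter_subset _ _ hk) e heT
            have h7 : c k e = 1 := by omega
            rw [h7, Nat.cast_one]
          · intro k' hk' hne
            have : c k' e = 0 := by
              by_contra h
              exact hne (hJ.dj k' (Finset.filter_subset _ _ hk') k (Finset.filter_subset _ _ hk) e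
                heT h hke)
            rw [this, Nat.cast_zero]
          · intro h
            exact absurd hk h
        rw [h5, one_mul]
      · have h5 : ξ e = 0 := by
          refine hz e (fun h => ?_) (fun h => hq (Finset.mem_inter.1 h).1)
          obtain ⟨-, k, hk, hke⟩ := mem_PU.1 h
          exact hke ((Finset.mem_filter.1 hk).2 e he)
        rw [h5, mul_zero]
    · intro e _ he
      by_cases h0 : e ∈ PU c T (J0 c W J)
      · obtain ⟨heT, k, hk, hke⟩ := mem_PU.1 h0
        have h5 : ∑ k ∈ JW c W J, (c k e : ℚ) = 0 := by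
          refine Finset.sum_eq_zero fun k' hk' => ?_
          have : c k' e = 0 := by
            by_contra h
            have h6 := hJ.dj k' (Finset.filter_subset _ _ hk') k (Finset.filter_subset _ _ hk) e
              heT h hke
            rw [h6] at hk'
            exact (Finset.mem_filter.1 hk').2 (Finset.mem_filter.1 hk).2
          rw [this, Nat.cast_zero]
        rw [h5, zero_mul]
      · rw [hz e h0 (fun h => he (Finset.mem_inter.1 h).2), mul_zero]
  · rfl
  · exact hz f hf fun h => h2 (Finset.mem_inter.1 h).2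

/-- (4a), second case: the columns meeting `W` are not a partition of `W` into pairs.

Proof. Let `P₀ = PU (J0 J)`, `P₁ = PU (JW J) \ W`, `Q = PU (JW J) ∩ W`, disjoint, with union
`PU J`.  The claim is `dim Vb(P₀) + |P₁| + |Q| ≥ 2 |JW J| + dim V(PU J)`, where
`V(X) = cutV V Xᶜ`, `Vb(P₀) = cutV (Vb V) P₀ᶜ`.
(1) `dim V(PU J) ≤ |P₁| + dim V(P₀ ∪ Q)`: kernel of the restriction to `ℚ^{P₁}`.
(2) Every `k ∈ JW J` has `|sup k ∩ W| ≥ 2` (`∑_W c k e t e = 0`, values 0/1, `t e ≠ 0` on `W`), so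
`|Q| ≥ 2 |JW J|`, and `|Q| ≥ 2 |JW J| + 1` if `Q = W` (otherwise all are pairs and `JJ` holds).
(3) `ξ ∈ V(P₀ ∪ Q)` has `∑_W ξ = ∑_Q ξ = ∑_{k ∈ JW J} ∑ e, c k e ξ e = 0`, so `phiL ξ ∈ Vb(P₀)`
(its `w₀` coordinate is zero; `w₀ ∉ P₀`).
(4) If `Q ≠ W`, `t ∉ V(P₀ ∪ Q)`, so by `Circ.finrank_map'` `dim V(P₀ ∪ Q) ≤ dim Vb(P₀)`.  If
`Q = W`, `t ∈ V(P₀ ∪ Q)` and `dim V(P₀ ∪ Q) = dim (image) + 1 ≤ dim Vb(P₀) + 1`. -/
theorem trans2_num (hP : Pre c C A V T) (hW : Circ V t W w₀) (hJ : Fam c C T J)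
    (hJW : ¬ JJ c C W (JW c W J)) :
    2 * J.card + finrank ℚ (cutV V (PU c T J)ᶜ) + (PU c T (J0 c W J)).card ≤
      2 * (J0 c W J).card + finrank ℚ (cutV (Vb W w₀ V) (PU c T (J0 c W J))ᶜ) +
        (PU c T J).card := by
  have hTW := hW.disj hP
  have hc := Finset.card_filter_add_card_filter_not (s := J) (fun k => ∀ e ∈ W, c k e = 0)
  change (J0 c W J).card + (JW c W J).card = J.card at hc
  have h0J : J0 c W J ⊆ J := Finset.filter_subset _ _
  have hWJ : JW c W J ⊆ J := Finset.filter_subset _ _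
  have hunion : PU c T J = PU c T (J0 c W J) ∪ PU c T (JW c W J) := by
    ext e
    rw [Finset.mem_union, mem_PU, mem_PU, mem_PU]
    constructor
    · rintro ⟨h1, k, hk, h2⟩
      by_cases h3 : ∀ e ∈ W, c k e = 0
      · exact Or.inl ⟨h1, k, Finset.mem_filter.2 ⟨hk, h3⟩, h2⟩
      · exact Or.inr ⟨h1, k, Finset.mem_filter.2 ⟨hk, h3⟩, h2⟩
    · rintro (⟨h1, k, hk, h2⟩ | ⟨h1, k, hk, h2⟩)
      · exact ⟨h1, k, h0J hk, h2⟩
      · exact ⟨h1, k, hWJ hk, h2⟩
  have hdisj : Disjoint (PU c T (J0 c W J)) (PU c T (JW c W J)) := by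
    rw [Finset.disjoint_left]
    intro e h1 h2
    rw [mem_PU] at h1 h2
    obtain ⟨heT, k, hk, hke⟩ := h1
    obtain ⟨-, k', hk', hke'⟩ := h2
    have := hJ.dj k (h0J hk) k' (hWJ hk') e heT hke hke'
    subst this
    exact (Finset.mem_filter.1 hk').2 (Finset.mem_filter.1 hk).2
  have hcard : (PU c T J).card = (PU c T (J0 c W J)).card + ((PU c T (JW c W J) \ W).card +
      (PU c T (JW c W J) ∩ W).card) := by
    rw [hunion, Finset.card_union_of_disjoint hdisj, Finset.card_sdiff_add_card_inter]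
  have hP0W : Disjoint (PU c T (J0 c W J)) W := by
    rw [Finset.disjoint_left]
    intro e h1 h2
    obtain ⟨-, k, hk, hke⟩ := mem_PU.1 h1
    exact hke ((Finset.mem_filter.1 hk).2 e h2)
  have hcut : cutV (cutV V (PU c T J)ᶜ) (PU c T (JW c W J) \ W) =
      cutV V (PU c T (J0 c W J) ∪ (PU c T (JW c W J) ∩ W))ᶜ := by
    rw [cutV_cutV]
    congr 1
    ext e
    rw [hunion, Finset.mem_union, Finset.mem_compl, Finset.mem_compl, Finset.mem_sdiff,
      Finset.mem_union, Finset.mem_union, Finset.mem_inter]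
    have h1 : e ∈ PU c T (J0 c W J) → e ∉ PU c T (JW c W J) := fun h => Finset.disjoint_left.1 hdisj h
    tauto
  have h1 := finrank_le_cut (cutV V (PU c T J)ᶜ) (PU c T (JW c W J) \ W)
  rw [hcut] at h1
  have h2 := card_inter hP hW hJ hJW
  have h3 := Submodule.finrank_mono (map_le hP hW hJ)
  have hKV : cutV V (PU c T (J0 c W J) ∪ (PU c T (JW c W J) ∩ W))ᶜ ≤ V := fun x hx => hx.1
  by_cases ht : W ⊆ PU c T (JW c W J)
  · have h4 := h2.2 ht
    have h5 : t ∈ cutV V (PU c T (J0 c W J) ∪ (PU c T (JW c W J) ∩ W))ᶜ := by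
      refine ⟨hW.tV, fun f hf => ?_⟩
      by_contra h
      have h6 := (hW.tW f).1 h
      exact Finset.mem_compl.1 hf (Finset.mem_union_right _ (Finset.mem_inter.2 ⟨ht h6, h6⟩))
    have h6 := hW.finrank_map hKV h5
    omega
  · have h5 : t ∉ cutV V (PU c T (J0 c W J) ∪ (PU c T (JW c W J) ∩ W))ᶜ := by
      intro h
      apply ht
      intro e he
      by_contra h6
      refine (hW.tW e).2 he (h.2 e (Finset.mem_compl.2 fun h7 => ?_))
      rcases Finset.mem_union.1 h7 with h8 | h8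
      · exact Finset.disjoint_left.1 hP0W h8 he
      · exact h6 (Finset.mem_inter.1 h8).1
    have h6 := hW.finrank_map' hKV h5
    have h7 := h2.1
    omega

end MPb07157.SK
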